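import Mathlib
import Pool.Agent.PT.Bits

/-!
# Iterating word functions given by terms is possible in polynomial time
-/

set_option autoImplicit false

namespace Pool.Agent.B7219d

open Pool.Agent.PT
open Function (update)
open Turing Computability

variable {Γ Δ A : Type}

/-- The word function with length term `m` and letter term `t`. -/
noncomputable def wf (m t : Tm Γ) (K : ℕ) (φ : ℕ → Δ) (x : List Γ) : List Δ :=
  (List.range (m.eval x (fun _ => 0))).map (fun i => φ (min (t.eval x (cons i (fun _ => 0))) K))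

/-- Moving register 1 to register 0. -/
def shiftP : Prog A := Prog.seq (mv 1 2) (mv 2 0)

theorem runs_shift (l : List A) :
    Runs shiftP (single 1 l) (single 0 l) (4 * l.length + 2) := by
  have h1 := runs_mv 1 2 (by decide) l (single 1 l) (by simp [single])
  set s1 := update (update (single 1 l) 1 []) 2 (l.reverse ++ single 1 l 2) with hs1
  have h2 := runs_mv 2 0 (by decide) l.reverse s1 (by simp [hs1, single])
  refine (h1.seq h2).conv ?_ (by simp; omega)
  funext i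
  by_cases h0 : i = 0
  · subst h0; simp [single, hs1]
  · by_cases h2 : i = 2
    · subst h2; simp [single]
    · by_cases h1 : i = 1
      · subst h1; simp [single, hs1]
      · simp [single, *]

/-- One step: computing the word function and moving the result to register 0. -/
noncomputable def stepP (g : Γ → A) (u : A) (m t : Tm Γ) (K : ℕ) (φ : ℕ → A) : Prog A :=
  Prog.seq (outP g u m t K φ) shiftP

theorem runs_step (g : Γ → A) (hg : Function.Injective g) (u : A) (m t : Tm Γ) (K : ℕ)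
    (φ : ℕ → Δ) (g' : Δ → A) : ∃ T : ℕ → ℕ, PB T ∧ ∀ x : List Γ,
      Runs (stepP g u m t K (fun n => g' (φ n))) (single 0 (x.map g))
        (single 0 ((wf m t K φ x).map g')) (T x.length) := by
  obtain ⟨T, hT, h⟩ := runs_outP g hg u m t K (fun n => g' (φ n))
  refine ⟨fun N => T N + (4 * T N + 2), hT.add (((PB.const 4).mul hT).add (PB.const 2)),
    fun x => ?_⟩
  obtain ⟨h1, h2⟩ := h x
  have e : (List.range (m.eval x (fun _ => 0))).map
      (fun i => g' (φ (min (t.eval x (cons i (fun _ => 0))) K))) = (wf m t K φ x).map g' := by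
    simp [wf]
  rw [e] at h2
  have hlen : ((wf m t K φ x).map g').length ≤ T x.length := by simpa [wf] using h1
  refine (h2.seq (runs_shift _)).mono ?_
  change _ ≤ T x.length + (4 * T x.length + 2)
  omega

theorem runs_flag (g : Γ → A) (hg : Function.Injective g) (u : A) (c : Tm Γ) :
    ∃ T : ℕ → ℕ, PB T ∧ ∀ x : List Γ, Runs (c.comp g u (fun _ => 3) 4) (single 0 (x.map g))
      (update (single 0 (x.map g)) 4 (un u (c.eval x (fun _ => 0)))) (T x.length) := by
  obtain ⟨M, hM⟩ := exists_spec g hg u c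
  refine ⟨M, hM.pb, fun x => ?_⟩
  exact hM.run x.length x (fun _ => 0) (fun _ => 3) 4 (single 0 (x.map g)) le_rfl
    (fun _ => Nat.zero_le _)
    ⟨⟨by simp [single], by simp [single], fun _ => by omega, fun _ => by omega,
      fun _ => by simp [single]⟩, fun j hj => by
        have : j ≠ 0 := by omega
        simp [single, this]⟩

theorem runs_iter (g : Γ → A) (u : A) (F : List Γ → List Γ) (c : Tm Γ) (P : Prog A)
    (T₁ T₂ : ℕ → ℕ) (hT₁ : PB T₁) (hT₂ : PB T₂)
    (h₁ : ∀ x, Runs P (single 0 (x.map g)) (single 0 ((F x).map g)) (T₁ x.length))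
    (h₂ : ∀ x : List Γ, Runs (c.comp g u (fun _ => 3) 4) (single 0 (x.map g))
      (update (single 0 (x.map g)) 4 (un u (c.eval x (fun _ => 0)))) (T₂ x.length)) (L : ℕ) :
    ∀ (s : ℕ) (x : List Γ), (∀ i ≤ s, (F^[i] x).length ≤ L) →
      (∀ i < s, c.eval (F^[i] x) (fun _ => 0) = 1) → c.eval (F^[s] x) (fun _ => 0) = 0 →
      Runs (Prog.loop 4 (fun _ => Prog.seq P (c.comp g u (fun _ => 3) 4)))
        (update (single 0 (x.map g)) 4 (un u (c.eval x (fun _ => 0))))
        (single 0 ((F^[s] x).map g)) (s * (T₁ L + T₂ L + 1) + 1)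
  | 0, x, _, _, h0 => by
    simp only [Function.iterate_zero, id_eq] at h0 ⊢
    rw [h0]
    refine (Runs.loopNil (by simp)).conv ?_ (by simp)
    funext i
    by_cases h : i = 4
    · subst h; simp [single]
    · simp [h]
  | s + 1, x, hL, h1, h0 => by
    have hx : c.eval x (fun _ => 0) = 1 := h1 0 (by omega)
    have hl0 : x.length ≤ L := hL 0 (by omega)
    have hl1 : (F x).length ≤ L := hL 1 (by omega)
    have g1 := h₁ x
    have g2 := h₂ (F x)
    have g3 := runs_iter g u F c P T₁ T₂ hT₁ hT₂ h₁ h₂ L s (F x)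
      (fun i hi => by rw [← Function.iterate_succ_apply]; exact hL (i + 1) (by omega))
      (fun i hi => by rw [← Function.iterate_succ_apply]; exact h1 (i + 1) (by omega))
      (by rw [← Function.iterate_succ_apply]; exact h0)
    rw [← Function.iterate_succ_apply] at g3
    have e0 : update (single 0 (x.map g)) 4 (un u (c.eval x (fun _ => 0))) 4 = u :: [] := by
      rw [hx]; simp [un]
    have e1 : update (update (single 0 (x.map g)) 4 (un u (c.eval x (fun _ => 0)))) 4 [] =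
        single 0 (x.map g) := by
      funext i
      by_cases h : i = 4
      · subst h; simp [single]
      · simp [h]
    have g4 : Runs (Prog.seq P (c.comp g u (fun _ => 3) 4))
        (update (update (single 0 (x.map g)) 4 (un u (c.eval x (fun _ => 0)))) 4 [])
        (update (single 0 ((F x).map g)) 4 (un u (c.eval (F x) (fun _ => 0))))
        (T₁ x.length + T₂ (F x).length) := by
      rw [e1]; exact g1.seq g2
    refine (Runs.loopCons (p := fun _ => Prog.seq P (c.comp g u (fun _ => 3) 4)) e0 g4 g3).mono ?_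
    have := hT₁.1 hl0
    have := hT₂.1 hl1
    have : (s + 1) * (T₁ L + T₂ L + 1) = s * (T₁ L + T₂ L + 1) + (T₁ L + T₂ L + 1) := by ring
    omega

/-- **Iteration.** Compute an initial word, iterate a word function while a condition holds, and
decide from the last word. -/
theorem polyTime_iter {Γ₀ α : Type} [Fintype Γ₀] [Fintype Γ] (ea : α → List Γ₀)
    (m₀ t₀ : Tm Γ₀) (K₀ : ℕ) (φ₀ : ℕ → Γ) (m₁ t₁ : Tm Γ) (K₁ : ℕ) (φ₁ : ℕ → Γ)
    (c : Tm Γ) (hc : ∀ x, c.eval x (fun _ => 0) ≤ 1) {R : List Γ → Prop}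
    (hR : UP (fun x _ => R x)) (f : α → Bool) (S L : ℕ → ℕ) (hS : PB S) (hL : PB L)
    (hrun : ∀ a, ∃ s ≤ S (ea a).length,
      (∀ i < s, c.eval ((wf m₁ t₁ K₁ φ₁)^[i] (wf m₀ t₀ K₀ φ₀ (ea a))) (fun _ => 0) ≠ 0) ∧
      c.eval ((wf m₁ t₁ K₁ φ₁)^[s] (wf m₀ t₀ K₀ φ₀ (ea a))) (fun _ => 0) = 0 ∧
      (∀ i ≤ s, ((wf m₁ t₁ K₁ φ₁)^[i] (wf m₀ t₀ K₀ φ₀ (ea a))).length ≤ L (ea a).length) ∧
      (f a = true ↔ R ((wf m₁ t₁ K₁ φ₁)^[s] (wf m₀ t₀ K₀ φ₀ (ea a))))) :
    Nonempty (TM2ComputableInPolyTime ea encodeBool f) := by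
  classical
  obtain ⟨r, hr⟩ := hR
  let AA : Type := Γ₀ ⊕ (Γ ⊕ Bool)
  let g₀ : Γ₀ → AA := Sum.inl
  let g : Γ → AA := fun x => Sum.inr (Sum.inl x)
  let gb : Bool → AA := fun x => Sum.inr (Sum.inr x)
  have hg₀ : Function.Injective g₀ := Sum.inl_injective
  have hg : Function.Injective g := fun a b h => Sum.inl_injective (Sum.inr_injective h)
  let u : AA := gb true
  obtain ⟨T₀, hT₀, h₀⟩ := runs_step g₀ hg₀ u m₀ t₀ K₀ φ₀ g
  obtain ⟨T₁, hT₁, h₁⟩ := runs_step g hg u m₁ t₁ K₁ φ₁ g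
  obtain ⟨T₂, hT₂, h₂⟩ := runs_flag g hg u c
  obtain ⟨T₃, hT₃, h₃⟩ := runs_outP g hg u (Tm.const 1) r 1 (fun v => gb (decide (v ≠ 0)))
  set F := wf m₁ t₁ K₁ φ₁ with hF
  let prog : Prog AA := Prog.seq (stepP g₀ u m₀ t₀ K₀ (fun n => g (φ₀ n)))
    (Prog.seq (c.comp g u (fun _ => 3) 4)
      (Prog.seq (Prog.loop 4 (fun _ => Prog.seq (stepP g u m₁ t₁ K₁ (fun n => g (φ₁ n)))
        (c.comp g u (fun _ => 3) 4)))
      (outP g u (Tm.const 1) r 1 (fun v => gb (decide (v ≠ 0))))))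
  let B : ℕ → ℕ := fun N => T₀ N + (T₂ (L N) + ((S N * (T₁ (L N) + T₂ (L N) + 1) + 1) +
    T₃ (L N)))
  have hB : PB B := hT₀.add ((hT₂.comp hL).add (((hS.mul (((hT₁.comp hL).add
    (hT₂.comp hL)).add (PB.const 1))).add (PB.const 1)).add (hT₃.comp hL)))
  obtain ⟨P, hP⟩ := hB.toPoly
  let d : AA → Bool := Sum.elim (fun _ => true) (Sum.elim (fun _ => true) id)
  refine polyTime_of_prog ea encodeBool f prog g₀ d u
    (fun a => [gb (f a)]) (fun a => by simp [d, gb, encodeBool]) P 1 (fun a => by simp)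
    (fun a => ?_)
  obtain ⟨s, hs, hs1, hs0, hsL, hfin⟩ := hrun a
  set x := wf m₀ t₀ K₀ φ₀ (ea a) with hx
  have hone : ∀ i < s, c.eval (F^[i] x) (fun _ => 0) = 1 := fun i hi => by
    have := hc (F^[i] x)
    have := hs1 i hi
    omega
  have g0 := h₀ (ea a)
  have g2 := h₂ x
  have g3 := runs_iter g u F c _ T₁ T₂ hT₁ hT₂ h₁ h₂ (L (ea a).length) s x hsL hone hs0
  have g4 := (h₃ (F^[s] x)).2
  have e1 : (Tm.const 1 : Tm Γ).eval (F^[s] x) (fun _ => 0) = 1 := rfl
  rw [e1] at g4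
  have e2 : (List.range 1).map (fun i => (fun v => gb (decide (v ≠ 0)))
      (min (r.eval (F^[s] x) (cons i (fun _ => 0))) 1)) = [gb (f a)] := by
    have h5 : r.eval (F^[s] x) (cons 0 (fun _ => 0)) = if R (F^[s] x) then 1 else 0 := hr _ _
    simp only [List.range_one, List.map_cons, List.map_nil, h5]
    by_cases h6 : R (F^[s] x)
    · rw [if_pos h6, hfin.2 h6]; simp
    · have h7 : f a = false := by
        rw [← Bool.not_eq_true]; exact fun h => h6 (hfin.1 h)
      rw [if_neg h6, h7]; simp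
  rw [e2] at g4
  refine (g0.seq (g2.seq (g3.seq g4))).mono (le_trans ?_ (hP _))
  have i1 : T₂ x.length ≤ T₂ (L (ea a).length) := hT₂.1 (hsL 0 (by omega))
  have i2 : T₃ (F^[s] x).length ≤ T₃ (L (ea a).length) := hT₃.1 (hsL s le_rfl)
  have i3 : s * (T₁ (L (ea a).length) + T₂ (L (ea a).length) + 1) ≤
      S (ea a).length * (T₁ (L (ea a).length) + T₂ (L (ea a).length) + 1) :=
    Nat.mul_le_mul_right _ hs
  simp only [B]
  omega

/-- Letters described by predicates are described by terms. -/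
theorem exists_letter [Fintype Δ] {G : List Γ → ℕ → Δ}
    (hG : ∀ a : Δ, UP (fun x e => G x (e 0) = a)) : ∃ (t : Tm Γ) (K : ℕ) (φ : ℕ → Δ),
      ∀ x i, φ (min (t.eval x (cons i (fun _ => 0))) K) = G x i := by
  classical
  rcases isEmpty_or_nonempty Δ with hE | hN
  · exact ⟨Tm.const 0, 0, fun _ => (hE.false (G [] 0)).elim, fun x i => (hE.false (G x i)).elim⟩
  let en : Δ ≃ Fin (Fintype.card Δ) := Fintype.equivFin Δ
  have h1 : UF (fun x e => ∑ a ∈ (Finset.univ : Finset Δ),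
      ((en a : ℕ) * (if G x (e 0) = a then 1 else 0))) := by
    refine UF.fsum (F := fun a x e => (en a : ℕ) * (if G x (e 0) = a then 1 else 0)) _
      (fun a _ => (UF.const (en a : ℕ)).mul (UF.congr (hG a) fun x e => ?_))
    congr
  obtain ⟨t, ht⟩ := h1
  refine ⟨t, Fintype.card Δ, fun n => if h : n < Fintype.card Δ then en.symm ⟨n, h⟩ else
    Classical.arbitrary Δ, fun x i => ?_⟩
  have h2 : t.eval x (cons i (fun _ => 0)) = (en (G x i) : ℕ) := by
    rw [ht]
    simp only [cons_zero]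
    rw [Finset.sum_eq_single (G x i)]
    · simp
    · intro b _ hb
      have h : ¬ G x i = b := Ne.symm hb
      rw [mul_eq_zero]
      right
      exact if_neg h
    · intro h; exact absurd (Finset.mem_univ _) h
  have h3 := (en (G x i)).2
  rw [h2, min_eq_left h3.le]
  simp only [dif_pos h3]
  simp

/-- Iteration, with functions and predicates in the classes `UF` and `UP`. -/
theorem polyTime_iterate {Γ₀ α : Type} [Fintype Γ₀] [Fintype Γ] (ea : α → List Γ₀)
    {M₀ : List Γ₀ → ℕ} {G₀ : List Γ₀ → ℕ → Γ} (hM₀ : UF (fun x _ => M₀ x))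
    (hG₀ : ∀ a : Γ, UP (fun x e => G₀ x (e 0) = a))
    {M₁ : List Γ → ℕ} {G₁ : List Γ → ℕ → Γ} (hM₁ : UF (fun x _ => M₁ x))
    (hG₁ : ∀ a : Γ, UP (fun x e => G₁ x (e 0) = a))
    {Q R : List Γ → Prop} (hQ : UP (fun x _ => Q x)) (hR : UP (fun x _ => R x)) (f : α → Bool)
    (F₀ : List Γ₀ → List Γ) (hF₀ : ∀ x, F₀ x = (List.range (M₀ x)).map (G₀ x))
    (F₁ : List Γ → List Γ) (hF₁ : ∀ x, F₁ x = (List.range (M₁ x)).map (G₁ x))
    (S L : ℕ → ℕ) (hS : PB S) (hL : PB L)
    (hrun : ∀ a, ∃ s ≤ S (ea a).length, (∀ i < s, Q (F₁^[i] (F₀ (ea a)))) ∧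
      ¬ Q (F₁^[s] (F₀ (ea a))) ∧ (∀ i ≤ s, (F₁^[i] (F₀ (ea a))).length ≤ L (ea a).length) ∧
      (f a = true ↔ R (F₁^[s] (F₀ (ea a))))) :
    Nonempty (TM2ComputableInPolyTime ea encodeBool f) := by
  classical
  obtain ⟨m₀, hm₀⟩ := hM₀
  obtain ⟨m₁, hm₁⟩ := hM₁
  obtain ⟨t₀, K₀, φ₀, h₀⟩ := exists_letter hG₀
  obtain ⟨t₁, K₁, φ₁, h₁⟩ := exists_letter hG₁
  obtain ⟨c, hc⟩ := hQ
  have e₀ : wf m₀ t₀ K₀ φ₀ = F₀ := by
    funext x
    rw [hF₀, wf, hm₀]
    exact List.map_congr_left fun i _ => h₀ x i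
  have e₁ : wf m₁ t₁ K₁ φ₁ = F₁ := by
    funext x
    rw [hF₁, wf, hm₁]
    exact List.map_congr_left fun i _ => h₁ x i
  have hcv : ∀ x, c.eval x (fun _ => 0) = if Q x then 1 else 0 := fun x => hc x _
  refine polyTime_iter ea m₀ t₀ K₀ φ₀ m₁ t₁ K₁ φ₁ c (fun x => by rw [hcv]; split_ifs <;> omega)
    hR f S L hS hL fun a => ?_
  rw [e₀, e₁]
  obtain ⟨s, g1, g2, g3, g4, g5⟩ := hrun a
  refine ⟨s, g1, fun i hi => ?_, ?_, g4, g5⟩
  · rw [hcv, if_pos (g2 i hi)]; norm_num
  · rw [hcv, if_neg g3]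

end Pool.Agent.B7219d
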