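import Mathlib

/-!
# A certificate checker for finite forbidden-configuration arguments in graphs

States are partially known graphs on `0, …, n-1`, `n ≤ 32`; for `j < i` the bit `32 * i + j` of `E`
(of `N`) says that `i` and `j` are known to be adjacent (non-adjacent).
-/

set_option autoImplicit false

namespace Pool.Agent.B7219d

/-- Test a bit. -/
def tb (m i : ℕ) : Bool := Nat.beq (Nat.land 1 (Nat.shiftRight m i)) 1

theorem tb_eq (m i : ℕ) : tb m i = m.testBit i := by
  unfold tb Nat.testBit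
  change Nat.beq (1 &&& (m >>> i)) 1 = (1 &&& (m >>> i) != 0)
  rw [Nat.one_and_eq_mod_two]
  rcases Nat.mod_two_eq_zero_or_one (m >>> i) with h | h <;> rw [h] <;> rfl

/-- The key of a pair. -/
def key (i j : ℕ) : ℕ := bif Nat.blt j i then 32 * i + j else 32 * j + i

/-- The bit of a pair. -/
def hs (M i j : ℕ) : Bool := tb M (key i j)

/-- Set the bit of a pair. -/
def ad (M i j : ℕ) : ℕ := Nat.lor M (Nat.shiftLeft 1 (key i j))

/-- Set a bit. -/
def sb (M i : ℕ) : ℕ := Nat.lor M (Nat.shiftLeft 1 i)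

theorem tb_sb (M i j : ℕ) : tb (sb M i) j = (tb M j || decide (i = j)) := by
  rw [tb_eq, tb_eq]
  change (M ||| (1 <<< i)).testBit j = _
  rw [Nat.testBit_or, Nat.one_shiftLeft, Nat.testBit_two_pow]

theorem tb_ad (M i j k : ℕ) : tb (ad M i j) k = (tb M k || decide (key i j = k)) := tb_sb M _ k

theorem tb_zero (j : ℕ) : tb 0 j = false := by rw [tb_eq]; simp

theorem key_comm (i j : ℕ) : key i j = key j i := by
  unfold key
  rcases lt_trichotomy i j with h | h | h
  · have h1 : Nat.blt j i = false := by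
      rw [← Bool.not_eq_true, Nat.blt_eq]; omega
    have h2 : Nat.blt i j = true := by rw [Nat.blt_eq]; omega
    rw [h1, h2]; rfl
  · subst h; rfl
  · have h1 : Nat.blt j i = true := by rw [Nat.blt_eq]; omega
    have h2 : Nat.blt i j = false := by
      rw [← Bool.not_eq_true, Nat.blt_eq]; omega
    rw [h1, h2]; rfl

theorem key_of_lt {i j : ℕ} (h : j < i) : key i j = 32 * i + j := by
  unfold key
  rw [show Nat.blt j i = true by rw [Nat.blt_eq]; omega]; rfl

/-- All numbers below. -/
def all (p : ℕ → Bool) : ℕ → Bool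
  | 0 => true
  | n + 1 => p n && all p n

theorem all_iff (p : ℕ → Bool) : ∀ n, all p n = true ↔ ∀ i < n, p i = true
  | 0 => by simp [all]
  | n + 1 => by
    simp only [all, Bool.and_eq_true, all_iff p n]
    constructor
    · rintro ⟨h1, h2⟩ i hi
      rcases Nat.lt_succ_iff_lt_or_eq.1 hi with h | h
      · exact h2 i h
      · subst h; exact h1
    · intro h
      exact ⟨h n (by omega), fun i hi => h i (by omega)⟩

variable {V : Type*}

/-- The vertices `f 0, …, f (n-1)` are distinct and satisfy the known adjacencies and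
non-adjacencies. -/
structure Sat (G : SimpleGraph V) (f : ℕ → V) (n E N : ℕ) : Prop where
  inj : ∀ i < n, ∀ j < i, f i ≠ f j
  adj : ∀ i < n, ∀ j < i, tb E (32 * i + j) = true → G.Adj (f i) (f j)
  nadj : ∀ i < n, ∀ j < i, tb N (32 * i + j) = true → ¬ G.Adj (f i) (f j)

/-- The partially known graph occurs in `G`. -/
def Occ (G : SimpleGraph V) (p : ℕ × ℕ × ℕ) : Prop := ∃ f : ℕ → V, Sat G f p.1 p.2.1 p.2.2

theorem Sat.ne {G : SimpleGraph V} {f : ℕ → V} {n E N : ℕ} (h : Sat G f n E N) {i j : ℕ}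
    (hi : i < n) (hj : j < n) (hij : i ≠ j) : f i ≠ f j := by
  rcases lt_or_gt_of_ne hij with h1 | h1
  · exact (h.inj j hj i h1).symm
  · exact h.inj i hi j h1

theorem Sat.hsE {G : SimpleGraph V} {f : ℕ → V} {n E N : ℕ} (h : Sat G f n E N) {i j : ℕ}
    (hi : i < n) (hj : j < n) (hij : i ≠ j) (hb : hs E i j = true) : G.Adj (f i) (f j) := by
  unfold hs at hb
  rcases lt_or_gt_of_ne hij with h1 | h1
  · rw [key_comm, key_of_lt h1] at hb
    exact (h.adj j hj i h1 hb).symm
  · rw [key_of_lt h1] at hb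
    exact h.adj i hi j h1 hb

theorem Sat.hsN {G : SimpleGraph V} {f : ℕ → V} {n E N : ℕ} (h : Sat G f n E N) {i j : ℕ}
    (hi : i < n) (hj : j < n) (hij : i ≠ j) (hb : hs N i j = true) : ¬ G.Adj (f i) (f j) := by
  unfold hs at hb
  rcases lt_or_gt_of_ne hij with h1 | h1
  · rw [key_comm, key_of_lt h1] at hb
    exact fun h2 => h.nadj j hj i h1 hb h2.symm
  · rw [key_of_lt h1] at hb
    exact h.nadj i hi j h1 hb

theorem key_cases {i j a b : ℕ} (hi : i < 32) (hj : j < 32) (_ha : a < 32) (hb : b < a)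
    (h : key i j = 32 * a + b) : (i = a ∧ j = b) ∨ (i = b ∧ j = a) := by
  rcases lt_or_ge j i with h1 | h1
  · rw [key_of_lt h1] at h; left; omega
  · rcases Nat.eq_or_lt_of_le h1 with h2 | h2
    · subst h2
      unfold key at h
      rw [show Nat.blt i i = false by rw [← Bool.not_eq_true, Nat.blt_eq]; omega] at h
      simp only [cond_false] at h
      omega
    · rw [key_comm, key_of_lt h2] at h; right; omega

theorem Sat.adE {G : SimpleGraph V} {f : ℕ → V} {n E N : ℕ} (h : Sat G f n E N) (hn : n ≤ 32)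
    {i j : ℕ} (hi : i < n) (hj : j < n) (ha : G.Adj (f i) (f j)) : Sat G f n (ad E i j) N := by
  refine ⟨h.inj, fun a haa b hb hab => ?_, h.nadj⟩
  rw [tb_ad, Bool.or_eq_true, decide_eq_true_eq] at hab
  rcases hab with hab | hab
  · exact h.adj a haa b hb hab
  · rcases key_cases (by omega) (by omega) (by omega) hb hab with ⟨rfl, rfl⟩ | ⟨rfl, rfl⟩
    · exact ha
    · exact ha.symm

theorem Sat.adN {G : SimpleGraph V} {f : ℕ → V} {n E N : ℕ} (h : Sat G f n E N) (hn : n ≤ 32)
    {i j : ℕ} (hi : i < n) (hj : j < n) (ha : ¬ G.Adj (f i) (f j)) : Sat G f n E (ad N i j) := by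
  refine ⟨h.inj, h.adj, fun a haa b hb hab => ?_⟩
  rw [tb_ad, Bool.or_eq_true, decide_eq_true_eq] at hab
  rcases hab with hab | hab
  · exact h.nadj a haa b hb hab
  · rcases key_cases (by omega) (by omega) (by omega) hb hab with ⟨rfl, rfl⟩ | ⟨rfl, rfl⟩
    · exact ha
    · exact fun h => ha h.symm

/-- No bits at position at least `32 * n`. -/
def small (n E N : ℕ) : Bool :=
  Nat.beq (Nat.shiftRight E (32 * n)) 0 && Nat.beq (Nat.shiftRight N (32 * n)) 0

theorem small_spec {n E N : ℕ} (h : small n E N = true) (i j : ℕ) (hi : n ≤ i) :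
    tb E (32 * i + j) = false ∧ tb N (32 * i + j) = false := by
  simp only [small, Bool.and_eq_true, Nat.beq_eq] at h
  obtain ⟨h1, h2⟩ := h
  have key : ∀ M : ℕ, Nat.shiftRight M (32 * n) = 0 → tb M (32 * i + j) = false := by
    intro M hM
    rw [tb_eq]
    have h3 : (M >>> (32 * n)).testBit (32 * (i - n) + j) = M.testBit (32 * n + (32 * (i - n) + j)) :=
      Nat.testBit_shiftRight ..
    have h4 : 32 * n + (32 * (i - n) + j) = 32 * i + j := by omega
    rw [h4] at h3
    rw [← h3]
    change (Nat.shiftRight M (32 * n)).testBit _ = false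
    rw [hM]; simp
  exact ⟨key E h1, key N h2⟩

theorem Sat.ext {G : SimpleGraph V} {f : ℕ → V} {n E N : ℕ} (h : Sat G f n E N)
    (hs : small n E N = true) {w : V} (hw : ∀ i < n, w ≠ f i) :
    Sat G (Function.update f n w) (n + 1) E N := by
  have hlt : ∀ i < n, Function.update f n w i = f i := fun i hi =>
    Function.update_of_ne (by omega) _ _
  refine ⟨fun i hi j hj => ?_, fun i hi j hj hb => ?_, fun i hi j hj hb => ?_⟩
  · rcases Nat.lt_succ_iff_lt_or_eq.1 hi with h1 | h1
    · rw [hlt i h1, hlt j (by omega)]; exact h.inj i h1 j hj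
    · subst h1; rw [Function.update_self, hlt j hj]; exact hw j hj
  · rcases Nat.lt_succ_iff_lt_or_eq.1 hi with h1 | h1
    · rw [hlt i h1, hlt j (by omega)]; exact h.adj i h1 j hj hb
    · subst h1
      rw [(small_spec hs i j le_rfl).1] at hb
      exact absurd hb (by simp)
  · rcases Nat.lt_succ_iff_lt_or_eq.1 hi with h1 | h1
    · rw [hlt i h1, hlt j (by omega)]; exact h.nadj i h1 j hj hb
    · subst h1
      rw [(small_spec hs i j le_rfl).2] at hb
      exact absurd hb (by simp)

/-- Certificate trees. -/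
inductive T : Type
  /-- pattern `k` occurs via the map packed in `img` -/
  | L (k img : ℕ) : T
  /-- case distinction on the adjacency of `i` and `j` -/
  | S (i j : ℕ) (t₁ t₀ : T) : T
  /-- a new vertex adjacent to `u` and not to `v` -/
  | C (u v : ℕ) (t : T) : T
  /-- a new vertex adjacent to `u`, different from `a` and `b` -/
  | D (u a b : ℕ) (t : T) : T
  /-- a new vertex adjacent to some known vertex; `col` is a 3-colouring of the known vertices -/
  | O (col : ℕ) (t : T) : T
  /-- the vertex added by `O` has no neighbour -/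
  | Z : T
  /-- a 5-cycle anticomplete to `x` -/
  | A (x : ℕ) (t : T) : T
  /-- the first vertex of the 5-cycle is the known vertex `i`, or `i` is not on the cycle -/
  | K0 (i : ℕ) (t₁ t₀ : T) : T
  /-- the first vertex of the 5-cycle is new and adjacent to `j`, or no vertex of it is -/
  | N0 (j : ℕ) (t₁ t₀ : T) : T
  /-- the next vertex of the 5-cycle is the known vertex `i`, or not -/
  | K (i : ℕ) (t₁ t₀ : T) : T
  /-- the next vertex of the 5-cycle is new -/
  | W (t : T) : T

/-- Modes: nothing pending, or a partially determined 5-cycle anticomplete to `x` without vertices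
in `ex` and anticomplete to `an`, with first vertices `ps` (reversed) and next vertex not in
`exk`. -/
inductive Md : Type
  | main : Md
  | pk (x ex an exk : ℕ) (ps : List ℕ) : Md

/-- Digit `a` in base 32. -/
def dg (img a : ℕ) : ℕ := Nat.land (Nat.shiftRight img (5 * a)) 31

/-- The pattern `p` is seen in the state via `img`. -/
def conf (p : ℕ × ℕ × ℕ) (n E N img : ℕ) : Bool :=
  all (fun a => Nat.blt (dg img a) n && all (fun b =>
    (!(Nat.beq (dg img a) (dg img b))) &&
    ((!(tb p.2.1 (32 * a + b))) || hs E (dg img a) (dg img b)) &&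
    ((!(tb p.2.2 (32 * a + b))) || hs N (dg img a) (dg img b))) a) p.1

theorem conf_sound {G : SimpleGraph V} {f : ℕ → V} {n E N : ℕ} (h : Sat G f n E N)
    {p : ℕ × ℕ × ℕ} {img : ℕ} (hc : conf p n E N img = true) : Occ G p := by
  simp only [conf, all_iff, Bool.and_eq_true, Nat.blt_eq, Bool.not_eq_true', Bool.or_eq_true] at hc
  have hne : ∀ a < p.1, ∀ b < a, dg img a ≠ dg img b := fun a ha b hb hab => by
    have := ((hc a ha).2 b hb).1.1
    rw [hab, Nat.beq_refl] at this
    exact absurd this (by simp)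
  refine ⟨fun a => f (dg img a), fun a ha b hb => ?_, fun a ha b hb hab => ?_,
    fun a ha b hb hab => ?_⟩
  · exact h.ne (hc a ha).1 (hc b (by omega)).1 (hne a ha b hb)
  · rcases ((hc a ha).2 b hb).1.2 with h1 | h1
    · rw [hab] at h1; exact absurd h1 (by simp)
    · exact h.hsE (hc a ha).1 (hc b (by omega)).1 (hne a ha b hb) h1
  · rcases ((hc a ha).2 b hb).2 with h1 | h1
    · rw [hab] at h1; exact absurd h1 (by simp)
    · exact h.hsN (hc a ha).1 (hc b (by omega)).1 (hne a ha b hb) h1

/-- Lookup. -/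
def nth : List (ℕ × ℕ × ℕ) → ℕ → Option (ℕ × ℕ × ℕ)
  | [], _ => none
  | p :: _, 0 => some p
  | _ :: l, k + 1 => nth l k

theorem nth_mem : ∀ (l : List (ℕ × ℕ × ℕ)) (k : ℕ) (p : ℕ × ℕ × ℕ), nth l k = some p → p ∈ l
  | [], _, _, h => by simp [nth] at h
  | q :: _, 0, p, h => by simp only [nth, Option.some.injEq] at h; simp [h]
  | _ :: l, k + 1, p, h => List.mem_cons_of_mem _ (nth_mem l k p h)

/-- Adjacency of the vertices `k` and `l < k` of the 5-cycle. -/
def adjp (k l : ℕ) : Bool := Nat.beq k (l + 1) || (Nat.beq k 4 && Nat.beq l 0)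

/-- Update of the known edges when `v` is vertex `k` of the cycle. -/
def updE (v k : ℕ) : List ℕ → ℕ → ℕ
  | [], E => E
  | p :: ps, E => updE v k ps (bif adjp k ps.length then ad E v p else E)

/-- Update of the known non-edges when `v` is vertex `k` of the cycle. -/
def updN (v k : ℕ) : List ℕ → ℕ → ℕ
  | [], N => N
  | p :: ps, N => updN v k ps (bif adjp k ps.length then N else ad N v p)

/-- Update of the known non-edges for the vertices in `an`. -/
def anN (v an : ℕ) : ℕ → ℕ → ℕ
  | 0, N => N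
  | m + 1, N => anN v an m (bif tb an m then ad N v m else N)

/-- The known vertex `i` cannot be vertex `k` of the cycle. -/
def excl (E N i k : ℕ) : List ℕ → Bool
  | [] => false
  | p :: ps => Nat.beq i p || ((bif adjp k ps.length then hs N i p else hs E i p) ||
      excl E N i k ps)

/-- The next mode. -/
def next (x ex an v : ℕ) (ps : List ℕ) : Md :=
  bif Nat.beq ps.length 4 then .main else .pk x ex an 0 (v :: ps)

/-- The next vertex of the cycle is not a known vertex. -/
def fresh (n E N x ex exk : ℕ) (ps : List ℕ) : Bool :=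
  all (fun i => tb ex i || (tb exk i || (Nat.beq i x || (hs E x i || excl E N i ps.length ps)))) n

/-- The checker. -/
def chk (P : List (ℕ × ℕ × ℕ)) (cr ac : Bool) : T → ℕ → ℕ → ℕ → ℕ → Md → Bool
  | .L k img, n, E, N, _, _ =>
    match nth P k with
    | none => false
    | some p => conf p n E N img
  | .S i j t₁ t₀, n, E, N, o, md => Nat.blt i n && (Nat.blt j i &&
      (chk P cr ac t₁ n (sb E (32 * i + j)) N o md && chk P cr ac t₀ n E (sb N (32 * i + j)) o md))
  | .C u v t, n, E, N, o, .main => cr && (Nat.blt n 32 && (small n E N && (Nat.blt u n &&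
      (Nat.blt v n && (!(Nat.beq u v) &&
      (all (fun i => Nat.beq i u || (hs N u i || (!(Nat.beq i v) && hs E v i))) n &&
        chk P cr ac t (n + 1) (ad E n u) (ad N n v) o .main))))))
  | .D u a b t, n, E, N, o, .main => cr && (Nat.blt n 32 && (small n E N && (Nat.blt u n &&
      (Nat.blt a n && (Nat.blt b n &&
      (all (fun i => Nat.beq i u || (Nat.beq i a || (Nat.beq i b || hs N u i))) n &&
        chk P cr ac t (n + 1) (ad E n u) N o .main))))))
  | .O col t, n, E, N, o, .main => cr && (Nat.blt n 32 && (small n E N && (Nat.beq o 0 &&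
      (Nat.blt 0 n && (all (fun i => !(Nat.beq (dg col i) 3) && Nat.ble (dg col i) 3 &&
        all (fun j => hs N i j || !(Nat.beq (dg col i) (dg col j))) i) n &&
        chk P cr ac t (n + 1) E N n .main)))))
  | .Z, n, _, N, o, _ => Nat.blt 0 o && (Nat.blt o n && all (fun i => hs N o i) o)
  | .A x t, n, E, N, o, .main => ac && (Nat.blt x n && chk P cr ac t n E N o (.pk x 0 0 0 []))
  | .K0 i t₁ t₀, n, E, N, o, .pk x ex an _ [] => Nat.blt i n &&
      (chk P cr ac t₁ n E (ad N i x) o (.pk x ex an 0 [i]) &&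
        chk P cr ac t₀ n E N o (.pk x (sb ex i) an 0 []))
  | .N0 j t₁ t₀, n, E, N, o, .pk x ex an _ [] => Nat.blt j n && (Nat.blt n 32 && (small n E N &&
      (!(tb ex n) && (!(tb an n) && (fresh n E N x ex 0 [] &&
      (chk P cr ac t₁ (n + 1) (ad E n j) (anN n an n (ad N n x)) o (.pk x ex an 0 [n]) &&
        chk P cr ac t₀ n E N o (.pk x ex (sb an j) 0 [])))))))
  | .K i t₁ t₀, n, E, N, o, .pk x ex an exk ps => Nat.blt i n &&
      (chk P cr ac t₁ n (updE i ps.length ps E) (updN i ps.length ps (ad N i x)) o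
        (next x ex an i ps) &&
        chk P cr ac t₀ n E N o (.pk x ex an (sb exk i) ps))
  | .W t, n, E, N, o, .pk x ex an exk ps => Nat.blt n 32 && (small n E N &&
      (!(tb ex n) && (!(tb an n) && (fresh n E N x ex exk ps &&
        chk P cr ac t (n + 1) (updE n ps.length ps E)
          (updN n ps.length ps (anN n an n (ad N n x))) o (next x ex an n ps)))))
  | _, _, _, _, _, _ => false

/-- A 5-cycle without chords, anticomplete to `y`. -/
structure IsC (G : SimpleGraph V) (y : V) (c : ℕ → V) : Prop where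
  adj : ∀ l < 5, G.Adj (c l) (c ((l + 1) % 5))
  nadj : ∀ l < 5, ¬ G.Adj (c l) (c ((l + 2) % 5))
  ne : ∀ l < 5, c l ≠ y
  anti : ∀ l < 5, ¬ G.Adj y (c l)

/-- The closure rules. -/
structure Rules (G : SimpleGraph V) : Prop where
  comp : ∀ u v : V, u ≠ v → ∃ w, G.Adj u w ∧ ¬ G.Adj v w
  deg : ∀ u a b : V, ∃ w, G.Adj u w ∧ w ≠ a ∧ w ≠ b
  out : ∀ (S : Set V) (c : V → ℕ), S.Nonempty → (∀ v ∈ S, c v < 3) →
    (∀ a ∈ S, ∀ b ∈ S, G.Adj a b → c a ≠ c b) → ∃ w, w ∉ S ∧ ∃ a ∈ S, G.Adj w a

/-- Every vertex is anticomplete to a 5-cycle. -/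
def AC (G : SimpleGraph V) : Prop := ∀ x, ∃ c : ℕ → V, IsC G x c

/-- The vertices of the cycle already determined. -/
def Mt (c f : ℕ → V) (n : ℕ) : List ℕ → Prop
  | [] => True
  | p :: ps => p < n ∧ c ps.length = f p ∧ Mt c f n ps

/-- The meaning of modes. -/
def MdH (G : SimpleGraph V) (f : ℕ → V) (n : ℕ) : Md → Prop
  | .main => True
  | .pk x ex an exk ps => x < n ∧ ps.length < 5 ∧ ∃ c, IsC G (f x) c ∧
      (∀ l < 5, ∀ i < n, tb ex i = true → c l ≠ f i) ∧
      (∀ l < 5, ∀ i < n, tb an i = true → ¬ G.Adj (c l) (f i)) ∧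
      (∀ i < n, tb exk i = true → c ps.length ≠ f i) ∧ Mt c f n ps

theorem IsC.rot {G : SimpleGraph V} {y : V} {c : ℕ → V} (h : IsC G y c) (s : ℕ) :
    IsC G y (fun l => c ((l + s) % 5)) := by
  refine ⟨fun l _ => ?_, fun l _ => ?_, fun l _ => h.ne _ (Nat.mod_lt _ (by norm_num)),
    fun l _ => h.anti _ (Nat.mod_lt _ (by norm_num))⟩
  · have := h.adj ((l + s) % 5) (Nat.mod_lt _ (by norm_num))
    have e : ((l + s) % 5 + 1) % 5 = ((l + 1) % 5 + s) % 5 := by omega
    rwa [e] at this
  · have := h.nadj ((l + s) % 5) (Nat.mod_lt _ (by norm_num))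
    have e : ((l + s) % 5 + 2) % 5 = ((l + 2) % 5 + s) % 5 := by omega
    rwa [e] at this

theorem IsC.pair {G : SimpleGraph V} {y : V} {c : ℕ → V} (h : IsC G y c) {k l : ℕ} (hk : k < 5)
    (hl : l < k) : c k ≠ c l ∧ (adjp k l = true → G.Adj (c k) (c l)) ∧
      (adjp k l = false → ¬ G.Adj (c k) (c l)) := by
  have a0 : G.Adj (c 0) (c 1) := h.adj 0 (by norm_num)
  have a1 : G.Adj (c 1) (c 2) := h.adj 1 (by norm_num)
  have a2 : G.Adj (c 2) (c 3) := h.adj 2 (by norm_num)
  have a3 : G.Adj (c 3) (c 4) := h.adj 3 (by norm_num)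
  have a4 : G.Adj (c 4) (c 0) := h.adj 4 (by norm_num)
  have b0 : ¬ G.Adj (c 0) (c 2) := h.nadj 0 (by norm_num)
  have b1 : ¬ G.Adj (c 1) (c 3) := h.nadj 1 (by norm_num)
  have b2 : ¬ G.Adj (c 2) (c 4) := h.nadj 2 (by norm_num)
  have b3 : ¬ G.Adj (c 3) (c 0) := h.nadj 3 (by norm_num)
  have b4 : ¬ G.Adj (c 4) (c 1) := h.nadj 4 (by norm_num)
  have n20 : c 2 ≠ c 0 := fun e => b2 (e ▸ a4.symm)
  have n31 : c 3 ≠ c 1 := fun e => b3 (e ▸ a0.symm)
  have n42 : c 4 ≠ c 2 := fun e => b4 (e ▸ a1.symm)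
  have n30 : c 3 ≠ c 0 := fun e => b1 (e ▸ a0.symm)
  have n41 : c 4 ≠ c 1 := fun e => b2 (e ▸ a1.symm)
  interval_cases k
  · omega
  · interval_cases l
    exact ⟨a0.ne', fun _ => a0.symm, fun h => absurd h (by decide)⟩
  · interval_cases l
    · exact ⟨n20, fun h => absurd h (by decide), fun _ e => b0 e.symm⟩
    · exact ⟨a1.ne', fun _ => a1.symm, fun h => absurd h (by decide)⟩
  · interval_cases l
    · exact ⟨n30, fun h => absurd h (by decide), fun _ => b3⟩
    · exact ⟨n31, fun h => absurd h (by decide), fun _ e => b1 e.symm⟩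
    · exact ⟨a2.ne', fun _ => a2.symm, fun h => absurd h (by decide)⟩
  · interval_cases l
    · exact ⟨a4.ne, fun _ => a4, fun h => absurd h (by decide)⟩
    · exact ⟨n41, fun h => absurd h (by decide), fun _ => b4⟩
    · exact ⟨n42, fun h => absurd h (by decide), fun _ e => b2 e.symm⟩
    · exact ⟨a3.ne', fun _ => a3.symm, fun h => absurd h (by decide)⟩

theorem Mt.updE {G : SimpleGraph V} {f c : ℕ → V} {n N : ℕ} {y : V} (hc : IsC G y c)
    (hn : n ≤ 32) {v k : ℕ} (hv : v < n) (hk : k < 5) (hck : c k = f v) :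
    ∀ (ps : List ℕ) (E : ℕ), ps.length ≤ k → Mt c f n ps → Sat G f n E N →
      Sat G f n (updE v k ps E) N
  | [], E, _, _, h => h
  | p :: ps, E, hl, hm, h => by
    obtain ⟨hp, hcp, hm⟩ := hm
    simp only [List.length_cons] at hl
    simp only [B7219d.updE]
    refine Mt.updE hc hn hv hk hck ps _ (by omega) hm ?_
    rcases ha : adjp k ps.length with _ | _
    · exact h
    · refine h.adE hn hv hp ?_
      rw [← hck, ← hcp]
      exact (hc.pair hk (by omega)).2.1 ha

theorem Mt.updN {G : SimpleGraph V} {f c : ℕ → V} {n E : ℕ} {y : V} (hc : IsC G y c)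
    (hn : n ≤ 32) {v k : ℕ} (hv : v < n) (hk : k < 5) (hck : c k = f v) :
    ∀ (ps : List ℕ) (N : ℕ), ps.length ≤ k → Mt c f n ps → Sat G f n E N →
      Sat G f n E (updN v k ps N)
  | [], N, _, _, h => h
  | p :: ps, N, hl, hm, h => by
    obtain ⟨hp, hcp, hm⟩ := hm
    simp only [List.length_cons] at hl
    simp only [B7219d.updN]
    refine Mt.updN hc hn hv hk hck ps _ (by omega) hm ?_
    rcases ha : adjp k ps.length with _ | _
    · refine h.adN hn hv hp ?_
      rw [← hck, ← hcp]
      exact (hc.pair hk (by omega)).2.2 ha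
    · exact h

theorem sat_anN {G : SimpleGraph V} {f : ℕ → V} {n E : ℕ} (hn : n ≤ 32) {v an : ℕ} (hv : v < n) :
    ∀ (m N : ℕ), m ≤ n → (∀ i < m, tb an i = true → ¬ G.Adj (f v) (f i)) → Sat G f n E N →
      Sat G f n E (anN v an m N)
  | 0, N, _, _, h => h
  | m + 1, N, hm, ha, h => by
    simp only [anN]
    refine sat_anN hn hv m _ (by omega) (fun i hi => ha i (by omega)) ?_
    rcases hb : tb an m with _ | _
    · exact h
    · exact h.adN hn hv (by omega) (ha m (by omega) hb)

theorem excl_sound {G : SimpleGraph V} {f c : ℕ → V} {n E N : ℕ} {y : V} (hc : IsC G y c)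
    (h : Sat G f n E N) {i k : ℕ} (hi : i < n) (hk : k < 5) (hck : c k = f i) :
    ∀ ps : List ℕ, ps.length ≤ k → Mt c f n ps → excl E N i k ps = false
  | [], _, _ => rfl
  | p :: ps, hl, hm => by
    obtain ⟨hp, hcp, hm⟩ := hm
    simp only [List.length_cons] at hl
    have hpair := hc.pair hk (l := ps.length) (by omega)
    rw [hck, hcp] at hpair
    have hip : i ≠ p := fun e => hpair.1 (by rw [e])
    simp only [excl, Bool.or_eq_false_iff]
    refine ⟨?_, ?_, excl_sound hc h hi hk hck ps (by omega) hm⟩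
    · rw [← Bool.not_eq_true, Nat.beq_eq]; exact hip
    · rcases ha : adjp k ps.length with _ | _
      · simp only [cond_false]
        rw [← Bool.not_eq_true]
        exact fun hb => hpair.2.2 ha (h.hsE hi hp hip hb)
      · simp only [cond_true]
        rw [← Bool.not_eq_true]
        exact fun hb => h.hsN hi hp hip hb (hpair.2.1 ha)

theorem fresh_sound {G : SimpleGraph V} {f c : ℕ → V} {n E N x ex exk : ℕ} {ps : List ℕ}
    (hc : IsC G (f x) c) (h : Sat G f n E N) (hx : x < n) (hk : ps.length < 5)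
    (hex : ∀ l < 5, ∀ i < n, tb ex i = true → c l ≠ f i)
    (hexk : ∀ i < n, tb exk i = true → c ps.length ≠ f i) (hm : Mt c f n ps)
    (hf : fresh n E N x ex exk ps = true) : ∀ i < n, c ps.length ≠ f i := by
  intro i hi hci
  simp only [fresh, all_iff, Bool.or_eq_true] at hf
  rcases hf i hi with h1 | h1 | h1 | h1 | h1
  · exact hex _ hk i hi h1 hci
  · exact hexk i hi h1 hci
  · rw [Nat.beq_eq] at h1
    subst h1
    exact hc.ne _ hk hci
  · by_cases hix : x = i
    · subst hix; exact hc.ne _ hk hci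
    · have := h.hsE hx hi hix h1
      rw [← hci] at this
      exact hc.anti _ hk this
  · rw [excl_sound hc h hi hk hci ps le_rfl hm] at h1
    exact absurd h1 (by simp)

theorem Mt.ext {c f : ℕ → V} {n : ℕ} {w : V} : ∀ ps : List ℕ, Mt c f n ps →
    Mt c (Function.update f n w) (n + 1) ps
  | [], _ => trivial
  | p :: ps, h => by
    obtain ⟨hp, hcp, hm⟩ := h
    exact ⟨by omega, by rw [Function.update_of_ne (by omega)]; exact hcp, Mt.ext ps hm⟩

theorem next_holds {G : SimpleGraph V} {f c : ℕ → V} {n x ex an v : ℕ} {ps : List ℕ}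
    (hx : x < n) (hk : ps.length < 5) (hc : IsC G (f x) c)
    (hex : ∀ l < 5, ∀ i < n, tb ex i = true → c l ≠ f i)
    (han : ∀ l < 5, ∀ i < n, tb an i = true → ¬ G.Adj (c l) (f i))
    (hv : v < n) (hcv : c ps.length = f v) (hm : Mt c f n ps) : MdH G f n (next x ex an v ps) := by
  unfold next
  rcases hb : Nat.beq ps.length 4 with _ | _
  · have : ps.length ≠ 4 := by
      rw [← Bool.not_eq_true, Nat.beq_eq] at hb; exact hb
    refine ⟨hx, by simp only [List.length_cons]; omega, c, hc, hex, han, fun i _ h => ?_,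
      hv, hcv, hm⟩
    rw [tb_zero] at h
    exact absurd h (by simp)
  · trivial

/-- Extending the map does not change the meaning of a pending cycle. -/
theorem pk_ext {G : SimpleGraph V} {f c : ℕ → V} {n x ex an : ℕ} (w : V) (hx : x < n)
    (hc : IsC G (f x) c) (hex : ∀ l < 5, ∀ i < n, tb ex i = true → c l ≠ f i)
    (han : ∀ l < 5, ∀ i < n, tb an i = true → ¬ G.Adj (c l) (f i))
    (h1 : tb ex n = false) (h2 : tb an n = false) :
    IsC G (Function.update f n w x) c ∧
    (∀ l < 5, ∀ i < n + 1, tb ex i = true → c l ≠ Function.update f n w i) ∧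
    (∀ l < 5, ∀ i < n + 1, tb an i = true → ¬ G.Adj (c l) (Function.update f n w i)) := by
  refine ⟨?_, fun l hl i hi h => ?_, fun l hl i hi h => ?_⟩
  · rw [Function.update_of_ne (by omega)]; exact hc
  · rcases Nat.lt_succ_iff_lt_or_eq.1 hi with hi | hi
    · rw [Function.update_of_ne (by omega)]; exact hex l hl i hi h
    · subst hi; rw [h1] at h; exact absurd h (by simp)
  · rcases Nat.lt_succ_iff_lt_or_eq.1 hi with hi | hi
    · rw [Function.update_of_ne (by omega)]; exact han l hl i hi h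
    · subst hi; rw [h2] at h; exact absurd h (by simp)

end Pool.Agent.B7219d
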