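import Mathlib
import Pool.Agent.B7219d.Chk

/-!
# Soundness of the checker
-/

set_option autoImplicit false

namespace Pool.Agent.B7219d

variable {V : Type*}

theorem bne_of {a b : ℕ} (h : (!(Nat.beq a b)) = true) : a ≠ b := by
  rintro rfl
  rw [Nat.beq_refl] at h
  exact absurd h (by simp)

/-- **Soundness.** -/
theorem sound {G : SimpleGraph V} {P : List (ℕ × ℕ × ℕ)} {cr ac : Bool}
    (hP : ∀ p ∈ P, ¬ Occ G p) (hcr : cr = true → Rules G) (hac : ac = true → AC G) :
    ∀ (t : T) (n E N o : ℕ) (md : Md), chk P cr ac t n E N o md = true → n ≤ 32 →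
      ∀ f : ℕ → V, Sat G f n E N → (o ≠ 0 → o < n ∧ ∃ i < o, G.Adj (f o) (f i)) →
        MdH G f n md → False
  | .L k img, n, E, N, o, md, h, _, f, hf, _, _ => by
    unfold chk at h
    split at h
    · exact absurd h (by simp)
    · rename_i p hp
      exact hP p (nth_mem P k p hp) (conf_sound hf h)
  | .S i j t₁ t₀, n, E, N, o, md, h, hn, f, hf, ho, hm => by
    simp only [chk, Bool.and_eq_true, Nat.blt_eq] at h
    obtain ⟨hi, hj, h1, h0⟩ := h
    have hk : 32 * i + j = key i j := (key_of_lt hj).symm
    rw [hk] at h1 h0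
    by_cases ha : G.Adj (f i) (f j)
    · exact sound hP hcr hac t₁ n _ N o md h1 hn f (hf.adE hn hi (by omega) ha) ho hm
    · exact sound hP hcr hac t₀ n E _ o md h0 hn f (hf.adN hn hi (by omega) ha) ho hm
  | .C u v t, n, E, N, o, .main, h, hn, f, hf, ho, hm => by
    simp only [chk, Bool.and_eq_true, Nat.blt_eq, all_iff, Bool.or_eq_true, Nat.beq_eq] at h
    obtain ⟨hcr', hn32, hs, hu, hv, huv, hall, ht⟩ := h
    obtain ⟨w, hw1, hw2⟩ := (hcr hcr').comp (f u) (f v) (hf.ne hu hv (bne_of huv))
    have hnew : ∀ i < n, w ≠ f i := by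
      rintro i hi rfl
      rcases hall i hi with h1 | h1 | h1
      · subst h1; exact hw1.ne rfl
      · by_cases hui : u = i
        · subst hui; exact hw1.ne rfl
        · exact hf.hsN hu hi hui h1 hw1
      · exact hw2 (hf.hsE hv hi (bne_of h1.1).symm h1.2)
    have hf' := hf.ext hs hnew
    have hlt : ∀ i < n, Function.update f n w i = f i := fun i hi =>
      Function.update_of_ne (by omega) _ _
    have hself : Function.update f n w n = w := Function.update_self ..
    refine sound hP hcr hac t (n + 1) _ _ o .main ht (by omega) (Function.update f n w)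
      ((hf'.adE (by omega) (by omega) (by omega) ?_).adN (by omega) (by omega) (by omega) ?_)
      (fun h0 => ?_) trivial
    · rw [hself, hlt u hu]; exact hw1.symm
    · rw [hself, hlt v hv]; exact fun h => hw2 h.symm
    · obtain ⟨g1, i, g2, g3⟩ := ho h0
      exact ⟨by omega, i, g2, by rw [hlt o g1, hlt i (by omega)]; exact g3⟩
  | .D u a b t, n, E, N, o, .main, h, hn, f, hf, ho, hm => by
    simp only [chk, Bool.and_eq_true, Nat.blt_eq, all_iff, Bool.or_eq_true, Nat.beq_eq] at h
    obtain ⟨hcr', hn32, hs, hu, ha, hb, hall, ht⟩ := h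
    obtain ⟨w, hw1, hw2, hw3⟩ := (hcr hcr').deg (f u) (f a) (f b)
    have hnew : ∀ i < n, w ≠ f i := by
      rintro i hi rfl
      rcases hall i hi with h1 | h1 | h1 | h1
      · subst h1; exact hw1.ne rfl
      · subst h1; exact hw2 rfl
      · subst h1; exact hw3 rfl
      · by_cases hui : u = i
        · subst hui; exact hw1.ne rfl
        · exact hf.hsN hu hi hui h1 hw1
    have hf' := hf.ext hs hnew
    have hlt : ∀ i < n, Function.update f n w i = f i := fun i hi =>
      Function.update_of_ne (by omega) _ _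
    have hself : Function.update f n w n = w := Function.update_self ..
    refine sound hP hcr hac t (n + 1) _ _ o .main ht (by omega) (Function.update f n w)
      (hf'.adE (by omega) (by omega) (by omega) ?_) (fun h0 => ?_) trivial
    · rw [hself, hlt u hu]; exact hw1.symm
    · obtain ⟨g1, i, g2, g3⟩ := ho h0
      exact ⟨by omega, i, g2, by rw [hlt o g1, hlt i (by omega)]; exact g3⟩
  | .O col t, n, E, N, o, .main, h, hn, f, hf, ho, hm => by
    simp only [chk, Bool.and_eq_true, Nat.blt_eq, all_iff, Bool.or_eq_true, Nat.beq_eq,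
      Nat.ble_eq] at h
    obtain ⟨hcr', hn32, hs, ho0, hn0, hall, ht⟩ := h
    classical
    set S : Set V := {v | ∃ i < n, f i = v} with hS
    set c : V → ℕ := fun v => if h : ∃ i < n, f i = v then dg col h.choose else 0 with hc
    have hcf : ∀ i < n, c (f i) = dg col i := by
      intro i hi
      have hex : ∃ j < n, f j = f i := ⟨i, hi, rfl⟩
      have h1 : c (f i) = dg col hex.choose := by simp only [hc, dif_pos hex]
      have h2 := hex.choose_spec
      have h3 : hex.choose = i := by
        by_contra hne
        exact hf.ne h2.1 hi hne h2.2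
      rw [h1, h3]
    obtain ⟨w, hw, v, ⟨i, hi, rfl⟩, hwi⟩ := (hcr hcr').out S c ⟨f 0, 0, hn0, rfl⟩ (by
      rintro v ⟨i, hi, rfl⟩
      rw [hcf i hi]
      have h1 := (hall i hi).1
      have h2 := bne_of h1.1
      have h3 := h1.2
      omega) (by
      rintro a ⟨i, hi, rfl⟩ b ⟨j, hj, rfl⟩ hab
      rw [hcf i hi, hcf j hj]
      have hij : i ≠ j := by rintro rfl; exact hab.ne rfl
      rcases lt_or_gt_of_ne hij with h1 | h1
      · rcases (hall j hj).2 i h1 with h2 | h2
        · exact absurd hab.symm (hf.hsN hj hi hij.symm h2)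
        · exact (bne_of h2).symm
      · rcases (hall i hi).2 j h1 with h2 | h2
        · exact absurd hab (hf.hsN hi hj hij h2)
        · exact bne_of h2)
    have hnew : ∀ i < n, w ≠ f i := by
      rintro j hj rfl
      exact hw ⟨j, hj, rfl⟩
    have hf' := hf.ext hs hnew
    have hlt : ∀ i < n, Function.update f n w i = f i := fun i hi =>
      Function.update_of_ne (by omega) _ _
    have hself : Function.update f n w n = w := Function.update_self ..
    refine sound hP hcr hac t (n + 1) _ _ n .main ht (by omega) (Function.update f n w)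
      hf' (fun h0 => ⟨by omega, i, hi, ?_⟩) trivial
    rw [hself, hlt i hi]; exact hwi
  | .Z, n, E, N, o, md, h, _, f, hf, ho, _ => by
    simp only [chk, Bool.and_eq_true, Nat.blt_eq, all_iff] at h
    obtain ⟨h0, hon, hall⟩ := h
    obtain ⟨_, i, hi, hadj⟩ := ho (by omega)
    exact hf.hsN hon (by omega) (by omega) (hall i hi) hadj
  | .A x t, n, E, N, o, .main, h, hn, f, hf, ho, hm => by
    simp only [chk, Bool.and_eq_true, Nat.blt_eq] at h
    obtain ⟨hac', hx, ht⟩ := h
    obtain ⟨c, hc⟩ := hac hac' (f x)
    refine sound hP hcr hac t n E N o _ ht hn f hf ho ⟨hx, by simp, c, hc, ?_, ?_, ?_, trivial⟩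
    · intro l _ i _ h; rw [tb_zero] at h; exact absurd h (by simp)
    · intro l _ i _ h; rw [tb_zero] at h; exact absurd h (by simp)
    · intro i _ h; rw [tb_zero] at h; exact absurd h (by simp)
  | .K0 i t₁ t₀, n, E, N, o, .pk x ex an exk [], h, hn, f, hf, ho, hm => by
    simp only [chk, Bool.and_eq_true, Nat.blt_eq] at h
    obtain ⟨hi, h1, h0⟩ := h
    obtain ⟨hx, _, c, hc, hex, han, hexk, _⟩ := hm
    by_cases hin : ∃ l < 5, c l = f i
    · obtain ⟨l, hl, hcl⟩ := hin
      have hc' := hc.rot l
      have e0 : (fun m => c ((m + l) % 5)) 0 = f i := by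
        simp only [zero_add, Nat.mod_eq_of_lt hl]; exact hcl
      refine sound hP hcr hac t₁ n E _ o _ h1 hn f (hf.adN hn hi hx ?_) ho
        ⟨hx, by simp, _, hc', fun m _ j hj h => hex _ (Nat.mod_lt _ (by norm_num)) j hj h,
          fun m _ j hj h => han _ (Nat.mod_lt _ (by norm_num)) j hj h, ?_, hi, e0, trivial⟩
      · rw [← hcl]; exact fun h => hc.anti l hl h.symm
      · intro i _ h; rw [tb_zero] at h; exact absurd h (by simp)
    · push Not at hin
      refine sound hP hcr hac t₀ n E N o _ h0 hn f hf ho ⟨hx, by simp, c, hc, ?_, han, ?_, trivial⟩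
      · intro l hl j hj h
        rw [tb_sb, Bool.or_eq_true, decide_eq_true_eq] at h
        rcases h with h | h
        · exact hex l hl j hj h
        · subst h; exact hin l hl
      · intro i _ h; rw [tb_zero] at h; exact absurd h (by simp)
  | .N0 j t₁ t₀, n, E, N, o, .pk x ex an exk [], h, hn, f, hf, ho, hm => by
    simp only [chk, Bool.and_eq_true, Nat.blt_eq, Bool.not_eq_true'] at h
    obtain ⟨hj, hn32, hs, hexn, hann, hfr, h1, h0⟩ := h
    obtain ⟨hx, _, c, hc, hex, han, hexk, _⟩ := hm
    by_cases hin : ∃ l < 5, G.Adj (c l) (f j)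
    · obtain ⟨l, hl, hcl⟩ := hin
      have hc' := hc.rot l
      have e0 : (fun m => c ((m + l) % 5)) 0 = c l := by
        simp only [zero_add, Nat.mod_eq_of_lt hl]
      have hz : ∀ (q : List ℕ), ∀ i < n, tb 0 i = true →
          (fun m => c ((m + l) % 5)) q.length ≠ f i := by
        intro q i _ h; rw [tb_zero] at h; exact absurd h (by simp)
      have hex' : ∀ m < 5, ∀ i < n, tb ex i = true → (fun m => c ((m + l) % 5)) m ≠ f i :=
        fun m _ i hi h => hex _ (Nat.mod_lt _ (by norm_num)) i hi h
      have han' : ∀ m < 5, ∀ i < n, tb an i = true →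
          ¬ G.Adj ((fun m => c ((m + l) % 5)) m) (f i) :=
        fun m _ i hi h => han _ (Nat.mod_lt _ (by norm_num)) i hi h
      have hnew : ∀ i < n, c l ≠ f i := by
        have := fresh_sound hc' hf hx (by simp) hex' (hz []) (ps := []) trivial hfr
        intro i hi
        have h2 := this i hi
        simp only [List.length_nil, e0] at h2
        exact h2
      have hf' := hf.ext hs hnew
      have hlt : ∀ i < n, Function.update f n (c l) i = f i := fun i hi =>
        Function.update_of_ne (by omega) _ _
      have hself : Function.update f n (c l) n = c l := Function.update_self ..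
      obtain ⟨k1, k2, k3⟩ := pk_ext (c l) hx hc' hex' han' hexn hann
      refine sound hP hcr hac t₁ (n + 1) _ _ o _ h1 (by omega) (Function.update f n (c l))
        ((sat_anN (by omega) (by omega) n _ (by omega) ?_ (hf'.adN (by omega) (by omega)
          (by omega) ?_)).adE (by omega) (by omega) (by omega) ?_) (fun h0 => ?_)
        ⟨by omega, by simp, _, k1, k2, k3, ?_, by omega, ?_, trivial⟩
      · intro i hi h
        rw [hself, hlt i hi]; exact han l hl i hi h
      · rw [hself, hlt x hx]; exact fun h => hc.anti l hl h.symm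
      · rw [hself, hlt j hj]; exact hcl
      · obtain ⟨g1, i, g2, g3⟩ := ho h0
        exact ⟨by omega, i, g2, by rw [hlt o g1, hlt i (by omega)]; exact g3⟩
      · intro i _ h; rw [tb_zero] at h; exact absurd h (by simp)
      · rw [hself]; exact e0
    · push Not at hin
      refine sound hP hcr hac t₀ n E N o _ h0 hn f hf ho ⟨hx, by simp, c, hc, hex, ?_, ?_, trivial⟩
      · intro l hl i hi h
        rw [tb_sb, Bool.or_eq_true, decide_eq_true_eq] at h
        rcases h with h | h
        · exact han l hl i hi h
        · subst h; exact hin l hl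
      · intro i _ h; rw [tb_zero] at h; exact absurd h (by simp)
  | .K i t₁ t₀, n, E, N, o, .pk x ex an exk ps, h, hn, f, hf, ho, hm => by
    simp only [chk, Bool.and_eq_true, Nat.blt_eq] at h
    obtain ⟨hi, h1, h0⟩ := h
    obtain ⟨hx, hk, c, hc, hex, han, hexk, hmt⟩ := hm
    by_cases hci : c ps.length = f i
    · have hf1 : Sat G f n E (ad N i x) := hf.adN hn hi hx (by
        rw [← hci]; exact fun h => hc.anti _ hk h.symm)
      have hf2 := Mt.updN hc hn hi hk hci ps _ le_rfl hmt hf1
      have hf3 := Mt.updE hc hn hi hk hci ps _ le_rfl hmt hf2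
      exact sound hP hcr hac t₁ n _ _ o _ h1 hn f hf3 ho
        (next_holds hx hk hc hex han hi hci hmt)
    · refine sound hP hcr hac t₀ n E N o _ h0 hn f hf ho ⟨hx, hk, c, hc, hex, han, ?_, hmt⟩
      intro j hj h
      rw [tb_sb, Bool.or_eq_true, decide_eq_true_eq] at h
      rcases h with h | h
      · exact hexk j hj h
      · subst h; exact hci
  | .W t, n, E, N, o, .pk x ex an exk ps, h, hn, f, hf, ho, hm => by
    simp only [chk, Bool.and_eq_true, Nat.blt_eq, Bool.not_eq_true'] at h
    obtain ⟨hn32, hs, hexn, hann, hfr, ht⟩ := h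
    obtain ⟨hx, hk, c, hc, hex, han, hexk, hmt⟩ := hm
    have hnew := fresh_sound hc hf hx hk hex hexk hmt hfr
    have hf' := hf.ext hs hnew
    have hlt : ∀ i < n, Function.update f n (c ps.length) i = f i := fun i hi =>
      Function.update_of_ne (by omega) _ _
    have hself : Function.update f n (c ps.length) n = c ps.length := Function.update_self ..
    obtain ⟨k1, k2, k3⟩ := pk_ext (c ps.length) hx hc hex han hexn hann
    have hmt' := Mt.ext (w := c ps.length) ps hmt
    have hck : c ps.length = Function.update f n (c ps.length) n := hself.symm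
    have hf1 := hf'.adN (by omega) (i := n) (j := x) (by omega) (by omega) (by
      rw [hself, hlt x hx]; exact fun h => hc.anti _ hk h.symm)
    have hf2 := sat_anN (by omega) (v := n) (an := an) (by omega) n _ (by omega) (fun i hi h => by
      rw [hself, hlt i hi]; exact han _ hk i hi h) hf1
    have hf3 := Mt.updN k1 (by omega) (by omega) hk hck ps _ le_rfl hmt' hf2
    have hf4 := Mt.updE k1 (by omega) (by omega) hk hck ps _ le_rfl hmt' hf3
    refine sound hP hcr hac t (n + 1) _ _ o _ ht (by omega) (Function.update f n (c ps.length))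
      hf4 (fun h0 => ?_) (next_holds (by omega) hk k1 k2 k3 (by omega) hck hmt')
    obtain ⟨g1, i, g2, g3⟩ := ho h0
    exact ⟨by omega, i, g2, by rw [hlt o g1, hlt i (by omega)]; exact g3⟩

/-- Checking a list of lemmas, each may use the earlier ones. -/
def chkL (cr ac : Bool) : List (ℕ × ℕ × ℕ) → List ((ℕ × ℕ × ℕ) × T) → Bool
  | _, [] => true
  | P, (p, t) :: L => Nat.ble p.1 32 && (chk P cr ac t p.1 p.2.1 p.2.2 0 .main &&
      chkL cr ac (P ++ [p]) L)

theorem soundL {G : SimpleGraph V} {cr ac : Bool} (hcr : cr = true → Rules G)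
    (hac : ac = true → AC G) : ∀ (L : List ((ℕ × ℕ × ℕ) × T)) (P : List (ℕ × ℕ × ℕ)),
      (∀ p ∈ P, ¬ Occ G p) → chkL cr ac P L = true → ∀ q ∈ L, ¬ Occ G q.1
  | [], _, _, _, q, hq => absurd hq (by simp)
  | (p, t) :: L, P, hP, h, q, hq => by
    simp only [chkL, Bool.and_eq_true, Nat.ble_eq] at h
    have hp : ¬ Occ G p := by
      rintro ⟨f, hf⟩
      exact sound hP hcr hac t p.1 p.2.1 p.2.2 0 .main h.2.1 h.1 f hf (by simp) trivial
    rcases List.mem_cons.1 hq with rfl | hq
    · exact hp
    · refine soundL hcr hac L (P ++ [p]) (fun r hr => ?_) h.2.2 q hq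
      rcases List.mem_append.1 hr with hr | hr
      · exact hP r hr
      · rw [List.mem_singleton.1 hr]; exact hp

end Pool.Agent.B7219d
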