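import Mathlib
import Pool.Agent.B7219d.Sound

/-!
# Critical graphs, shortest odd closed walks
-/

set_option autoImplicit false

namespace Pool.Agent.B7219d

open SimpleGraph

variable {V : Type*}

/-- The vertices in `S` can be properly coloured with `k` colours. -/
def PC (G : SimpleGraph V) (k : ℕ) (S : Set V) : Prop :=
  ∃ c : V → ℕ, (∀ v ∈ S, c v < k) ∧ ∀ a ∈ S, ∀ b ∈ S, G.Adj a b → c a ≠ c b

theorem colorable_iff_PC (G : SimpleGraph V) (k : ℕ) : G.Colorable k ↔ PC G k Set.univ := by
  constructor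
  · rintro ⟨C⟩
    exact ⟨fun v => C v, fun v _ => (C v).2, fun a _ b _ hab h => C.valid hab (Fin.ext h)⟩
  · rintro ⟨c, hc, hv⟩
    exact ⟨⟨fun v => ⟨c v, hc v trivial⟩, fun {a b} hab h => hv a trivial b trivial hab
      (congrArg Fin.val h)⟩⟩

/-- Vertex-critical: not `k`-colourable, every proper set of vertices is. -/
structure Crit (G : SimpleGraph V) (k : ℕ) : Prop where
  not : ¬ PC G k Set.univ
  sub : ∀ S : Set V, S ≠ Set.univ → PC G k S

theorem PC.mono {G : SimpleGraph V} {k : ℕ} {S T : Set V} (h : PC G k T) (hST : S ⊆ T) :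
    PC G k S := by
  obtain ⟨c, hc, hv⟩ := h
  exact ⟨c, fun v hvS => hc v (hST hvS), fun a ha b hb => hv a (hST ha) b (hST hb)⟩

/-- A non-colourable finite graph contains a critical induced subgraph. -/
theorem exists_crit [Finite V] (G : SimpleGraph V) (k : ℕ) (h : ¬ G.Colorable k) :
    ∃ W : Set V, Crit (G.induce W) k := by
  rw [colorable_iff_PC] at h
  obtain ⟨W, -, hW⟩ := (Set.toFinite {W : Set V | ¬ PC G k W}).exists_le_minimal
    (a := Set.univ) h
  have key : ∀ S : Set W, PC (G.induce W) k S ↔ PC G k (Subtype.val '' S) := by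
    intro S
    constructor
    · rintro ⟨c, hc, hv⟩
      classical
      refine ⟨fun v => if hv : v ∈ W then c ⟨v, hv⟩ else 0, ?_, ?_⟩
      · rintro _ ⟨v, hvS, rfl⟩
        simp only [Subtype.coe_prop, dite_true, Subtype.coe_eta]
        exact hc v hvS
      · rintro _ ⟨a, ha, rfl⟩ _ ⟨b, hb, rfl⟩ hab
        simp only [Subtype.coe_prop, dite_true, Subtype.coe_eta]
        exact hv a ha b hb hab
    · rintro ⟨c, hc, hv⟩
      exact ⟨fun v => c v, fun v hvS => hc _ ⟨v, hvS, rfl⟩,
        fun a ha b hb hab => hv _ ⟨a, ha, rfl⟩ _ ⟨b, hb, rfl⟩ hab⟩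
  refine ⟨W, ?_, fun S hS => ?_⟩
  · rw [key, Set.image_univ, Subtype.range_coe]; exact hW.prop
  · rw [key]
    by_contra hcon
    have h1 : (Subtype.val '' S : Set V) ⊆ W := by rintro _ ⟨v, _, rfl⟩; exact v.2
    have h2 := hW.le_of_le hcon h1
    refine hS (Set.eq_univ_of_forall fun v => ?_)
    obtain ⟨w, hw, hwv⟩ := h2 v.2
    rwa [← Subtype.ext hwv]

theorem Occ.of_induce {G : SimpleGraph V} {W : Set V} {p : ℕ × ℕ × ℕ}
    (h : Occ (G.induce W) p) : Occ G p := by
  obtain ⟨f, hf⟩ := h
  exact ⟨fun i => f i, fun i hi j hj hij => hf.inj i hi j hj (Subtype.ext hij),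
    fun i hi j hj hb => hf.adj i hi j hj hb, fun i hi j hj hb => hf.nadj i hi j hj hb⟩

/-- Critical graphs are connected. -/
theorem Crit.closed {G : SimpleGraph V} {k : ℕ} (h : Crit G k) {K : Set V} (h1 : K.Nonempty)
    (h2 : K ≠ Set.univ) (h3 : ∀ z ∈ K, ∀ w, G.Adj z w → w ∈ K) : False := by
  classical
  obtain ⟨c, hc, hv⟩ := h.sub K h2
  obtain ⟨d, hd, hw⟩ := h.sub Kᶜ (fun e => by
    obtain ⟨x, hx⟩ := h1
    have : x ∈ Kᶜ := by rw [e]; trivial
    exact this hx)
  refine h.not ⟨fun v => if v ∈ K then c v else d v, fun v _ => ?_, fun a _ b _ hab => ?_⟩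
  · by_cases hv : v ∈ K
    · simp only [hv, if_true]; exact hc v hv
    · simp only [hv, if_false]; exact hd v hv
  · by_cases ha : a ∈ K
    · have hb := h3 a ha b hab
      simp only [ha, hb, if_true]; exact hv a ha b hb hab
    · have hb : b ∉ K := fun hb => ha (h3 b hb a hab.symm)
      simp only [ha, hb, if_false]; exact hw a ha b hb hab

theorem Crit.rules {G : SimpleGraph V} (h : Crit G 3) : Rules G := by
  classical
  refine ⟨fun u v huv => ?_, fun u a b => ?_, fun S c hS hc hv => ?_⟩
  · by_contra hcon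
    push Not at hcon
    obtain ⟨c, hc, hv⟩ := h.sub {u}ᶜ (fun e => by
      have : u ∈ ({u}ᶜ : Set V) := by rw [e]; trivial
      exact this rfl)
    refine h.not ⟨Function.update c u (c v), fun w _ => ?_, fun a _ b _ hab => ?_⟩
    · by_cases hw : w = u
      · subst hw; rw [Function.update_self]; exact hc v huv.symm
      · rw [Function.update_of_ne hw]; exact hc w hw
    · by_cases ha : a = u
      · subst ha
        rw [Function.update_self, Function.update_of_ne hab.ne']
        exact hv v huv.symm b hab.ne' (hcon b hab)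
      · by_cases hb : b = u
        · subst hb
          rw [Function.update_self, Function.update_of_ne ha]
          exact hv a ha v huv.symm (hcon a hab.symm).symm
        · rw [Function.update_of_ne ha, Function.update_of_ne hb]
          exact hv a ha b hb hab
  · by_contra hcon
    push Not at hcon
    obtain ⟨c, hc, hv⟩ := h.sub {u}ᶜ (fun e => by
      have : u ∈ ({u}ᶜ : Set V) := by rw [e]; trivial
      exact this rfl)
    obtain ⟨q, hq, hqa, hqb⟩ : ∃ q < 3, q ≠ c a ∧ q ≠ c b := by
      by_cases h0 : 0 ≠ c a ∧ 0 ≠ c b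
      · exact ⟨0, by norm_num, h0⟩
      · by_cases h1 : 1 ≠ c a ∧ 1 ≠ c b
        · exact ⟨1, by norm_num, h1⟩
        · refine ⟨2, by norm_num, ?_, ?_⟩ <;> omega
    have hq' : ∀ w, G.Adj u w → q ≠ c w := by
      intro w hw
      by_cases hwa : w = a
      · rw [hwa]; exact hqa
      · rw [hcon w hw hwa]; exact hqb
    refine h.not ⟨Function.update c u q, fun w _ => ?_, fun a _ b _ hab => ?_⟩
    · by_cases hw : w = u
      · subst hw; rw [Function.update_self]; exact hq
      · rw [Function.update_of_ne hw]; exact hc w hw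
    · by_cases ha : a = u
      · subst ha
        rw [Function.update_self, Function.update_of_ne hab.ne']
        exact hq' b hab
      · by_cases hb : b = u
        · subst hb
          rw [Function.update_self, Function.update_of_ne ha]
          exact (hq' a hab.symm).symm
        · rw [Function.update_of_ne ha, Function.update_of_ne hb]
          exact hv a ha b hb hab
  · by_contra hcon
    push Not at hcon
    by_cases hSu : S = Set.univ
    · subst hSu
      exact h.not ⟨c, hc, hv⟩
    · exact h.closed hS hSu fun z hz w hw => by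
        by_contra hwS
        exact hcon w hwS z hz hw.symm

/-- A shortest odd closed walk. -/
structure Hole (H : SimpleGraph V) (m : ℕ) (c : ℕ → V) : Prop where
  odd : Odd m
  adj : ∀ i, H.Adj (c i) (c (i + 1))
  per : ∀ i, c (i + m) = c i
  min : ∀ (u : V) (q : H.Walk u u), Odd q.length → m ≤ q.length

theorem exists_hole {H : SimpleGraph V} (h : ¬ H.Colorable 2) : ∃ m c, Hole H m c := by
  classical
  rw [two_colorable_iff_forall_loop_even] at h
  push Not at h
  have hex : ∃ n, Odd n ∧ ∃ (u : V) (q : H.Walk u u), q.length = n := by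
    obtain ⟨u, w, hw⟩ := h
    exact ⟨_, Nat.not_even_iff_odd.1 hw, u, w, rfl⟩
  obtain ⟨hodd, u, q, hq⟩ := Nat.find_spec hex
  set m := Nat.find hex with hm
  have hpos : 0 < m := hodd.pos
  refine ⟨m, fun i => q.getVert (i % m), hodd, fun i => ?_, fun i => ?_, fun v w hw => ?_⟩
  · have h1 : i % m < m := Nat.mod_lt _ hpos
    have h2 := q.adj_getVert_succ (i := i % m) (by omega)
    rcases Nat.lt_or_ge (i % m + 1) m with h3 | h3
    · have : (i + 1) % m = i % m + 1 := by
        rw [Nat.add_mod, Nat.mod_eq_of_lt (a := 1) (by omega), Nat.mod_eq_of_lt h3]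
      simp only [this]
      exact h2
    · have h4 : i % m + 1 = m := by omega
      have : (i + 1) % m = 0 := by
        have h5 : i + 1 = m * (i / m) + (i % m + 1) := by
          have := Nat.div_add_mod i m; omega
        rw [h5, h4]
        simp
      simp only [this]
      rw [h4] at h2
      have h5 : q.getVert m = u := by rw [← hq, Walk.getVert_length]
      rw [h5] at h2
      rwa [Walk.getVert_zero]
  · simp
  · exact Nat.find_min' hex ⟨hw, v, w, rfl⟩

theorem Hole.walk {H : SimpleGraph V} {m : ℕ} {c : ℕ → V} (h : Hole H m c) (i : ℕ) :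
    ∀ d, ∃ q : H.Walk (c i) (c (i + d)), q.length = d
  | 0 => ⟨Walk.nil, rfl⟩
  | d + 1 => by
    obtain ⟨q, hq⟩ := h.walk i d
    exact ⟨q.concat (h.adj (i + d)), by rw [Walk.length_concat, hq]⟩

theorem Hole.fwd {H : SimpleGraph V} {m : ℕ} {c : ℕ → V} (h : Hole H m c) {i j : ℕ}
    (hij : i ≤ j) : ∃ q : H.Walk (c i) (c j), q.length = j - i := by
  obtain ⟨d, rfl⟩ := Nat.exists_eq_add_of_le hij
  obtain ⟨q, hq⟩ := h.walk i d
  exact ⟨q, by omega⟩

theorem Hole.bwd {H : SimpleGraph V} {m : ℕ} {c : ℕ → V} (h : Hole H m c) {i j : ℕ}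
    (hij : j ≤ i + m) : ∃ q : H.Walk (c j) (c i), q.length = i + m - j := by
  obtain ⟨q, hq⟩ := h.fwd hij
  exact ⟨q.copy rfl (h.per i), by rw [Walk.length_copy, hq]⟩

theorem Hole.ne {H : SimpleGraph V} {m : ℕ} {c : ℕ → V} (h : Hole H m c) {i j : ℕ}
    (hd : i < j) (hd' : j < i + m) : c i ≠ c j := by
  intro he
  obtain ⟨q, hq⟩ := h.fwd hd.le
  obtain ⟨r, hr⟩ := h.bwd hd'.le
  have hodd := h.odd
  rcases Nat.even_or_odd (j - i) with h1 | h1
  · have h2 : Odd (i + m - j) := by
      obtain ⟨a, ha⟩ := h1; obtain ⟨b, hb⟩ := hodd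
      exact ⟨b - a, by omega⟩
    have h3 := h.min (c i) (r.copy he.symm rfl) (by rw [Walk.length_copy, hr]; exact h2)
    rw [Walk.length_copy, hr] at h3
    omega
  · have h3 := h.min (c i) (q.copy rfl he.symm) (by rw [Walk.length_copy, hq]; exact h1)
    rw [Walk.length_copy, hq] at h3
    omega

theorem Hole.nadj {H : SimpleGraph V} {m : ℕ} {c : ℕ → V} (h : Hole H m c) {i j : ℕ}
    (hd : i + 2 ≤ j) (hd' : j + 2 ≤ i + m) : ¬ H.Adj (c i) (c j) := by
  intro he
  obtain ⟨q, hq⟩ := h.fwd (i := i) (j := j) (by omega)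
  obtain ⟨r, hr⟩ := h.bwd (i := i) (j := j) (by omega)
  have hodd := h.odd
  rcases Nat.even_or_odd (j - i) with h1 | h1
  · have h3 := h.min (c i) (q.concat he.symm) (by rw [Walk.length_concat, hq]; exact h1.add_one)
    rw [Walk.length_concat, hq] at h3
    omega
  · have h2 : Odd (i + m - j + 1) := by
      obtain ⟨a, ha⟩ := h1; obtain ⟨b, hb⟩ := hodd
      exact ⟨b - a, by omega⟩
    have h3 := h.min (c j) (r.concat he) (by rw [Walk.length_concat, hr]; exact h2)
    rw [Walk.length_concat, hr] at h3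
    omega

end Pool.Agent.B7219d
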