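import Mathlib

/-!
# The problem COLOURING on hereditary graph classes
-/

set_option autoImplicit false

namespace Pool.Agent.B7219d

open SimpleGraph Turing Computability

/-- An instance of COLOURING: a graph `G` on the vertices `0, …, n-1` and a number `k`. -/
structure Inst where
  /-- number of vertices -/
  n : ℕ
  /-- the graph -/
  G : SimpleGraph (Fin n)
  /-- number of colours -/
  k : ℕ

open Classical in
/-- The instance as a word over the alphabet `{0, 1, separator}` (`some false`, `some true`,
`none`): `n` in unary, separator, the adjacency matrix row by row, separator, `k` in binary (least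
significant digit first). -/
noncomputable def enc (I : Inst) : List (Option Bool) :=
  List.replicate I.n (some true) ++ none ::
    (List.ofFn (fun p : Fin (I.n * I.n) => some (decide (I.G.Adj p.divNat p.modNat))) ++ none ::
      (Nat.bits I.k).map some)

/-- The triangle. -/
def triangle : SimpleGraph (Fin 3) := ⊤

/-- The paw: a triangle with a pendant vertex. -/
def paw : SimpleGraph (Fin 4) := fromEdgeSet {s(0, 1), s(0, 2), s(1, 2), s(2, 3)}

/-- `P_1 + S_{1,1,3}`: centre `0`, paths `0-1`, `0-2`, `0-3-4-5`, and the isolated vertex `6`. -/
def P1S113 : SimpleGraph (Fin 7) := fromEdgeSet {s(0, 1), s(0, 2), s(0, 3), s(3, 4), s(4, 5)}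

/-- `S_{1,2,3}`: centre `0`, paths `0-1`, `0-2-3`, `0-4-5-6`. -/
def S123 : SimpleGraph (Fin 7) :=
  fromEdgeSet {s(0, 1), s(0, 2), s(2, 3), s(0, 4), s(4, 5), s(5, 6)}

/-- COLOURING is polynomial-time solvable on the `(H₁, H₂)`-free graphs: some Boolean function on
instances which is computable in polynomial time (Mathlib's Turing machine model) answers correctly
on every instance `(G, k)` such that neither `H₁` nor `H₂` is an induced subgraph of `G`. -/
def PolyColouring {a b : ℕ} (H₁ : SimpleGraph (Fin a)) (H₂ : SimpleGraph (Fin b)) : Prop :=
  ∃ f : Inst → Bool, Nonempty (TM2ComputableInPolyTime enc encodeBool f) ∧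
    ∀ I : Inst, ¬ H₁.IsIndContained I.G → ¬ H₂.IsIndContained I.G →
      (f I = true ↔ I.G.Colorable I.k)

end Pool.Agent.B7219d
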