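import Mathlib
import Pool.Agent.B7219d.PTIter

/-!
# Transitive closures in polynomial time

The reflexive transitive closure of a relation in the class `UP` on numbers below a bound in `UF`
may be used in predicates deciding a problem in polynomial time.
-/

set_option autoImplicit false

namespace Pool.Agent.B7219d

open Pool.Agent.PT
open Turing Computability

variable {Γ : Type}

/-- An input word followed by a table. -/
def emb (x : List Γ) (t : List Bool) : List (Γ ⊕ Bool) := x.map Sum.inl ++ t.map Sum.inr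

/-- Position `i` holds an input letter. -/
def isIn (y : List (Γ ⊕ Bool)) (i : ℕ) : Prop :=
  i < y.length ∧ ¬ y[i]? = some (Sum.inr true) ∧ ¬ y[i]? = some (Sum.inr false)

open Classical in
/-- The number of input letters. -/
noncomputable def lenx (y : List (Γ ⊕ Bool)) : ℕ :=
  ∑ i ∈ Finset.range y.length, if isIn y i then 1 else 0

theorem isIn_emb (x : List Γ) (t : List Bool) (i : ℕ) (hi : i < (emb x t).length) :
    isIn (emb x t) i ↔ i < x.length := by
  unfold isIn
  simp only [hi, true_and]
  by_cases h : i < x.length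
  · simp only [h, iff_true]
    have : (emb x t)[i]? = some (Sum.inl x[i]) := by
      simp [emb, List.getElem?_append, h]
    rw [this]
    simp
  · simp only [h, iff_false]
    rintro ⟨h1, h2⟩
    have hlen : (emb x t).length = x.length + t.length := by simp [emb]
    have h3 : i - x.length < t.length := by omega
    have : (emb x t)[i]? = some (Sum.inr t[i - x.length]) := by
      simp [emb, List.getElem?_append, h, h3]
    rw [this] at h1 h2
    rcases hb : t[i - x.length] with _ | _
    · rw [hb] at h2; exact h2 rfl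
    · rw [hb] at h1; exact h1 rfl

theorem lenx_emb (x : List Γ) (t : List Bool) : lenx (emb x t) = x.length := by
  classical
  unfold lenx
  rw [Finset.sum_congr rfl (g := fun i => if i < x.length then 1 else 0) (fun i hi => by
    rw [Finset.mem_range] at hi
    simp only [isIn_emb x t i hi])]
  rw [← Finset.sum_filter]
  have : (Finset.range (emb x t).length).filter (fun i => i < x.length) =
      Finset.range x.length := by
    ext i
    simp only [Finset.mem_filter, Finset.mem_range, emb, List.length_append, List.length_map]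
    omega
  rw [this]; simp

theorem UF_lenx : UF (Γ := Γ ⊕ Bool) (fun y _ => lenx y) := by
  classical
  have h1 : UP (Γ := Γ ⊕ Bool) (fun y e => isIn y (e 0)) :=
    (UP.lt (UF.var 0) UF.len).and ((UP.sym _ (UF.var 0)).not.and (UP.sym _ (UF.var 0)).not)
  exact UF.sum (f := fun y _ i => if isIn y i then 1 else 0) UF.len (UF.congr h1 fun y e => by
    congr)

/-- Terms over the input alphabet are terms over the extended alphabet. -/
theorem lift_tm : ∀ t : Tm Γ, ∃ t' : Tm (Γ ⊕ Bool), ∀ x tb e,
    t'.eval (emb x tb) e = t.eval x e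
  | .var i => ⟨.var i, fun _ _ _ => rfl⟩
  | .const c => ⟨.const c, fun _ _ _ => rfl⟩
  | .len => by
    obtain ⟨t, ht⟩ := UF_lenx (Γ := Γ)
    exact ⟨t, fun x tb e => (ht _ _).trans (lenx_emb x tb)⟩
  | .sym a t => by
    obtain ⟨t', ht'⟩ := lift_tm t
    refine ⟨.sym (Sum.inl a) t', fun x tb e => ?_⟩
    simp only [Tm.eval, ht']
    have : (emb x tb)[t.eval x e]? = some (Sum.inl a) ↔ x[t.eval x e]? = some a := by
      simp only [emb, List.getElem?_append, List.length_map]
      by_cases h : t.eval x e < x.length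
      · simp [h]
      · simp [h]
    split_ifs with h1 h2 h2
    · rfl
    · rw [ht'] at h1; exact absurd (this.1 h1) h2
    · rw [ht'] at h1; exact absurd (this.2 h2) h1
    · rfl
  | .add s t => by
    obtain ⟨s', hs'⟩ := lift_tm s
    obtain ⟨t', ht'⟩ := lift_tm t
    exact ⟨.add s' t', fun x tb e => by simp only [Tm.eval, hs', ht']⟩
  | .sub s t => by
    obtain ⟨s', hs'⟩ := lift_tm s
    obtain ⟨t', ht'⟩ := lift_tm t
    exact ⟨.sub s' t', fun x tb e => by simp only [Tm.eval, hs', ht']⟩
  | .sum b t => by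
    obtain ⟨s', hs'⟩ := lift_tm b
    obtain ⟨t', ht'⟩ := lift_tm t
    exact ⟨.sum s' t', fun x tb e => by simp only [Tm.eval, hs', ht']⟩
  | .lett s t => by
    obtain ⟨s', hs'⟩ := lift_tm s
    obtain ⟨t', ht'⟩ := lift_tm t
    exact ⟨.lett s' t', fun x tb e => by simp only [Tm.eval, hs', ht']⟩
  | .ren σ t => by
    obtain ⟨t', ht'⟩ := lift_tm t
    exact ⟨.ren σ t', fun x tb e => by simp only [Tm.eval, ht']⟩

theorem UF.lift {F : List Γ → (ℕ → ℕ) → ℕ} (hF : UF F) :
    ∃ F' : List (Γ ⊕ Bool) → (ℕ → ℕ) → ℕ, UF F' ∧ ∀ x tb e, F' (emb x tb) e = F x e := by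
  obtain ⟨t, ht⟩ := hF
  obtain ⟨t', ht'⟩ := lift_tm t
  exact ⟨fun y e => t'.eval y e, ⟨t', fun _ _ => rfl⟩,
    fun x tb e => (ht' x tb e).trans (ht x e)⟩

theorem UP.lift {P : List Γ → (ℕ → ℕ) → Prop} (hP : UP P) :
    ∃ P' : List (Γ ⊕ Bool) → (ℕ → ℕ) → Prop, UP P' ∧ ∀ x tb e, P' (emb x tb) e ↔ P x e := by
  obtain ⟨F, hF, h⟩ := UF.lift hP
  refine ⟨fun y e => F y e ≠ 0, UP.ne hF (UF.const 0), fun x tb e => ?_⟩
  change F (emb x tb) e ≠ 0 ↔ P x e
  rw [h]
  split_ifs with h1 <;> simp [h1]

open Classical in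
/-- The table of a relation on numbers below `M`. -/
noncomputable def tbl (M : ℕ) (T : ℕ → ℕ → Prop) : List Bool :=
  (List.range (M * M)).map (fun p => decide (T (p / M) (p % M)))

theorem tbl_congr {M : ℕ} {T T' : ℕ → ℕ → Prop} (h : ∀ u < M, ∀ v < M, T u v ↔ T' u v) :
    tbl M T = tbl M T' := by
  classical
  unfold tbl
  refine List.map_congr_left fun p hp => ?_
  rw [List.mem_range] at hp
  have hM : 0 < M := by
    rcases Nat.eq_zero_or_pos M with h0 | h0
    · subst h0; omega
    · exact h0
  have := h (p / M) (Nat.div_lt_of_lt_mul hp) (p % M) (Nat.mod_lt _ hM)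
  simp only [this]

theorem tbl_get {M : ℕ} (T : ℕ → ℕ → Prop) (x : List Γ) {u v : ℕ} (hu : u < M) (hv : v < M) :
    (emb x (tbl M T))[x.length + (u * M + v)]? = some (Sum.inr true) ↔ T u v := by
  classical
  have h1 : u * M + v < M * M := by
    calc u * M + v < u * M + M := by omega
      _ = (u + 1) * M := by ring
      _ ≤ M * M := Nat.mul_le_mul_right _ hu
  have h2 : (u * M + v) / M = u := by
    rw [Nat.add_comm, Nat.add_mul_div_right _ _ (by omega), Nat.div_eq_of_lt hv]; omega
  have h3 : (u * M + v) % M = v := by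
    rw [Nat.add_comm, Nat.add_mul_mod_self_right, Nat.mod_eq_of_lt hv]
  simp only [emb, tbl, List.getElem?_append, List.length_map]
  rw [if_neg (by omega)]
  simp only [Nat.add_sub_cancel_left]
  rw [List.getElem?_map, List.getElem?_map, List.getElem?_range h1]
  simp only [Option.map_some, h2, h3, Option.some.injEq, Sum.inr.injEq, decide_eq_true_eq]

/-- Paths of length at most `s`. -/
def RS (M : ℕ) (E : ℕ → ℕ → Prop) : ℕ → ℕ → ℕ → Prop
  | 0, u, v => u = v
  | s + 1, u, v => RS M E s u v ∨ ∃ k, k < M ∧ (RS M E s u k ∧ E k v)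

theorem RS_sound {M : ℕ} {E : ℕ → ℕ → Prop} : ∀ (s u v : ℕ), u < M → v < M → RS M E s u v →
    Relation.ReflTransGen (fun i j => i < M ∧ j < M ∧ E i j) u v
  | 0, u, v, _, _, h => by
    rw [RS] at h; rw [h]
  | s + 1, u, v, hu, hv, h => by
    rw [RS] at h
    rcases h with h | ⟨k, hk, h1, h2⟩
    · exact RS_sound s u v hu hv h
    · exact (RS_sound s u k hu hk h1).tail ⟨hk, hv, h2⟩

theorem RS_complete {M : ℕ} {E : ℕ → ℕ → Prop} {s : ℕ}
    (hs : ∀ u < M, ∀ v < M, RS M E (s + 1) u v → RS M E s u v) {u v : ℕ} (hu : u < M)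
    (h : Relation.ReflTransGen (fun i j => i < M ∧ j < M ∧ E i j) u v) : RS M E s u v := by
  induction h with
  | refl =>
    clear hs
    induction s with
    | zero => rfl
    | succ s ih => exact Or.inl ih
  | tail _ h2 ih => exact hs u hu _ h2.2.1 (Or.inr ⟨_, h2.1, ih, h2.2.2⟩)

/-- The closure is reached after at most `M * M` steps. -/
theorem RS_stop (M : ℕ) (E : ℕ → ℕ → Prop) : ∃ s ≤ M * M,
    ∀ u < M, ∀ v < M, RS M E (s + 1) u v → RS M E s u v := by
  classical
  by_contra hcon
  push Not at hcon
  let C : ℕ → Finset (ℕ × ℕ) := fun s =>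
    (Finset.range M ×ˢ Finset.range M).filter (fun q => RS M E s q.1 q.2)
  have hC : ∀ s, s ≤ M * M + 1 → s ≤ (C s).card := by
    intro s
    induction s with
    | zero => intro _; omega
    | succ s ih =>
      intro hs
      have h1 := ih (by omega)
      obtain ⟨u, hu, v, hv, h2, h3⟩ := hcon s (by omega)
      have h4 : C s ⊂ C (s + 1) := by
        rw [Finset.ssubset_iff_of_subset (fun q hq => by
          simp only [C, Finset.mem_filter] at hq ⊢
          exact ⟨hq.1, Or.inl hq.2⟩)]
        refine ⟨(u, v), ?_, ?_⟩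
        · simp only [C, Finset.mem_filter, Finset.mem_product, Finset.mem_range]
          exact ⟨⟨hu, hv⟩, h2⟩
        · simp only [C, Finset.mem_filter, not_and]
          exact fun _ => h3
      have := Finset.card_lt_card h4
      omega
  have h1 := hC (M * M + 1) le_rfl
  have h2 : (C (M * M + 1)).card ≤ M * M := by
    refine (Finset.card_filter_le _ _).trans ?_
    simp
  omega

/-- **Transitive closure.** -/
theorem polyTime_closure {α : Type} [Fintype Γ] (ea : α → List Γ) {M : List Γ → ℕ}
    {E : List Γ → ℕ → ℕ → Prop} (hM : UF (fun x _ => M x))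
    (hE : UP (fun x e => E x (e 0) (e 1))) {R : List (Γ ⊕ Bool) → Prop}
    (hR : UP (fun y _ => R y)) (f : α → Bool)
    (hf : ∀ a, f a = true ↔ R (emb (ea a) (tbl (M (ea a)) (Relation.ReflTransGen
      (fun i j => i < M (ea a) ∧ j < M (ea a) ∧ E (ea a) i j))))) :
    Nonempty (TM2ComputableInPolyTime ea encodeBool f) := by
  classical
  obtain ⟨M', hM', hM'e⟩ := UF.lift hM
  obtain ⟨E', hE', hE'e⟩ := UP.lift hE
  set MM : List (Γ ⊕ Bool) → ℕ := fun y => M' y (fun _ => 0) with hMM
  have uMM : UF (fun y _ => MM y) := UF.subst hM' (fun _ _ _ => 0) (fun _ => UF.const 0)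
  have eMM : ∀ x tb, MM (emb x tb) = M x := fun x tb => hM'e x tb _
  set EE : List (Γ ⊕ Bool) → ℕ → ℕ → Prop := fun y i j => E' y (cons i (cons j (fun _ => 0)))
    with hEE
  have uEE : UP (fun y e => EE y (e 0) (e 1)) := by
    have := UF.subst hE' (fun i y e => cons (e 0) (cons (e 1) (fun _ => 0)) i) (fun i => by
      rcases i with _ | _ | i
      · exact UF.var 0
      · exact UF.var 1
      · exact UF.const 0)
    exact this
  have eEE : ∀ x tb i j, EE (emb x tb) i j ↔ E x i j := fun x tb i j => hE'e x tb _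
  -- the bit in the table
  set TT : List (Γ ⊕ Bool) → ℕ → ℕ → Prop := fun y u v =>
    y[lenx y + (u * MM y + v)]? = some (Sum.inr true) with hTT
  have uTT : UP (fun y e => TT y (e 0) (e 1)) :=
    UP.sym _ (UF_lenx.add (((UF.var 0).mul uMM).add (UF.var 1)))
  have eTT : ∀ x T u v, u < M x → v < M x → (TT (emb x (tbl (M x) T)) u v ↔ T u v) := by
    intro x T u v hu hv
    simp only [hTT, eMM, lenx_emb]
    exact tbl_get T x hu hv
  -- the new bit
  set NB : List (Γ ⊕ Bool) → ℕ → ℕ → Prop := fun y u v =>
    TT y u v ∨ ∃ k, k < MM y ∧ (TT y u k ∧ EE y k v) with hNB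
  have uNB : UP (fun y e => NB y (e 0) (e 1)) := by
    refine uTT.or (UP.bex (P := fun y e k => TT y (e 0) k ∧ EE y k (e 1)) uMM ?_)
    exact (UP.comp₂ uTT (UF.var 1) (UF.var 0)).and (UP.comp₂ uEE (UF.var 0) (UF.var 2))
  have eNB : ∀ x T u v, u < M x → v < M x → (NB (emb x (tbl (M x) T)) u v ↔
      (T u v ∨ ∃ k, k < M x ∧ (T u k ∧ E x k v))) := by
    intro x T u v hu hv
    simp only [hNB, eMM, eTT x T u v hu hv, eEE]
    refine or_congr_right (exists_congr fun k => and_congr_right fun hk => ?_)
    rw [eTT x T u k hu hk]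
  -- the initial word
  set G₀ : List Γ → ℕ → Γ ⊕ Bool := fun x i =>
    if h : i < x.length then Sum.inl x[i] else
      Sum.inr (decide ((i - x.length) / M x = (i - x.length) % M x)) with hG₀
  have uG₀ : ∀ a, UP (fun x e => G₀ x (e 0) = a) := by
    rintro (a | b)
    · refine (UP.sym a (UF.var 0)).congr fun x e => ?_
      simp only [hG₀]
      by_cases h : e 0 < x.length
      · simp [h]
      · simp [h]
    · refine ((UP.lt (UF.var 0) UF.len).not.and (UP.iff (UP.eq (UF.div ((UF.var 0).sub UF.len) hM)
        (UF.mod ((UF.var 0).sub UF.len) hM)) (UP.const (b = true)))).congr fun x e => ?_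
      simp only [hG₀]
      by_cases h : e 0 < x.length
      · simp [h]
      · simp only [h, dite_false, not_false_eq_true, true_and, Sum.inr.injEq]
        cases b <;> simp
  have hF₀ : ∀ x, emb x (tbl (M x) (fun u v => u = v)) =
      (List.range (x.length + M x * M x)).map (G₀ x) := by
    intro x
    refine List.ext_getElem? fun i => ?_
    simp only [emb, tbl, List.getElem?_append, List.length_map, List.getElem?_map]
    by_cases h : i < x.length
    · have h1 : i < x.length + M x * M x := by omega
      simp [h, h1, hG₀]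
    · by_cases h1 : i < x.length + M x * M x
      · have h2 : i - x.length < M x * M x := by omega
        simp [h, h1, h2, hG₀]
      · have h2 : ¬ i - x.length < M x * M x := by omega
        rw [if_neg h, List.getElem?_eq_none (by simpa using h2), List.getElem?_eq_none
          (by simpa using h1)]
        rfl
  -- the step
  set G₁ : List (Γ ⊕ Bool) → ℕ → Γ ⊕ Bool := fun y i =>
    if h : i < y.length then (if i < lenx y then y[i] else
      Sum.inr (decide (NB y ((i - lenx y) / MM y) ((i - lenx y) % MM y)))) else Sum.inr false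
    with hG₁
  have uNB' : UP (fun y (e : ℕ → ℕ) => NB y ((e 0 - lenx y) / MM y) ((e 0 - lenx y) % MM y)) :=
    UP.comp₂ uNB (UF.div ((UF.var 0).sub UF_lenx) uMM) (UF.mod ((UF.var 0).sub UF_lenx) uMM)
  have uG₁ : ∀ a, UP (fun y e => G₁ y (e 0) = a) := by
    intro a
    have h1 : UP (fun (y : List (Γ ⊕ Bool)) (e : ℕ → ℕ) => e 0 < y.length ∧ e 0 < lenx y ∧
        y[e 0]? = some a) :=
      (UP.lt (UF.var 0) UF.len).and ((UP.lt (UF.var 0) UF_lenx).and (UP.sym a (UF.var 0)))
    have h2 : UP (fun (y : List (Γ ⊕ Bool)) (e : ℕ → ℕ) => e 0 < y.length ∧ ¬ e 0 < lenx y ∧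
        ((NB y ((e 0 - lenx y) / MM y) ((e 0 - lenx y) % MM y) ∧ a = Sum.inr true) ∨
        (¬ NB y ((e 0 - lenx y) / MM y) ((e 0 - lenx y) % MM y) ∧ a = Sum.inr false))) :=
      (UP.lt (UF.var 0) UF.len).and ((UP.lt (UF.var 0) UF_lenx).not.and
        ((uNB'.and (UP.const _)).or (uNB'.not.and (UP.const _))))
    have h3 : UP (fun (y : List (Γ ⊕ Bool)) (e : ℕ → ℕ) => ¬ e 0 < y.length ∧ a = Sum.inr false) :=
      (UP.lt (UF.var 0) UF.len).not.and (UP.const _)
    refine (h1.or (h2.or h3)).congr fun y e => ?_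
    simp only [hG₁]
    by_cases g1 : e 0 < y.length
    · by_cases g2 : e 0 < lenx y
      · simp [g1, g2]
      · by_cases g3 : NB y ((e 0 - lenx y) / MM y) ((e 0 - lenx y) % MM y)
        · simp only [g1, g2, g3, true_and, false_and, and_false, not_true_eq_false,
            not_false_eq_true, false_or, or_false, dite_true, if_false, decide_true]
          exact eq_comm
        · simp only [g1, g2, g3, true_and, false_and, and_false, not_true_eq_false,
            not_false_eq_true, false_or, or_false, dite_true, if_false, decide_false]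
          exact eq_comm
    · simp only [g1, false_and, false_or, not_false_eq_true, true_and, dite_false]
      exact eq_comm
  set F₁ : List (Γ ⊕ Bool) → List (Γ ⊕ Bool) := fun y => (List.range y.length).map (G₁ y) with hF₁
  have eF₁ : ∀ x s, F₁ (emb x (tbl (M x) (RS (M x) (E x) s))) =
      emb x (tbl (M x) (RS (M x) (E x) (s + 1))) := by
    intro x s
    have hlen : ∀ T, (emb x (tbl (M x) T)).length = x.length + M x * M x := by
      intro T; simp [emb, tbl]
    refine List.ext_getElem? fun i => ?_
    simp only [hF₁, List.getElem?_map, hlen]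
    by_cases h : i < x.length
    · have h1 : i < x.length + M x * M x := by omega
      rw [List.getElem?_range h1]
      simp only [Option.map_some, hG₁, hlen, h1, dite_true, lenx_emb, h, if_true]
      simp only [emb, List.getElem?_append, List.length_map, h, if_true]
      simp [h]
    · by_cases h1 : i < x.length + M x * M x
      · have h2 : i - x.length < M x * M x := by omega
        have hMpos : 0 < M x := by
          rcases Nat.eq_zero_or_pos (M x) with h0 | h0
          · rw [h0] at h2; omega
          · exact h0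
        rw [List.getElem?_range h1]
        simp only [Option.map_some, hG₁, hlen, h1, dite_true, lenx_emb, h, if_false, eMM]
        have h3 := eNB x (RS (M x) (E x) s) ((i - x.length) / M x) ((i - x.length) % M x)
          (Nat.div_lt_of_lt_mul h2) (Nat.mod_lt _ hMpos)
        simp only [emb, tbl, List.getElem?_append, List.length_map, h, if_false,
          List.getElem?_map, List.getElem?_range h2, Option.map_some, Option.some.injEq,
          Sum.inr.injEq]
        exact decide_eq_decide.2 h3
      · rw [List.getElem?_eq_none (by simpa using h1), List.getElem?_eq_none (by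
          rw [hlen]; omega)]
        rfl
  have hit : ∀ x s, F₁^[s] (emb x (tbl (M x) (fun u v => u = v))) =
      emb x (tbl (M x) (RS (M x) (E x) s)) := by
    intro x s
    induction s with
    | zero => rfl
    | succ s ih => rw [Function.iterate_succ_apply', ih, eF₁]
  -- the condition to continue
  set Q : List (Γ ⊕ Bool) → Prop := fun y => ∃ u, u < MM y ∧ ∃ v, v < MM y ∧
    (NB y u v ∧ ¬ TT y u v) with hQ
  have uQ : UP (fun y _ => Q y) := by
    refine UP.bex (P := fun y e u => ∃ v, v < MM y ∧ (NB y u v ∧ ¬ TT y u v)) uMM ?_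
    refine UP.bex (P := fun y e v => NB y (e 0) v ∧ ¬ TT y (e 0) v) uMM ?_
    exact (UP.comp₂ uNB (UF.var 1) (UF.var 0)).and (UP.comp₂ uTT (UF.var 1) (UF.var 0)).not
  have eQ : ∀ x s, Q (emb x (tbl (M x) (RS (M x) (E x) s))) ↔
      ¬ ∀ u < M x, ∀ v < M x, RS (M x) (E x) (s + 1) u v → RS (M x) (E x) s u v := by
    intro x s
    simp only [hQ, eMM]
    push Not
    refine exists_congr fun u => and_congr_right fun hu => exists_congr fun v =>
      and_congr_right fun hv => ?_
    rw [eNB x _ u v hu hv, eTT x _ u v hu hv]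
    rfl
  -- the polynomial bounds
  obtain ⟨tm, htm⟩ := hM
  obtain ⟨B, hB⟩ := exists_spec (A := Option Γ) some (Option.some_injective _) none tm
  have hMB : ∀ x, M x ≤ B x.length := fun x => by
    have := hB.val x.length x (fun _ => 0) le_rfl (fun _ => Nat.zero_le _)
    rwa [htm] at this
  refine polyTime_iterate ea (M₀ := fun x => x.length + M x * M x) (G₀ := G₀)
    (UF.len.add (UF.mul ⟨tm, htm⟩ ⟨tm, htm⟩)) uG₀ (M₁ := fun y => y.length) (G₁ := G₁) UF.len uG₁
    uQ hR f (fun x => emb x (tbl (M x) (fun u v => u = v))) hF₀ F₁ (fun y => rfl)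
    (fun N => B N * B N) (fun N => N + B N * B N) (hB.pb.mul hB.pb)
    (PB.id.add (hB.pb.mul hB.pb)) fun a => ?_
  set x := ea a with hx
  have hex := RS_stop (M x) (E x)
  have hex' : ∃ s, ∀ u < M x, ∀ v < M x, RS (M x) (E x) (s + 1) u v → RS (M x) (E x) s u v :=
    hex.imp fun s hs => hs.2
  refine ⟨Nat.find hex', ?_, fun i hi => ?_, ?_, fun i hi => ?_, ?_⟩
  · obtain ⟨s, hs, hs'⟩ := hex
    exact (Nat.find_min' hex' hs').trans (hs.trans (Nat.mul_le_mul (hMB x) (hMB x)))
  · rw [hit, eQ]
    exact Nat.find_min hex' hi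
  · rw [hit, eQ, not_not]
    exact Nat.find_spec hex'
  · rw [hit]
    simp only [emb, tbl, List.length_append, List.length_map, List.length_range]
    exact Nat.add_le_add_left (Nat.mul_le_mul (hMB x) (hMB x)) _
  · rw [hit, hf a]
    have : tbl (M x) (RS (M x) (E x) (Nat.find hex')) = tbl (M x) (Relation.ReflTransGen
        (fun i j => i < M x ∧ j < M x ∧ E x i j)) :=
      tbl_congr fun u hu v hv => ⟨RS_sound _ u v hu hv, RS_complete (Nat.find_spec hex') hu⟩
    rw [this]

end Pool.Agent.B7219d
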