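import Mathlib
import Pool.Agent.B7219d.PTClosure
import Pool.Agent.B7219d.Defs

/-!
# Reading instances
-/

set_option autoImplicit false

namespace Pool.Agent.B7219d

open Pool.Agent.PT
open SimpleGraph Turing Computability

/-- The input alphabet. -/
abbrev Al : Type := Option Bool

theorem enc_lt (I : Inst) {i : ℕ} (hi : i < I.n) : (enc I)[i]? = some (some true) := by
  classical
  unfold enc
  rw [List.getElem?_append_left (by simpa using hi)]
  simp [hi]

theorem enc_sep (I : Inst) : (enc I)[I.n]? = some none := by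
  classical
  unfold enc
  rw [List.getElem?_append_right (by simp)]
  simp

theorem enc_mat (I : Inst) {p : ℕ} (hp : p < I.n * I.n) :
    (enc I)[I.n + 1 + p]? = some (some true) ↔
      I.G.Adj (Fin.divNat ⟨p, hp⟩) (Fin.modNat ⟨p, hp⟩) := by
  classical
  unfold enc
  rw [List.getElem?_append_right (by simp; omega)]
  rw [List.length_replicate, show I.n + 1 + p - I.n = p + 1 by omega, List.getElem?_cons_succ,
    List.getElem?_append_left (by simpa using hp)]
  rw [List.getElem?_ofFn]
  simp [hp]

theorem enc_bit (I : Inst) (i : ℕ) :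
    (enc I)[I.n + 1 + I.n * I.n + 1 + i]? = some (some true) ↔ I.k.testBit i = true := by
  classical
  unfold enc
  rw [List.getElem?_append_right (by simp; omega)]
  rw [List.length_replicate, show I.n + 1 + I.n * I.n + 1 + i - I.n = I.n * I.n + 1 + i + 1 by omega,
    List.getElem?_cons_succ, List.getElem?_append_right (by simp; omega)]
  rw [List.length_ofFn, show I.n * I.n + 1 + i - I.n * I.n = i + 1 by omega,
    List.getElem?_cons_succ, List.getElem?_map]
  rw [Nat.testBit_eq_inth]
  rcases h : (Nat.bits I.k)[i]? with _ | b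
  · simp [List.getI_eq_getElem?_getD, h]
  · simp [List.getI_eq_getElem?_getD, h]

theorem enc_length (I : Inst) :
    (enc I).length = I.n + 1 + I.n * I.n + 1 + (Nat.bits I.k).length := by
  classical
  simp [enc]
  omega

open Classical in
/-- The number of vertices read from the word. -/
noncomputable def nn (x : List Al) : ℕ :=
  ∑ i ∈ Finset.range x.length, if ∀ j, j < i + 1 → ¬ x[j]? = some none then 1 else 0

theorem UF_nn : UF (fun x (_ : ℕ → ℕ) => nn x) := by
  classical
  have h1 : UP (Γ := Al) (fun x e => ∀ j, j < e 0 + 1 → ¬ x[j]? = some none) :=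
    UP.ball (P := fun x _ j => ¬ x[j]? = some none) ((UF.var 0).add (UF.const 1))
      (UP.sym _ (UF.var 0)).not
  exact UF.sum (f := fun x _ i => if ∀ j, j < i + 1 → ¬ x[j]? = some none then 1 else 0) UF.len
    (UF.congr h1 fun y e => by congr)

theorem nn_enc (I : Inst) : nn (enc I) = I.n := by
  classical
  unfold nn
  have h1 : ∀ i ∈ Finset.range (enc I).length, (if ∀ j, j < i + 1 → ¬ (enc I)[j]? = some none
      then 1 else 0) = if i < I.n then 1 else 0 := by
    intro i _
    by_cases hi : i < I.n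
    · rw [if_pos hi, if_pos fun j hj => by rw [enc_lt I (by omega)]; simp]
    · rw [if_neg hi, if_neg fun h => h I.n (by omega) (enc_sep I)]
  rw [Finset.sum_congr rfl h1, ← Finset.sum_filter]
  have : (Finset.range (enc I).length).filter (fun i => i < I.n) = Finset.range I.n := by
    ext i
    simp only [Finset.mem_filter, Finset.mem_range, enc_length]
    omega
  rw [this]; simp

/-- Adjacency read from the word. -/
def aj (x : List Al) (i j : ℕ) : Prop := x[nn x + 1 + (i * nn x + j)]? = some (some true)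

theorem UP_aj : UP (fun x e => aj x (e 0) (e 1)) :=
  UP.sym _ ((UF_nn.add (UF.const 1)).add (((UF.var 0).mul UF_nn).add (UF.var 1)))

theorem aj_enc (I : Inst) (i j : Fin I.n) : aj (enc I) i j ↔ I.G.Adj i j := by
  unfold aj
  rw [nn_enc]
  have h1 : (i : ℕ) * I.n + j < I.n * I.n := by
    calc (i : ℕ) * I.n + j < i * I.n + I.n := by have := j.2; omega
      _ = (i + 1) * I.n := by ring
      _ ≤ I.n * I.n := Nat.mul_le_mul_right _ i.2
  rw [enc_mat I h1]
  have e1 : (Fin.divNat ⟨(i : ℕ) * I.n + j, h1⟩ : Fin I.n) = i := by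
    ext
    simp only [Fin.coe_divNat]
    rw [Nat.add_comm, Nat.add_mul_div_right _ _ (by have := j.2; omega), Nat.div_eq_of_lt j.2]
    omega
  have e2 : (Fin.modNat ⟨(i : ℕ) * I.n + j, h1⟩ : Fin I.n) = j := by
    ext
    simp only [Fin.coe_modNat]
    rw [Nat.add_comm, Nat.add_mul_mod_self_right, Nat.mod_eq_of_lt j.2]
  rw [e1, e2]

/-- Binary digits of `k` read from the word. -/
def bt (x : List Al) (i : ℕ) : Prop := x[nn x + 1 + nn x * nn x + 1 + i]? = some (some true)

theorem UP_bt : UP (fun x e => bt x (e 0)) :=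
  UP.sym _ ((((UF_nn.add (UF.const 1)).add (UF_nn.mul UF_nn)).add (UF.const 1)).add (UF.var 0))

theorem bt_enc (I : Inst) (i : ℕ) : bt (enc I) i ↔ I.k.testBit i = true := by
  unfold bt
  rw [nn_enc, enc_bit]

/-! ### Powers of two -/

/-- `q` is a power of two. -/
def isp (q : ℕ) : Prop := 0 < q ∧ ∀ d, d < q + 1 → (q % d = 0 → d = 1 ∨ d % 2 = 0)

theorem isp_iff (q : ℕ) : isp q ↔ ∃ j, q = 2 ^ j := by
  constructor
  · rintro ⟨h0, h⟩
    rcases Nat.eq_two_pow_or_exists_odd_prime_and_dvd q with h1 | ⟨p, hp, hpq, hodd⟩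
    · exact h1
    · exfalso
      rcases h p (by have := Nat.le_of_dvd h0 hpq; omega) (Nat.mod_eq_zero_of_dvd hpq) with h2 | h2
      · exact hp.one_lt.ne' h2
      · rw [← Nat.not_even_iff_odd] at hodd
        exact hodd (Nat.even_iff.2 h2)
  · rintro ⟨j, rfl⟩
    refine ⟨by positivity, fun d _ hd => ?_⟩
    obtain ⟨i, _, rfl⟩ := (Nat.dvd_prime_pow Nat.prime_two).1 (Nat.dvd_of_mod_eq_zero hd)
    rcases Nat.eq_zero_or_pos i with h | h
    · subst h; left; rfl
    · right
      obtain ⟨k, rfl⟩ := Nat.exists_eq_succ_of_ne_zero h.ne'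
      rw [pow_succ]
      omega

open Classical in
/-- The number of powers of two below `q`. -/
noncomputable def lg (q : ℕ) : ℕ := ∑ p ∈ Finset.range q, if isp p then 1 else 0

theorem lg_pow (j : ℕ) : lg (2 ^ j) = j := by
  classical
  unfold lg
  rw [← Finset.sum_filter, Finset.sum_const, smul_eq_mul, mul_one]
  have : (Finset.range (2 ^ j)).filter isp = (Finset.range j).image (fun i => 2 ^ i) := by
    ext p
    simp only [Finset.mem_filter, Finset.mem_range, Finset.mem_image, isp_iff]
    constructor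
    · rintro ⟨h1, i, rfl⟩
      exact ⟨i, (Nat.pow_lt_pow_iff_right (by norm_num)).1 h1, rfl⟩
    · rintro ⟨i, hi, rfl⟩
      exact ⟨(Nat.pow_lt_pow_iff_right (by norm_num)).2 hi, i, rfl⟩
  rw [this, Finset.card_image_of_injective _ (fun a b h => Nat.pow_right_injective le_rfl h),
    Finset.card_range]

/-- `q = 2 ^ i`, as a bounded formula. -/
def isq (i q : ℕ) : Prop := isp q ∧ lg q = i

theorem isq_iff (i q : ℕ) : isq i q ↔ q = 2 ^ i := by
  unfold isq
  constructor
  · rintro ⟨h1, h2⟩
    obtain ⟨j, rfl⟩ := (isp_iff q).1 h1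
    rw [lg_pow] at h2; rw [h2]
  · rintro rfl
    exact ⟨(isp_iff _).2 ⟨i, rfl⟩, lg_pow i⟩

theorem UP_isp {Γ : Type} : UP (Γ := Γ) (fun _ e => isp (e 0)) := by
  refine (UP.lt (UF.const 0) (UF.var 0)).and (UP.ball (P := fun _ e d => e 0 % d = 0 →
    d = 1 ∨ d % 2 = 0) ((UF.var 0).add (UF.const 1)) ?_)
  exact (UP.eq (UF.mod (UF.var 1) (UF.var 0)) (UF.const 0)).imp
    ((UP.eq (UF.var 0) (UF.const 1)).or (UP.eq (UF.mod (UF.var 0) (UF.const 2)) (UF.const 0)))

theorem UF_lg {Γ : Type} : UF (Γ := Γ) (fun _ e => lg (e 0)) := by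
  classical
  refine UF.sum (f := fun _ _ p => if isp p then 1 else 0) (UF.var 0) (UF.congr UP_isp fun y e => ?_)
  congr

theorem UP_isq {Γ : Type} : UP (Γ := Γ) (fun _ e => isq (e 0) (e 1)) := by
  refine UP.and ?_ ?_
  · exact UP.comp₁ (P := fun _ q => isp q) UP_isp (UF.var 1)
  · exact UP.eq (UF.comp₁ (f := fun _ q => lg q) UF_lg (UF.var 1)) (UF.var 0)

open Classical in
/-- `min (2 ^ i) (m + 1)`. -/
noncomputable def pw (m i : ℕ) : ℕ :=
  (∑ q ∈ Finset.range (m + 1), if isq i q then q else 0) +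
    if ∃ q, q < m + 1 ∧ isq i q then 0 else m + 1

theorem pw_eq (m i : ℕ) : pw m i = min (2 ^ i) (m + 1) := by
  classical
  unfold pw
  simp only [isq_iff]
  by_cases h : 2 ^ i < m + 1
  · rw [if_pos ⟨_, h, rfl⟩, Finset.sum_ite_eq_of_mem' _ _ _ (Finset.mem_range.2 h),
      min_eq_left h.le]
    rfl
  · rw [if_neg (by rintro ⟨q, h1, rfl⟩; exact h h1), min_eq_right (by omega),
      Finset.sum_eq_zero, zero_add]
    intro q hq
    rw [Finset.mem_range] at hq
    rw [if_neg (by rintro rfl; exact h hq)]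

theorem UF_pw {Γ : Type} : UF (Γ := Γ) (fun _ e => pw (e 0) (e 1)) := by
  classical
  refine UF.add ?_ ?_
  · refine UF.sum (f := fun _ e q => if isq (e 1) q then q else 0) ((UF.var 0).add (UF.const 1)) ?_
    exact UF.ite (inst := fun _ _ => _) (UP.comp₂ (P := fun _ i q => isq i q) UP_isq (UF.var 2)
      (UF.var 0)) (UF.var 0) (UF.const 0)
  · refine UF.ite (inst := fun _ _ => _) ?_ (UF.const 0) ((UF.var 0).add (UF.const 1))
    exact UP.bex (P := fun _ e q => isq (e 1) q) ((UF.var 0).add (UF.const 1))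
      (UP.comp₂ (P := fun _ i q => isq i q) UP_isq (UF.var 2) (UF.var 0))

open Classical in
/-- `min k (n + 1)` read from the word. -/
noncomputable def kk (x : List Al) : ℕ :=
  min (∑ i ∈ Finset.range x.length, if bt x i then pw (nn x) i else 0) (nn x + 1)

theorem UF_kk : UF (fun x (_ : ℕ → ℕ) => kk x) := by
  classical
  refine UF.min (UF.sum (f := fun x _ i => if bt x i then pw (nn x) i else 0) UF.len ?_)
    (UF_nn.add (UF.const 1))
  exact UF.ite (inst := fun _ _ => _) UP_bt (UF.comp₂ (f := fun _ m i => pw m i) UF_pw UF_nn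
    (UF.var 0)) (UF.const 0)

theorem sum_testBit (k : ℕ) : ∀ L, k < 2 ^ L →
    ∑ i ∈ Finset.range L, (if k.testBit i = true then 2 ^ i else 0) = k := by
  intro L
  induction L generalizing k with
  | zero => intro h; simp at h; simp [h]
  | succ L ih =>
    intro h
    rw [Finset.sum_range_succ']
    have h1 : k / 2 < 2 ^ L := by rw [pow_succ] at h; omega
    have h2 := ih (k / 2) h1
    have h3 : ∑ i ∈ Finset.range L, (if k.testBit (i + 1) = true then 2 ^ (i + 1) else 0) =
        2 * ∑ i ∈ Finset.range L, (if (k / 2).testBit i = true then 2 ^ i else 0) := by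
      rw [Finset.mul_sum]
      refine Finset.sum_congr rfl fun i _ => ?_
      rw [Nat.testBit_succ]
      split_ifs
      · rw [pow_succ]; ring
      · ring
    rw [h3, h2]
    have h4 : k.testBit 0 = decide (k % 2 = 1) := Nat.testBit_zero k
    rw [h4]
    rcases Nat.mod_two_eq_zero_or_one k with h5 | h5
    · simp [h5]; omega
    · simp [h5]; omega

theorem kk_enc (I : Inst) : kk (enc I) = min I.k (I.n + 1) := by
  classical
  unfold kk
  simp only [bt_enc, pw_eq, nn_enc]
  set L := (enc I).length with hL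
  have hkL : I.k < 2 ^ L := by
    have h1 : I.k < 2 ^ (Nat.bits I.k).length := by
      rw [Nat.size_eq_bits_len]; exact Nat.lt_size_self I.k
    refine h1.trans_le (Nat.pow_le_pow_right (by norm_num) ?_)
    rw [hL, enc_length]; omega
  by_cases h : ∃ i < L, I.k.testBit i = true ∧ I.n + 1 ≤ 2 ^ i
  · obtain ⟨i, hi, hb, hle⟩ := h
    have h1 : I.n + 1 ≤ ∑ i ∈ Finset.range L, (if I.k.testBit i = true then
        min (2 ^ i) (I.n + 1) else 0) := by
      refine le_trans ?_ (Finset.single_le_sum (fun _ _ => Nat.zero_le _) (Finset.mem_range.2 hi))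
      rw [if_pos hb, min_eq_right hle]
    have h2 : I.n + 1 ≤ I.k := hle.trans (Nat.ge_two_pow_of_testBit hb)
    rw [min_eq_right h1, min_eq_right h2]
  · push Not at h
    congr 1
    rw [← sum_testBit I.k L hkL]
    refine Finset.sum_congr rfl fun i hi => ?_
    rw [sum_testBit I.k L hkL]
    split_ifs with h1
    · exact min_eq_left (h i (Finset.mem_range.1 hi) h1).le
    · rfl

end Pool.Agent.B7219d
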