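import Mathlib
import Pool.Agent.B7219d.Sound

/-!
# Patterns
-/

set_option autoImplicit false
set_option maxRecDepth 100000
set_option linter.all false

namespace Pool.Agent.B7219d

open T

/-- Pattern: triangle. -/
def gK3 : ℕ × ℕ × ℕ :=
  (3, 0x30000000100000000,
    0x0)

/-- Pattern: S_{1,2,3}. -/
def gS123 : ℕ × ℕ × ℕ :=
  (7, 0x20000000100000000100000004000000010000000100000000,
    0x1f0000000f0000000e00000003000000020000000000000000)

/-- Pattern: C_5 + K_2. -/
def gC5K2 : ℕ × ℕ × ℕ :=
  (7, 0x20000000000000000900000004000000020000000100000000,
    0x1f0000001f0000000600000003000000010000000000000000)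

/-- Pattern: the Groetzsch graph. -/
def gGro : ℕ × ℕ × ℕ :=
  (11, 0x1820000009200000070000000280000000a000000050000000900000004000000020000000100000000,
    0x27d0000016d0000008f00000057000000350000001a0000000600000003000000010000000000000000)

/-- Pattern: P_1 + S_{1,1,3}. -/
def gPS113 : ℕ × ℕ × ℕ :=
  (7, 0x100000000800000001000000010000000100000000,
    0x3f0000000f0000000700000006000000020000000000000000)

/-- Pattern: critical graph. -/
def gX1 : ℕ × ℕ × ℕ :=
  (12, 0x470000001840000019200000041000000280000000a000000050000000900000004000000020000000100000000,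
    0x38f0000027b0000006d000000be00000057000000350000001a0000000600000003000000010000000000000000)

/-- Pattern: critical graph. -/
def gX2 : ℕ × ℕ × ℕ :=
  (12, 0x470000001800000019200000041000000280000000a000000050000000900000004000000020000000100000000,
    0x38f0000027f0000006d000000be00000057000000350000001a0000000600000003000000010000000000000000)

/-- Pattern: critical graph. -/
def gX3 : ℕ × ℕ × ℕ :=
  (13, 0xcc000000114000002090000018200000060000000300000000a000000050000000900000004000000020000000100000000,
    0x33f000006eb000001f60000007d0000009f0000004f000000350000001a0000000600000003000000010000000000000000)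

/-- Base patterns. -/
def baseS : List (ℕ × ℕ × ℕ) := [gK3, gS123, gC5K2, gGro]

/-- Base patterns. -/
def baseP : List (ℕ × ℕ × ℕ) := [gK3, gPS113, gX1, gX2, gGro, gX3]

end Pool.Agent.B7219d
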