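import Mathlib
import Pool.Agent.B7219d.DataR
import Pool.Agent.B7219d.DataP
import Pool.Agent.B7219d.Pats

/-!
# Checking the certificate for (triangle, P1+S113)-free graphs
-/

set_option autoImplicit false
set_option maxRecDepth 100000

namespace Pool.Agent.B7219d

theorem okR : chkL true true (baseP ++ [qp0, qp12]) rL = true := by decide +kernel

end Pool.Agent.B7219d
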