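import Mathlib
import Pool.Agent.B7219d.Crit
import Pool.Agent.B7219d.Small
import Pool.Agent.B7219d.OkS
import Pool.Agent.B7219d.OkP
import Pool.Agent.B7219d.OkR

/-!
# The structure theorems
-/

set_option autoImplicit false
set_option maxRecDepth 100000

namespace Pool.Agent.B7219d

open SimpleGraph

variable {V : Type*}

/-- Adding a row to a mask. -/
def snE (E a n : ℕ) : ℕ := Nat.lor E (Nat.shiftLeft a (32 * n))

theorem tb_snE_lt {E a n k : ℕ} (hk : k < 32 * n) : tb (snE E a n) k = tb E k := by
  rw [tb_eq, tb_eq]
  change (E ||| (a <<< (32 * n))).testBit k = _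
  rw [Nat.testBit_or, Nat.testBit_shiftLeft]
  simp [not_le.2 hk]

theorem tb_snE_eq {E a n j : ℕ} (hE : tb E (32 * n + j) = false) :
    tb (snE E a n) (32 * n + j) = tb a j := by
  rw [tb_eq] at hE ⊢
  rw [tb_eq]
  change (E ||| (a <<< (32 * n))).testBit (32 * n + j) = _
  rw [Nat.testBit_or, Nat.testBit_shiftLeft, hE]
  simp

theorem Sat.snoc {G : SimpleGraph V} {f : ℕ → V} {n E N : ℕ} (h : Sat G f n E N)
    (hn : n ≤ 31) (hs : small n E N = true) (a b : ℕ) {w : V} (hw : ∀ i < n, w ≠ f i)
    (ha : ∀ i < n, tb a i = true → G.Adj w (f i))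
    (hb : ∀ i < n, tb b i = true → ¬ G.Adj w (f i)) :
    Sat G (Function.update f n w) (n + 1) (snE E a n) (snE N b n) := by
  have hlt : ∀ i < n, Function.update f n w i = f i := fun i hi =>
    Function.update_of_ne (by omega) _ _
  refine ⟨fun i hi j hj => ?_, fun i hi j hj hij => ?_, fun i hi j hj hij => ?_⟩
  · rcases Nat.lt_succ_iff_lt_or_eq.1 hi with h1 | h1
    · rw [hlt i h1, hlt j (by omega)]; exact h.inj i h1 j hj
    · subst h1; rw [Function.update_self, hlt j hj]; exact hw j hj
  · rcases Nat.lt_succ_iff_lt_or_eq.1 hi with h1 | h1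
    · rw [hlt i h1, hlt j (by omega)]
      rw [tb_snE_lt (by omega)] at hij
      exact h.adj i h1 j hj hij
    · subst h1
      rw [Function.update_self, hlt j hj]
      rw [tb_snE_eq (small_spec hs _ _ le_rfl).1] at hij
      exact ha j hj hij
  · rcases Nat.lt_succ_iff_lt_or_eq.1 hi with h1 | h1
    · rw [hlt i h1, hlt j (by omega)]
      rw [tb_snE_lt (by omega)] at hij
      exact h.nadj i h1 j hj hij
    · subst h1
      rw [Function.update_self, hlt j hj]
      rw [tb_snE_eq (small_spec hs _ _ le_rfl).2] at hij
      exact hb j hj hij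

/-- Masks of the 5-cycle. -/
def c5E : ℕ := 0x900000004000000020000000100000000
/-- Masks of the 5-cycle. -/
def c5N : ℕ := 0x600000003000000010000000000000000

theorem sat_C5 {G : SimpleGraph V} {y : V} {c : ℕ → V} (h : IsC G y c) : Sat G c 5 c5E c5N := by
  have h1 : ∀ i < 5, ∀ j < i, tb c5E (32 * i + j) = adjp i j ∧
      tb c5N (32 * i + j) = !(adjp i j) := by decide
  refine ⟨fun i hi j hj => (h.pair hi hj).1, fun i hi j hj hb => ?_, fun i hi j hj hb => ?_⟩
  · rw [(h1 i hi j hj).1] at hb
    exact (h.pair hi hj).2.1 hb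
  · rw [(h1 i hi j hj).2] at hb
    exact (h.pair hi hj).2.2 (by simpa using hb)

/-- The 5-cycle in a state. -/
theorem isC_of_sat {G : SimpleGraph V} {f : ℕ → V} {n E N : ℕ} (h : Sat G f n E N) (hn : 5 ≤ n)
    {y : V} (hE : ∀ i < 5, ∀ j < i, adjp i j = true → tb E (32 * i + j) = true)
    (hN : ∀ i < 5, ∀ j < i, adjp i j = false → tb N (32 * i + j) = true)
    (hy : ∀ i < 5, f i ≠ y ∧ ¬ G.Adj y (f i)) : IsC G y f := by
  have key : ∀ i < 5, ∀ j < i, (adjp i j = true → G.Adj (f i) (f j)) ∧
      (adjp i j = false → ¬ G.Adj (f i) (f j)) := fun i hi j hj =>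
    ⟨fun h1 => h.adj i (by omega) j hj (hE i hi j hj h1),
      fun h1 => h.nadj i (by omega) j hj (hN i hi j hj h1)⟩
  refine ⟨fun l hl => ?_, fun l hl => ?_, fun l hl => (hy l hl).1, fun l hl => (hy l hl).2⟩
  · interval_cases l
    · exact ((key 1 (by norm_num) 0 (by norm_num)).1 (by decide)).symm
    · exact ((key 2 (by norm_num) 1 (by norm_num)).1 (by decide)).symm
    · exact ((key 3 (by norm_num) 2 (by norm_num)).1 (by decide)).symm
    · exact ((key 4 (by norm_num) 3 (by norm_num)).1 (by decide)).symm
    · exact ((key 4 (by norm_num) 0 (by norm_num)).1 (by decide))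
  · interval_cases l
    · exact fun e => (key 2 (by norm_num) 0 (by norm_num)).2 (by decide) e.symm
    · exact fun e => (key 3 (by norm_num) 1 (by norm_num)).2 (by decide) e.symm
    · exact fun e => (key 4 (by norm_num) 2 (by norm_num)).2 (by decide) e.symm
    · exact fun e => (key 3 (by norm_num) 0 (by norm_num)).2 (by decide) e
    · exact fun e => (key 4 (by norm_num) 1 (by norm_num)).2 (by decide) e

/-- The vertices anticomplete to `x`. -/
def anti (G : SimpleGraph V) (x : V) : Set V := {v | v ≠ x ∧ ¬ G.Adj x v}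

/-- The spanning subgraph with the edges in `S`. -/
def rs (G : SimpleGraph V) (S : Set V) : SimpleGraph V where
  Adj a b := G.Adj a b ∧ a ∈ S ∧ b ∈ S
  symm := ⟨fun _ _ h => ⟨h.1.symm, h.2.2, h.2.1⟩⟩
  loopless := ⟨fun _ h => h.1.ne rfl⟩

theorem no_tri {G : SimpleGraph V} (hK : ¬ Occ G gK3) {a b c : V} (h1 : G.Adj a b)
    (h2 : G.Adj b c) (h3 : G.Adj a c) : False := by
  refine hK ⟨fun i => if i = 0 then a else if i = 1 then b else c, ?_⟩
  refine ⟨fun i hi j hj => ?_, fun i hi j hj _ => ?_, fun i hi j hj hb => ?_⟩
  · change i < 3 at hi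
    interval_cases i
    · omega
    · interval_cases j; simpa using h1.ne'
    · interval_cases j
      · simpa using h3.ne'
      · simpa using h2.ne'
  · change i < 3 at hi
    interval_cases i
    · omega
    · interval_cases j; simpa using h1.symm
    · interval_cases j
      · simpa using h3.symm
      · simpa using h2.symm
  · exfalso
    change tb 0 _ = true at hb
    rw [tb_zero] at hb
    exact absurd hb (by simp)

theorem not_col_anti {G : SimpleGraph V} (h : Crit G 3) (hK : ¬ Occ G gK3) (x : V) :
    ¬ (rs G (anti G x)).Colorable 2 := by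
  classical
  rw [colorable_iff_PC]
  rintro ⟨c, hc, hv⟩
  refine h.not ⟨fun v => if v = x then 0 else if G.Adj x v then 2 else c v, fun v _ => ?_,
    fun a _ b _ hab => ?_⟩
  · have := hc v trivial
    simp only
    split_ifs <;> omega
  · by_cases hax : a = x
    · subst hax
      simp only [if_true, hab.ne', if_false, hab]
      norm_num
    · by_cases hbx : b = x
      · subst hbx
        simp only [if_true, hab.ne, if_false, hab.symm]
        norm_num
      · simp only [hax, hbx, if_false]
        by_cases h1 : G.Adj x a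
        · by_cases h2 : G.Adj x b
          · exact absurd (no_tri hK h1 hab h2) (by simp)
          · simp only [h1, h2, if_true, if_false]
            have := hc b trivial
            omega
        · by_cases h2 : G.Adj x b
          · simp only [h1, h2, if_true, if_false]
            have := hc a trivial
            omega
          · simp only [h1, h2, if_false]
            exact hv a trivial b trivial ⟨hab, ⟨hax, h1⟩, ⟨hbx, h2⟩⟩

/-- If longer odd holes are excluded, every vertex is anticomplete to a 5-cycle. -/
theorem AC_of {G : SimpleGraph V} (h : Crit G 3) (hK : ¬ Occ G gK3)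
    (hole : ∀ (x : V) (m : ℕ) (c : ℕ → V), Hole (rs G (anti G x)) m c → 7 ≤ m → False) :
    AC G := by
  intro x
  obtain ⟨m, c, hc⟩ := exists_hole (not_col_anti h hK x)
  have hS : ∀ i, c i ∈ anti G x := fun i => (hc.adj i).2.1
  have hodd := hc.odd
  have h7 : m < 7 := by
    by_contra h7
    exact hole x m c hc (by omega)
  have h1 : m ≠ 1 := by
    rintro rfl
    have := hc.adj 0
    rw [hc.per 0] at this
    exact this.1.ne rfl
  have h3 : m ≠ 3 := by
    rintro rfl
    have e2 := hc.adj 2
    rw [show 2 + 1 = 0 + 3 by rfl, hc.per 0] at e2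
    exact no_tri hK (hc.adj 0).1 (hc.adj 1).1 e2.1.symm
  have h5 : m = 5 := by
    obtain ⟨k, hk⟩ := hodd
    omega
  subst h5
  have hmod : ∀ i, c (i % 5) = c i := by
    intro i
    induction i using Nat.strong_induction_on with
    | _ i ih =>
      by_cases hi : i < 5
      · rw [Nat.mod_eq_of_lt hi]
      · have h1 := hc.per (i - 5)
        have h2 := ih (i - 5) (by omega)
        rw [show i - 5 + 5 = i by omega] at h1
        rw [h1, ← h2]
        congr 1
        omega
  refine ⟨c, fun l _ => ?_, fun l _ => ?_, fun l _ => (hS l).1, fun l _ => (hS l).2⟩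
  · rw [hmod]; exact (hc.adj l).1
  · rw [hmod]
    intro e
    exact hc.nadj (i := l) (j := l + 2) le_rfl (by omega) ⟨e, hS _, hS _⟩

/-- In a critical graph without triangles and `S_{1,2,3}` no edge is anticomplete to a 5-cycle. -/
theorem noC5K2 {G : SimpleGraph V} {k : ℕ} (h : Crit G k) (hK : ¬ Occ G gK3)
    (hS : ¬ Occ G gS123) : ¬ Occ G gC5K2 := by
  rintro ⟨f, hf⟩
  change Sat G f 7 _ _ at hf
  have hfE : ∀ i < 7, ∀ j < i, tb gC5K2.2.1 (32 * i + j) = true → G.Adj (f i) (f j) := hf.adj
  have hfN : ∀ i < 7, ∀ j < i, tb gC5K2.2.2 (32 * i + j) = true → ¬ G.Adj (f i) (f j) := hf.nadj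
  set R : Set V := {v | ∀ i < 5, f i ≠ v ∧ ¬ G.Adj v (f i)} with hR
  have hcyc : ∀ y ∈ R, IsC G y f := fun y hy =>
    isC_of_sat hf (by norm_num) (by decide) (by decide) hy
  have h5 : f 5 ∈ R := fun i hi => ⟨(hf.inj 5 (by norm_num) i hi).symm,
    hfN 5 (by norm_num) i hi (by interval_cases i <;> decide)⟩
  have h6 : f 6 ∈ R := fun i hi => ⟨(hf.inj 6 (by norm_num) i (by omega)).symm,
    hfN 6 (by norm_num) i (by omega) (by interval_cases i <;> decide)⟩
  have h56 : G.Adj (f 6) (f 5) := hfE 6 (by norm_num) 5 (by norm_num) (by decide)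
  refine h.closed (K := {z | z ∈ R ∧ ∃ z' ∈ R, G.Adj z z'}) ⟨f 5, h5, f 6, h6, h56.symm⟩
    (fun e => ?_) ?_
  · have : f 0 ∈ {z | z ∈ R ∧ ∃ z' ∈ R, G.Adj z z'} := by rw [e]; trivial
    exact (this.1 0 (by norm_num)).1 rfl
  · rintro z ⟨hz, z', hz', hzz⟩ w hzw
    by_cases hw : w ∈ R
    · exact ⟨hw, z, hz, hzw.symm⟩
    · exfalso
      simp only [hR, Set.mem_ofPred_eq, not_forall] at hw
      obtain ⟨i, hi, hw⟩ := hw
      have hwf : ∀ j < 5, w ≠ f j := fun j hj e => (hz j hj).2 (e ▸ hzw)
      have hwi : G.Adj w (f i) := by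
        by_contra hcon
        exact hw ⟨(hwf i hi).symm, hcon⟩
      have hc := (hcyc z hz).rot i
      set g : ℕ → V := fun l => f ((l + i) % 5) with hg
      have hgR : ∀ y ∈ R, ∀ l, g l ≠ y ∧ ¬ G.Adj y (g l) := fun y hy l =>
        hy _ (Nat.mod_lt _ (by norm_num))
      have s1 := sat_C5 hc
      have s2 := s1.snoc (by norm_num) (by decide) 0 0x1f (w := z)
        (fun j _ => (hgR z hz j).1.symm)
        (fun j _ hb => by rw [tb_zero] at hb; exact absurd hb (by simp))
        (fun j _ _ => (hgR z hz j).2)
      have e5 : ∀ j < 5, Function.update g 5 z j = g j := fun j hj =>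
        Function.update_of_ne (by omega) _ _
      have e5' : Function.update g 5 z 5 = z := Function.update_self ..
      have s3 := s2.snoc (by norm_num) (by decide) 0x20 0x1f (w := z')
        (fun j hj => by
          rcases Nat.lt_succ_iff_lt_or_eq.1 hj with hj | hj
          · rw [e5 j hj]; exact (hgR z' hz' j).1.symm
          · subst hj; rw [e5']; exact hzz.ne')
        (fun j hj hb => by
          rcases Nat.lt_succ_iff_lt_or_eq.1 hj with hj | hj
          · interval_cases j <;> exact absurd hb (by decide)
          · subst hj; rw [e5']; exact hzz.symm)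
        (fun j hj hb => by
          rcases Nat.lt_succ_iff_lt_or_eq.1 hj with hj | hj
          · rw [e5 j hj]; exact (hgR z' hz' j).2
          · subst hj; exact absurd hb (by decide))
      set g2 := Function.update g 5 z with hg2
      have e6 : ∀ j < 6, Function.update g2 6 z' j = g2 j := fun j hj =>
        Function.update_of_ne (by omega) _ _
      have e6' : Function.update g2 6 z' 6 = z' := Function.update_self ..
      have hwz' : w ≠ z' := by
        rintro rfl
        exact (hz' i hi).2 hwi
      have s4 := s3.snoc (by norm_num) (by decide) 0x21 0 (w := w)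
        (fun j hj => by
          rcases Nat.lt_succ_iff_lt_or_eq.1 hj with hj | hj
          · rw [e6 j hj]
            rcases Nat.lt_succ_iff_lt_or_eq.1 hj with hj | hj
            · rw [e5 j hj]; exact hwf _ (Nat.mod_lt _ (by norm_num))
            · subst hj; rw [e5']; exact hzw.ne'
          · subst hj; rw [e6']; exact hwz')
        (fun j hj hb => by
          rcases Nat.lt_succ_iff_lt_or_eq.1 hj with hj | hj
          · rw [e6 j hj]
            rcases Nat.lt_succ_iff_lt_or_eq.1 hj with hj | hj
            · rw [e5 j hj]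
              have : j = 0 := by
                interval_cases j
                · rfl
                all_goals exact absurd hb (by decide)
              subst this
              simp only [hg, zero_add, Nat.mod_eq_of_lt hi]
              exact hwi
            · subst hj; rw [e5']; exact hzw.symm
          · subst hj; exact absurd hb (by decide))
        (fun j hj hb => by rw [tb_zero] at hb; exact absurd hb (by simp))
      exact sound (P := [gK3, gS123]) (cr := false) (ac := false) (by
          intro p hp
          simp only [List.mem_cons, List.not_mem_nil, or_false] at hp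
          rcases hp with rfl | rfl
          · exact hK
          · exact hS) (by simp) (by simp) ct0 8 _ _ 0 .main (by decide +kernel) (by norm_num) _
        s4 (by simp) trivial

end Pool.Agent.B7219d
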