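import Mathlib
import Pool.Agent.B7219d.Struct

/-!
# The structure theorems, continued
-/

set_option autoImplicit false
set_option maxRecDepth 100000

namespace Pool.Agent.B7219d

open SimpleGraph

variable {V : Type*}

/-- Masks of the 7-cycle. -/
def c7E : ℕ := 0x21000000100000000800000004000000020000000100000000
/-- Masks of the 7-cycle. -/
def c7N : ℕ := 0x1e0000000f0000000700000003000000010000000000000000
/-- Masks of the 7-vertex path. -/
def p7E : ℕ := 0x20000000100000000800000004000000020000000100000000
/-- Masks of the 7-vertex path. -/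
def p7N : ℕ := 0x1f0000000f0000000700000003000000010000000000000000

theorem Hole.sat7 {G : SimpleGraph V} {S : Set V} {c : ℕ → V} (h : Hole (rs G S) 7 c) (b : ℕ) :
    Sat G (fun i => c (b + i)) 7 c7E c7N := by
  have hS : ∀ i, c i ∈ S := fun i => (h.adj i).2.1
  have h1 : ∀ i < 7, ∀ j < i, tb c7E (32 * i + j) = true → i = j + 1 ∨ (i = 6 ∧ j = 0) := by
    decide
  have h2 : ∀ i < 7, ∀ j < i, tb c7N (32 * i + j) = true → j + 2 ≤ i ∧ i ≤ j + 5 := by
    decide
  refine ⟨fun i hi j hj => (h.ne (by omega) (by omega)).symm, fun i hi j hj hb => ?_,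
    fun i hi j hj hb => ?_⟩
  · rcases h1 i hi j hj hb with rfl | ⟨rfl, rfl⟩
    · exact (h.adj (b + j)).1.symm
    · have := (h.adj (b + 6)).1
      rw [show b + 6 + 1 = b + 7 by rfl, h.per] at this
      exact this
  · obtain ⟨h3, h4⟩ := h2 i hi j hj hb
    exact fun e => h.nadj (i := b + j) (j := b + i) (by omega) (by omega) ⟨e.symm, hS _, hS _⟩

theorem Hole.satp {G : SimpleGraph V} {S : Set V} {m : ℕ} {c : ℕ → V} (h : Hole (rs G S) m c)
    (b n E N : ℕ) (hn : n < m)
    (h1 : ∀ i < n, ∀ j < i, tb E (32 * i + j) = true → i = j + 1)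
    (h2 : ∀ i < n, ∀ j < i, tb N (32 * i + j) = true → j + 2 ≤ i) :
    Sat G (fun i => c (b + i)) n E N := by
  have hS : ∀ i, c i ∈ S := fun i => (h.adj i).2.1
  refine ⟨fun i hi j hj => (h.ne (by omega) (by omega)).symm, fun i hi j hj hb => ?_,
    fun i hi j hj hb => ?_⟩
  · obtain rfl := h1 i hi j hj hb
    exact (h.adj (b + j)).1.symm
  · have h3 := h2 i hi j hj hb
    exact fun e => h.nadj (i := b + j) (j := b + i) (by omega) (by omega) ⟨e.symm, hS _, hS _⟩

/-- Long odd holes do not occur for `S_{1,2,3}`. -/
theorem holeS {G : SimpleGraph V} {k : ℕ} (h : Crit G k) (hK : ¬ Occ G gK3)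
    (hS : ¬ Occ G gS123) (x : V) (m : ℕ) (c : ℕ → V) (hc : Hole (rs G (anti G x)) m c)
    (hm : 7 ≤ m) : False := by
  have hcx : ∀ i, c i ∈ anti G x := fun i => (hc.adj i).2.1
  set R : Set V := {v | ∀ i, c i ≠ v ∧ ¬ G.Adj v (c i)} with hR
  refine h.closed (K := R) ⟨x, fun i => hcx i⟩ (fun e => ?_) ?_
  · have : c 0 ∈ R := by rw [e]; trivial
    exact (this 0).1 rfl
  · intro z hz w hzw
    by_contra hw
    simp only [hR, Set.mem_ofPred_eq, not_forall] at hw
    obtain ⟨i, hw⟩ := hw
    have hwf : ∀ j, w ≠ c j := fun j e => (hz j).2 (e ▸ hzw)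
    have hwi : G.Adj w (c i) := by
      by_contra hcon
      exact hw ⟨(hwf i).symm, hcon⟩
    have htri : ∀ j, G.Adj w (c j) → ¬ G.Adj w (c (j + 1)) := fun j h1 h2 =>
      no_tri hK h1 (hc.adj j).1 h2
    -- a gap of length at least three
    obtain ⟨j, hj1, hj2⟩ : ∃ j, G.Adj w (c j) ∧ ¬ G.Adj w (c (j + 2)) := by
      by_contra hcon
      push Not at hcon
      have h2 : ∀ q, G.Adj w (c (i + 2 * q)) := by
        intro q
        induction q with
        | zero => exact hwi
        | succ q ih => exact hcon _ ih
      obtain ⟨q, hq⟩ := hc.odd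
      have h3 := h2 (q + 1)
      rw [show i + 2 * (q + 1) = i + 1 + m by omega, hc.per] at h3
      exact htri i hwi h3
    set b := j + (m - 3) with hb
    have e3 : c (b + 3) = c j := by rw [hb, show j + (m - 3) + 3 = j + m by omega, hc.per]
    have e4 : c (b + 4) = c (j + 1) := by
      rw [hb, show j + (m - 3) + 4 = j + 1 + m by omega, hc.per]
    have e5 : c (b + 5) = c (j + 2) := by
      rw [hb, show j + (m - 3) + 5 = j + 2 + m by omega, hc.per]
    have fin : ∀ E N : ℕ, Sat G (fun i => c (b + i)) 7 E N → small 7 E N = true →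
        small 8 (snE E 0 7) (snE N 0x7f 7) = true → ∀ t : T,
        chk [gK3, gS123] false false t 9 (snE (snE E 0 7) 0x88 8) (snE (snE N 0x7f 7) 0x30 8) 0
          .main = true → False := by
      intro E N s1 hs1 hs2 t ht
      have s2 := s1.snoc (by norm_num) hs1 0 0x7f (w := z)
        (fun l _ => (hz (b + l)).1.symm)
        (fun j _ hb => by rw [tb_zero] at hb; exact absurd hb (by simp))
        (fun l _ _ => (hz (b + l)).2)
      set g : ℕ → V := Function.update (fun i => c (b + i)) 7 z with hg
      have e7 : ∀ l < 7, g l = c (b + l) := fun l hl => Function.update_of_ne (by omega) _ _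
      have e7' : g 7 = z := Function.update_self ..
      have s3 := s2.snoc (by norm_num) hs2 0x88 0x30 (w := w)
        (fun l hl => by
          rcases Nat.lt_succ_iff_lt_or_eq.1 hl with hl | hl
          · rw [e7 l hl]; exact hwf _
          · subst hl; rw [e7']; exact hzw.ne')
        (fun l hl hb => by
          rcases Nat.lt_succ_iff_lt_or_eq.1 hl with hl | hl
          · have : l = 3 := by
              interval_cases l
              · exact absurd hb (by decide)
              · exact absurd hb (by decide)
              · exact absurd hb (by decide)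
              · rfl
              all_goals exact absurd hb (by decide)
            subst this
            rw [e7 3 hl, e3]; exact hj1
          · subst hl; rw [e7']; exact hzw.symm)
        (fun l hl hb => by
          rcases Nat.lt_succ_iff_lt_or_eq.1 hl with hl | hl
          · have : l = 4 ∨ l = 5 := by
              interval_cases l
              · exact absurd hb (by decide)
              · exact absurd hb (by decide)
              · exact absurd hb (by decide)
              · exact absurd hb (by decide)
              · left; rfl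
              · right; rfl
              · exact absurd hb (by decide)
            rcases this with rfl | rfl
            · rw [e7 4 hl, e4]; exact htri j hj1
            · rw [e7 5 hl, e5]; exact hj2
          · subst hl; exact absurd hb (by decide))
      exact sound (P := [gK3, gS123]) (cr := false) (ac := false) (by
          intro p hp
          simp only [List.mem_cons, List.not_mem_nil, or_false] at hp
          rcases hp with rfl | rfl
          · exact hK
          · exact hS) (by simp) (by simp) t 9 _ _ 0 .main ht (by norm_num) _ s3 (by simp) trivial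
    rcases Nat.lt_or_ge 7 m with h7 | h7
    · exact fin p7E p7N (hc.satp b 7 _ _ h7 (by decide) (by decide)) (by decide) (by decide) ht1
        (by decide +kernel)
    · obtain rfl : m = 7 := by omega
      exact fin c7E c7N (hc.sat7 b) (by decide) (by decide) ht0 (by decide +kernel)

theorem pats_S {G : SimpleGraph V} (hK : ¬ Occ G gK3) (hS : ¬ Occ G gS123)
    (hC : ¬ Occ G gC5K2) (hG : ¬ Occ G gGro) : ∀ p ∈ baseS, ¬ Occ G p := by
  intro p hp
  simp only [baseS, List.mem_cons, List.not_mem_nil, or_false] at hp
  rcases hp with rfl | rfl | rfl | rfl <;> assumption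

/-- **Triangle-free graphs without `S_{1,2,3}` which are not 3-colourable contain the Groetzsch
graph.** -/
theorem thmS [Finite V] (G : SimpleGraph V) (hK : ¬ Occ G gK3) (hS : ¬ Occ G gS123)
    (hG : ¬ Occ G gGro) : G.Colorable 3 := by
  by_contra hcol
  obtain ⟨W, hW⟩ := exists_crit G 3 hcol
  have hK' : ¬ Occ (G.induce W) gK3 := fun h => hK h.of_induce
  have hS' : ¬ Occ (G.induce W) gS123 := fun h => hS h.of_induce
  have hG' : ¬ Occ (G.induce W) gGro := fun h => hG h.of_induce
  have hac := AC_of hW hK' (holeS hW hK' hS')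
  have h5 := soundL (fun _ => hW.rules) (fun _ => hac) sL baseS
    (pats_S hK' hS' (noC5K2 hW hK' hS') hG') okS (sp12, st12) (by simp [sL])
  have hne : Nonempty W := by
    by_contra hne
    rw [not_nonempty_iff] at hne
    exact hW.not ⟨fun _ => 0, fun v => (hne.false v).elim, fun v => (hne.false v).elim⟩
  obtain ⟨x⟩ := hne
  obtain ⟨c, hc⟩ := hac x
  exact h5 ⟨c, sat_C5 hc⟩

theorem pats_P {G : SimpleGraph V} (hK : ¬ Occ G gK3) (hS : ¬ Occ G gPS113)
    (h1 : ¬ Occ G gX1) (h2 : ¬ Occ G gX2) (hG : ¬ Occ G gGro) (h3 : ¬ Occ G gX3) :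
    ∀ p ∈ baseP, ¬ Occ G p := by
  intro p hp
  simp only [baseP, List.mem_cons, List.not_mem_nil, or_false] at hp
  rcases hp with rfl | rfl | rfl | rfl | rfl | rfl <;> assumption

theorem holeP {G : SimpleGraph V} (h7 : ¬ Occ G qp12) (h9 : ¬ Occ G qp0) (x : V) (m : ℕ)
    (c : ℕ → V) (hc : Hole (rs G (anti G x)) m c) (hm : 7 ≤ m) : False := by
  have hcx : ∀ i, c i ∈ anti G x := fun i => (hc.adj i).2.1
  rcases Nat.lt_or_ge 7 m with h | h
  · have hodd := hc.odd
    have h9' : 8 < m := by obtain ⟨k, hk⟩ := hodd; omega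
    have s1 := hc.satp 0 8 0x4000000020000000100000000800000004000000020000000100000000
      0x3f0000001f0000000f0000000700000003000000010000000000000000 h9' (by decide) (by decide)
    have s2 := s1.snoc (by norm_num) (by decide) 0 0xff (w := x)
      (fun l _ => (hcx (0 + l)).1.symm)
      (fun j _ hb => by rw [tb_zero] at hb; exact absurd hb (by simp))
      (fun l _ _ => (hcx (0 + l)).2)
    exact h9 ⟨_, s2⟩
  · obtain rfl : m = 7 := by omega
    have s2 := (hc.sat7 0).snoc (by norm_num) (by decide) 0 0x7f (w := x)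
      (fun l _ => (hcx (0 + l)).1.symm)
      (fun j _ hb => by rw [tb_zero] at hb; exact absurd hb (by simp))
      (fun l _ _ => (hcx (0 + l)).2)
    exact h7 ⟨_, s2⟩

/-- **Triangle-free graphs without `P_1 + S_{1,1,3}` which are not 3-colourable contain one of
four graphs.** -/
theorem thmP [Finite V] (G : SimpleGraph V) (hK : ¬ Occ G gK3) (hS : ¬ Occ G gPS113)
    (hG : ¬ Occ G gGro) (h1 : ¬ Occ G gX1) (h2 : ¬ Occ G gX2) (h3 : ¬ Occ G gX3) :
    G.Colorable 3 := by
  by_contra hcol
  obtain ⟨W, hW⟩ := exists_crit G 3 hcol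
  have hK' : ¬ Occ (G.induce W) gK3 := fun h => hK h.of_induce
  have hS' : ¬ Occ (G.induce W) gPS113 := fun h => hS h.of_induce
  have hG' : ¬ Occ (G.induce W) gGro := fun h => hG h.of_induce
  have h1' : ¬ Occ (G.induce W) gX1 := fun h => h1 h.of_induce
  have h2' : ¬ Occ (G.induce W) gX2 := fun h => h2 h.of_induce
  have h3' : ¬ Occ (G.induce W) gX3 := fun h => h3 h.of_induce
  have hP := pats_P hK' hS' h1' h2' hG' h3'
  have hq := soundL (fun _ => hW.rules) (by simp) qL baseP hP okP
  have hq0 := hq (qp0, qt0) (by simp [qL])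
  have hq12 := hq (qp12, qt12) (by simp [qL])
  have hac := AC_of hW hK' (holeP hq12 hq0)
  have hr := soundL (fun _ => hW.rules) (fun _ => hac) rL (baseP ++ [qp0, qp12]) (by
    intro p hp
    rcases List.mem_append.1 hp with hp | hp
    · exact hP p hp
    · simp only [List.mem_cons, List.not_mem_nil, or_false] at hp
      rcases hp with rfl | rfl
      · exact hq0
      · exact hq12) okR (rp67, rt67) (by simp [rL])
  have hS123 : ¬ Occ (G.induce W) gS123 := by
    rintro ⟨f, hf⟩
    refine hr (conf_sound (img := 0 + 1 * 32 + 2 * 32 ^ 2 + 4 * 32 ^ 3 + 5 * 32 ^ 4 + 6 * 32 ^ 5)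
      hf ?_)
    decide +kernel
  have := thmS (G.induce W) hK' hS123 hG'
  rw [colorable_iff_PC] at this
  exact hW.not this

end Pool.Agent.B7219d
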