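import Mathlib
import Pool.Agent.B7219d.Struct2

/-!
# Four colours suffice; the critical graphs are not 3-colourable
-/

set_option autoImplicit false
set_option maxRecDepth 100000

namespace Pool.Agent.B7219d

open SimpleGraph

variable {V : Type*}

/-- The Groetzsch graph dominates critical graphs. -/
theorem gro_dom {G : SimpleGraph V} {k : ℕ} (h : Crit G k) {Q : ℕ × ℕ × ℕ}
    (hK : ¬ Occ G gK3) (hQ : ¬ Occ G Q)
    (hall : ∀ i < 11, ∃ t, chk [gK3, Q] false false t 13
      (snE (snE gGro.2.1 0 11) (2 ^ 11 + 2 ^ i) 12) (snE (snE gGro.2.2 0x7ff 11) 0 12) 0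
        .main = true)
    {f : ℕ → V} (hf : Sat G f 11 gGro.2.1 gGro.2.2) {x : V}
    (hx : ∀ i < 11, f i ≠ x ∧ ¬ G.Adj x (f i)) : False := by
  set R : Set V := {v | ∀ i < 11, f i ≠ v ∧ ¬ G.Adj v (f i)} with hR
  refine h.closed (K := R) ⟨x, hx⟩ (fun e => ?_) ?_
  · have : f 0 ∈ R := by rw [e]; trivial
    exact (this 0 (by norm_num)).1 rfl
  · intro z hz w hzw
    by_contra hw
    simp only [hR, Set.mem_ofPred_eq, not_forall] at hw
    obtain ⟨i, hi, hw⟩ := hw
    have hwf : ∀ j < 11, w ≠ f j := fun j hj e => (hz j hj).2 (e ▸ hzw)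
    have hwi : G.Adj w (f i) := by
      by_contra hcon
      exact hw ⟨(hwf i hi).symm, hcon⟩
    obtain ⟨t, ht⟩ := hall i hi
    have s2 := hf.snoc (by norm_num) (by decide) 0 0x7ff (w := z)
      (fun l hl => (hz l hl).1.symm)
      (fun j _ hb => by rw [tb_zero] at hb; exact absurd hb (by simp))
      (fun l hl _ => (hz l hl).2)
    set g : ℕ → V := Function.update f 11 z with hg
    have e7 : ∀ l < 11, g l = f l := fun l hl => Function.update_of_ne (by omega) _ _
    have e7' : g 11 = z := Function.update_self ..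
    have hbit : ∀ l < 11, tb (2 ^ 11 + 2 ^ i) l = true → l = i := by
      intro l hl hb
      rw [tb_eq, Nat.testBit_two_pow_add_gt (by omega), Nat.testBit_two_pow] at hb
      simpa using Eq.symm (of_decide_eq_true hb)
    have s3 := s2.snoc (by norm_num) (by decide) (2 ^ 11 + 2 ^ i) 0 (w := w)
      (fun l hl => by
        rcases Nat.lt_succ_iff_lt_or_eq.1 hl with hl | hl
        · rw [e7 l hl]; exact hwf _ hl
        · subst hl; rw [e7']; exact hzw.ne')
      (fun l hl hb => by
        rcases Nat.lt_succ_iff_lt_or_eq.1 hl with hl | hl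
        · obtain rfl := hbit l hl hb
          rw [e7 l hl]; exact hwi
        · subst hl; rw [e7']; exact hzw.symm)
      (fun j _ hb => by rw [tb_zero] at hb; exact absurd hb (by simp))
    exact sound (P := [gK3, Q]) (cr := false) (ac := false) (by
        intro p hp
        simp only [List.mem_cons, List.not_mem_nil, or_false] at hp
        rcases hp with rfl | rfl
        · exact hK
        · exact hQ) (by simp) (by simp) t 13 _ _ 0 .main ht (by norm_num) _ s3 (by simp) trivial

theorem domS : ∀ i < 11, ∃ t, chk [gK3, gS123] false false t 13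
    (snE (snE gGro.2.1 0 11) (2 ^ 11 + 2 ^ i) 12) (snE (snE gGro.2.2 0x7ff 11) 0 12) 0
      .main = true := by
  intro i hi
  interval_cases i
  · exact ⟨ut0, by decide +kernel⟩
  · exact ⟨ut1, by decide +kernel⟩
  · exact ⟨ut2, by decide +kernel⟩
  · exact ⟨ut3, by decide +kernel⟩
  · exact ⟨ut4, by decide +kernel⟩
  · exact ⟨ut5, by decide +kernel⟩
  · exact ⟨ut6, by decide +kernel⟩
  · exact ⟨ut7, by decide +kernel⟩
  · exact ⟨ut8, by decide +kernel⟩
  · exact ⟨ut9, by decide +kernel⟩
  · exact ⟨ut10, by decide +kernel⟩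

theorem domP : ∀ i < 11, ∃ t, chk [gK3, gPS113] false false t 13
    (snE (snE gGro.2.1 0 11) (2 ^ 11 + 2 ^ i) 12) (snE (snE gGro.2.2 0x7ff 11) 0 12) 0
      .main = true := by
  intro i hi
  interval_cases i
  · exact ⟨vt0, by decide +kernel⟩
  · exact ⟨vt1, by decide +kernel⟩
  · exact ⟨vt2, by decide +kernel⟩
  · exact ⟨vt3, by decide +kernel⟩
  · exact ⟨vt4, by decide +kernel⟩
  · exact ⟨vt5, by decide +kernel⟩
  · exact ⟨vt6, by decide +kernel⟩
  · exact ⟨vt7, by decide +kernel⟩
  · exact ⟨vt8, by decide +kernel⟩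
  · exact ⟨vt9, by decide +kernel⟩
  · exact ⟨vt10, by decide +kernel⟩

/-- If the graph on the vertices anticomplete to `x` is 3-colourable, the graph is
4-colourable. -/
theorem PC_four {G : SimpleGraph V} (hK : ¬ Occ G gK3) (x : V) (h : PC G 3 (anti G x)) :
    PC G 4 Set.univ := by
  classical
  obtain ⟨c, hc, hv⟩ := h
  refine ⟨fun v => if v = x then 0 else if G.Adj x v then 3 else c v, fun v _ => ?_,
    fun a _ b _ hab => ?_⟩
  · by_cases h1 : v = x
    · simp [h1]
    · by_cases h2 : G.Adj x v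
      · simp [h1, h2]
      · simp only [h1, h2, if_false]
        have := hc v ⟨h1, h2⟩
        omega
  · by_cases hax : a = x
    · subst hax
      simp only [if_true, hab.ne', if_false, hab]
      norm_num
    · by_cases hbx : b = x
      · subst hbx
        simp only [if_true, hab.ne, if_false, hab.symm]
        norm_num
      · simp only [hax, hbx, if_false]
        by_cases h1 : G.Adj x a
        · by_cases h2 : G.Adj x b
          · exact absurd (no_tri hK h1 hab h2) (by simp)
          · simp only [h1, h2, if_true, if_false]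
            have := hc b ⟨hbx, h2⟩
            omega
        · by_cases h2 : G.Adj x b
          · simp only [h1, h2, if_true, if_false]
            have := hc a ⟨hax, h1⟩
            omega
          · simp only [h1, h2, if_false]
            exact hv a ⟨hax, h1⟩ b ⟨hbx, h2⟩ hab

/-- A non-4-colourable graph contains a critical one, with a vertex anticomplete to a
non-3-colourable part. -/
theorem five_crit [Finite V] {G : SimpleGraph V} (hK : ¬ Occ G gK3) (h : ¬ G.Colorable 4) :
    ∃ W : Set V, Crit (G.induce W) 4 ∧ ∃ x : W,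
      ¬ ((G.induce W).induce (anti (G.induce W) x)).Colorable 3 := by
  obtain ⟨W, hW⟩ := exists_crit G 4 h
  have hne : Nonempty W := by
    by_contra hne
    rw [not_nonempty_iff] at hne
    exact hW.not ⟨fun _ => 0, fun v => (hne.false v).elim, fun v => (hne.false v).elim⟩
  obtain ⟨x⟩ := hne
  refine ⟨W, hW, x, fun hcol => ?_⟩
  obtain ⟨C⟩ := hcol
  classical
  refine hW.not (PC_four (fun h => hK h.of_induce) x ⟨fun v => if hv : v ∈ anti (G.induce W) x then
    (C ⟨v, hv⟩ : ℕ) else 0, fun v hv => ?_, fun a ha b hb hab heq => ?_⟩)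
  · simp only [hv, dite_true]; exact (C _).2
  · simp only [ha, hb, dite_true] at heq
    exact C.valid (v := ⟨a, ha⟩) (w := ⟨b, hb⟩) hab (Fin.ext heq)

theorem occ_anti {G : SimpleGraph V} {x : V} {p : ℕ × ℕ × ℕ}
    (h : Occ (G.induce (anti G x)) p) :
    ∃ f : ℕ → V, Sat G f p.1 p.2.1 p.2.2 ∧ ∀ i, f i ≠ x ∧ ¬ G.Adj x (f i) := by
  obtain ⟨f, hf⟩ := h
  exact ⟨fun i => f i, ⟨fun i hi j hj hij => hf.inj i hi j hj (Subtype.ext hij),
    fun i hi j hj hb => hf.adj i hi j hj hb, fun i hi j hj hb => hf.nadj i hi j hj hb⟩,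
    fun i => (f i).2⟩

/-- **Triangle-free graphs without `S_{1,2,3}` are 4-colourable.** -/
theorem fourS [Finite V] (G : SimpleGraph V) (hK : ¬ Occ G gK3) (hS : ¬ Occ G gS123) :
    G.Colorable 4 := by
  by_contra hcol
  obtain ⟨W, hW, x, hx⟩ := five_crit hK hcol
  have hK' : ¬ Occ (G.induce W) gK3 := fun h => hK h.of_induce
  have hS' : ¬ Occ (G.induce W) gS123 := fun h => hS h.of_induce
  refine hx (thmS _ (fun h => hK' h.of_induce) (fun h => hS' h.of_induce) fun h => ?_)
  obtain ⟨f, hf, hfx⟩ := occ_anti h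
  exact gro_dom hW hK' hS' domS hf fun i _ => hfx i

/-- **Triangle-free graphs without `P_1 + S_{1,1,3}` are 4-colourable.** -/
theorem fourP [Finite V] (G : SimpleGraph V) (hK : ¬ Occ G gK3) (hS : ¬ Occ G gPS113) :
    G.Colorable 4 := by
  by_contra hcol
  obtain ⟨W, hW, x, hx⟩ := five_crit hK hcol
  have hK' : ¬ Occ (G.induce W) gK3 := fun h => hK h.of_induce
  have hS' : ¬ Occ (G.induce W) gPS113 := fun h => hS h.of_induce
  have key : ∀ (p : ℕ × ℕ × ℕ) (img : ℕ), p.1 ≤ 31 → small p.1 p.2.1 p.2.2 = true →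
      conf gPS113 (p.1 + 1) (snE p.2.1 0 p.1) (snE p.2.2 (2 ^ p.1 - 1) p.1) img = true →
      ¬ Occ ((G.induce W).induce (anti (G.induce W) x)) p := by
    intro p img hp hs hc h
    obtain ⟨f, hf, hfx⟩ := occ_anti h
    have s := hf.snoc hp hs 0 (2 ^ p.1 - 1) (w := x) (fun i _ => (hfx i).1.symm)
      (fun j _ hb => by rw [tb_zero] at hb; exact absurd hb (by simp))
      (fun i _ _ => (hfx i).2)
    exact hS' (conf_sound s hc)
  refine hx (thmP _ (fun h => hK' h.of_induce) (fun h => hS' h.of_induce) (fun h => ?_)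
    (key gX1 13227954208 (by decide) (by decide) (by decide +kernel))
    (key gX2 13227954208 (by decide) (by decide) (by decide +kernel))
    (key gX3 14372967456 (by decide) (by decide) (by decide +kernel)))
  obtain ⟨f, hf, hfx⟩ := occ_anti h
  exact gro_dom hW hK' hS' domP hf fun i _ => hfx i

/-! ### The critical graphs are not 3-colourable -/

/-- Some colour in `{0,1,2}` for the vertices `i, i+1, …` (`fuel` many) extends the colouring packed
in `cols`. -/
def ext3 (E : ℕ) : ℕ → ℕ → ℕ → Bool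
  | 0, _, _ => true
  | fuel + 1, i, cols =>
    (all (fun j => !(tb E (32 * i + j)) || !(Nat.beq (dg cols j) 0)) i &&
      ext3 E fuel (i + 1) cols) ||
    ((all (fun j => !(tb E (32 * i + j)) || !(Nat.beq (dg cols j) 1)) i &&
      ext3 E fuel (i + 1) (cols + 1 * 32 ^ i)) ||
    (all (fun j => !(tb E (32 * i + j)) || !(Nat.beq (dg cols j) 2)) i &&
      ext3 E fuel (i + 1) (cols + 2 * 32 ^ i)))

theorem dg_eq (m a : ℕ) : dg m a = m / 32 ^ a % 32 := by
  unfold dg
  change (m >>> (5 * a)) &&& 31 = _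
  rw [Nat.shiftRight_eq_div_pow, show (31 : ℕ) = 2 ^ 5 - 1 by norm_num,
    Nat.and_two_pow_sub_one_eq_mod, pow_mul]
  norm_num

theorem ext3_sound {E n : ℕ} {c : ℕ → ℕ} (hc : ∀ i < n, c i < 3)
    (hE : ∀ i < n, ∀ j < i, tb E (32 * i + j) = true → c i ≠ c j) :
    ∀ (fuel i cols : ℕ), i + fuel = n → cols < 32 ^ i → (∀ j < i, dg cols j = c j) →
      ext3 E fuel i cols = true
  | 0, _, _, _, _, _ => rfl
  | fuel + 1, i, cols, hi, hlt, hcols => by
    have hci := hc i (by omega)
    have hnext : ∀ a < 32, cols + a * 32 ^ i < 32 ^ (i + 1) ∧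
        (∀ j < i, dg (cols + a * 32 ^ i) j = c j) ∧ dg (cols + a * 32 ^ i) i = a := by
      intro a ha
      refine ⟨?_, fun j hj => ?_, ?_⟩
      · rw [pow_succ]
        have : a * 32 ^ i ≤ 31 * 32 ^ i := Nat.mul_le_mul_right _ (by omega)
        omega
      · rw [← hcols j hj, dg_eq, dg_eq]
        obtain ⟨d, rfl⟩ := Nat.exists_eq_add_of_lt hj
        have e1 : a * 32 ^ (j + d + 1) = 32 ^ j * (a * 32 ^ d * 32) := by ring
        rw [e1, Nat.add_mul_div_left _ _ (by positivity)]
        omega
      · rw [dg_eq, Nat.add_mul_div_right _ _ (by positivity), Nat.div_eq_of_lt hlt]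
        omega
    have hok : ∀ a, c i = a → all (fun j => !(tb E (32 * i + j)) ||
        !(Nat.beq (dg cols j) a)) i = true := by
      intro a ha
      rw [all_iff]
      intro j hj
      rw [hcols j hj]
      rcases hb : tb E (32 * i + j) with _ | _
      · rfl
      · have := hE i (by omega) j hj hb
        rw [ha] at this
        have h2 : Nat.beq (c j) a = false := by
          rw [← Bool.not_eq_true, Nat.beq_eq]; exact this.symm
        simp [h2]
    simp only [ext3, Bool.or_eq_true, Bool.and_eq_true]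
    have h3 : ∀ a < 32, c i = a → ext3 E fuel (i + 1) (cols + a * 32 ^ i) = true := by
      intro a ha hca
      obtain ⟨g1, g2, g3⟩ := hnext a ha
      refine ext3_sound hc hE fuel (i + 1) _ (by omega) g1 fun j hj => ?_
      rcases Nat.lt_succ_iff_lt_or_eq.1 hj with hj | hj
      · exact g2 j hj
      · subst hj; rw [g3, hca]
    have hcase : c i = 0 ∨ c i = 1 ∨ c i = 2 := by omega
    rcases hcase with h0 | h0 | h0
    · left
      refine ⟨hok 0 h0, ?_⟩
      have := h3 0 (by norm_num) h0
      simpa using this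
    · right; left; exact ⟨hok 1 h0, h3 1 (by norm_num) h0⟩
    · right; right; exact ⟨hok 2 h0, h3 2 (by norm_num) h0⟩

theorem not_colorable_of {G : SimpleGraph V} {p : ℕ × ℕ × ℕ}
    (hp : ext3 p.2.1 p.1 0 0 = false) (h : Occ G p) : ¬ G.Colorable 3 := by
  rintro ⟨C⟩
  obtain ⟨f, hf⟩ := h
  have := ext3_sound (E := p.2.1) (n := p.1) (c := fun i => (C (f i) : ℕ))
    (fun i _ => (C (f i)).2) (fun i hi j hj hb heq => C.valid (hf.adj i hi j hj hb) (Fin.ext heq))
    p.1 0 0 (by omega) (by norm_num) (by simp)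
  rw [hp] at this
  exact absurd this (by simp)

theorem notcol_Gro {G : SimpleGraph V} (h : Occ G gGro) : ¬ G.Colorable 3 :=
  not_colorable_of (by decide +kernel) h
theorem notcol_X1 {G : SimpleGraph V} (h : Occ G gX1) : ¬ G.Colorable 3 :=
  not_colorable_of (by decide +kernel) h
theorem notcol_X2 {G : SimpleGraph V} (h : Occ G gX2) : ¬ G.Colorable 3 :=
  not_colorable_of (by decide +kernel) h
theorem notcol_X3 {G : SimpleGraph V} (h : Occ G gX3) : ¬ G.Colorable 3 :=
  not_colorable_of (by decide +kernel) h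

end Pool.Agent.B7219d
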