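import Mathlib
import Pool.Agent.B7219d.PTClosure

/-!
# A convenient form of the closure theorem
-/

set_option autoImplicit false

namespace Pool.Agent.B7219d

open Pool.Agent.PT
open Turing Computability

variable {Γ : Type}

/-- Deciding `A x ∨ (B x ∧ ∀ v < N x, s v` does not reach `t v)`. -/
theorem polyTime_closure_all {α : Type} [Fintype Γ] (ea : α → List Γ) {M N : List Γ → ℕ}
    {E : List Γ → ℕ → ℕ → Prop} {A B : List Γ → Prop} {s t : ℕ → ℕ}
    (hM : UF (fun x _ => M x)) (hN : UF (fun x _ => N x))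
    (hE : UP (fun x e => E x (e 0) (e 1))) (hA : UP (fun x _ => A x)) (hB : UP (fun x _ => B x))
    (hs : UF (Γ := Γ ⊕ Bool) (fun _ e => s (e 0))) (ht : UF (Γ := Γ ⊕ Bool) (fun _ e => t (e 0)))
    (hst : ∀ x v, v < N x → s v < M x ∧ t v < M x) (f : α → Bool)
    (hf : ∀ a, f a = true ↔ A (ea a) ∨ (B (ea a) ∧ ∀ v, v < N (ea a) → ¬ Relation.ReflTransGen
      (fun i j => i < M (ea a) ∧ j < M (ea a) ∧ E (ea a) i j) (s v) (t v))) :
    Nonempty (TM2ComputableInPolyTime ea encodeBool f) := by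
  obtain ⟨M', hM', hM'e⟩ := UF.lift hM
  obtain ⟨N', hN', hN'e⟩ := UF.lift hN
  obtain ⟨A', hA', hA'e⟩ := UP.lift hA
  obtain ⟨B', hB', hB'e⟩ := UP.lift hB
  have z : ∀ {F : List (Γ ⊕ Bool) → (ℕ → ℕ) → ℕ}, UF F → UF (fun y _ => F y (fun _ => 0)) :=
    fun hF => UF.subst hF (fun _ _ _ => 0) (fun _ => UF.const 0)
  have zP : ∀ {F : List (Γ ⊕ Bool) → (ℕ → ℕ) → Prop}, UP F → UP (fun y _ => F y (fun _ => 0)) :=
    fun hF => UF.subst hF (fun _ _ _ => 0) (fun _ => UF.const 0)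
  refine polyTime_closure ea hM hE (R := fun y => A' y (fun _ => 0) ∨ (B' y (fun _ => 0) ∧
    ∀ v, v < N' y (fun _ => 0) →
      ¬ y[lenx y + (s v * M' y (fun _ => 0) + t v)]? = some (Sum.inr true))) ?_ f fun a => ?_
  · refine (zP hA').or ((zP hB').and ?_)
    refine UP.ball (P := fun y _ v => ¬ y[lenx y + (s v * M' y (fun _ => 0) + t v)]? =
      some (Sum.inr true)) (z hN') ?_
    exact (UP.sym _ (UF_lenx.add ((hs.mul (z hM')).add ht))).not
  · rw [hf a]
    set x := ea a with hx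
    simp only [hA'e, hB'e, hN'e, hM'e, lenx_emb]
    refine or_congr_right (and_congr_right fun _ => forall_congr' fun v =>
      forall_congr' fun hv => not_congr ?_)
    rw [tbl_get _ x (hst x v hv).1 (hst x v hv).2]

end Pool.Agent.B7219d
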