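import Mathlib

/-!
# Colouring paw-free graphs: reduction to the triangle-free part (Olariu)
-/

set_option autoImplicit false

namespace Pool.Agent.B7219d

open SimpleGraph

/-- `u` and `v` are equal, or non-adjacent with a common neighbour. -/
def SP {n : ℕ} (G : SimpleGraph (Fin n)) (u v : Fin n) : Prop :=
  u = v ∨ (¬ G.Adj u v ∧ ∃ z, G.Adj u z ∧ G.Adj v z)

/-- `v` lies in a triangle. -/
def Tri {n : ℕ} (G : SimpleGraph (Fin n)) (v : Fin n) : Prop :=
  ∃ a b, G.Adj v a ∧ G.Adj v b ∧ G.Adj a b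

/-- `r` is the first vertex of its part, in the component of `w`. -/
def Rep {n : ℕ} (G : SimpleGraph (Fin n)) (w r : Fin n) : Prop :=
  (G.Adj w r ∨ SP G w r) ∧ ∀ r' < r, ¬ SP G r' r

theorem SP.symm {n : ℕ} {G : SimpleGraph (Fin n)} {u v : Fin n} (h : SP G u v) : SP G v u := by
  rcases h with rfl | ⟨h1, z, h2, h3⟩
  · exact Or.inl rfl
  · exact Or.inr ⟨fun h => h1 h.symm, z, h3, h2⟩

theorem SP.refl {n : ℕ} {G : SimpleGraph (Fin n)} (u : Fin n) : SP G u u := Or.inl rfl

section
variable {n : ℕ} {G : SimpleGraph (Fin n)}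
  (hpaw : ∀ a b c d, G.Adj a b → G.Adj b c → G.Adj a c → G.Adj c d → d ≠ a → d ≠ b →
      G.Adj d a ∨ G.Adj d b)
include hpaw

/-- A neighbour of a triangle vertex is adjacent to another vertex of the triangle. -/
theorem nb {v a b u : Fin n} (hva : G.Adj v a) (hvb : G.Adj v b) (hab : G.Adj a b)
    (hvu : G.Adj v u) : G.Adj u a ∨ G.Adj u b := by
  by_cases h1 : u = a
  · right; rw [h1]; exact hab
  by_cases h2 : u = b
  · left; rw [h2]; exact hab.symm
  exact hpaw a b v u hab hvb.symm hva.symm hvu h1 h2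

theorem Tri.adj {u v : Fin n} (hv : Tri G v) (h : G.Adj v u) : Tri G u := by
  obtain ⟨a, b, h1, h2, h3⟩ := hv
  rcases nb hpaw h1 h2 h3 h with h4 | h4
  · exact ⟨v, a, h.symm, h4, h1⟩
  · exact ⟨v, b, h.symm, h4, h2⟩

/-- An edge at a triangle vertex lies in a triangle. -/
theorem Tri.edge {u z : Fin n} (hu : Tri G z) (h : G.Adj z u) : ∃ a, G.Adj u a ∧ G.Adj z a := by
  obtain ⟨a, b, h1, h2, h3⟩ := hu
  rcases nb hpaw h1 h2 h3 h with h4 | h4
  · exact ⟨a, h4, h1⟩
  · exact ⟨b, h4, h2⟩

theorem SP.nbr {u v : Fin n} (hu : Tri G u) (h : SP G u v) {y : Fin n} (hy : G.Adj u y) :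
    G.Adj v y := by
  rcases h with rfl | ⟨huv, z, h1, h2⟩
  · exact hy
  by_contra hvy
  by_cases hyz : G.Adj y z
  · -- triangle u, y, z and v ~ z
    rcases nb hpaw h1.symm hyz.symm hy h2.symm with h3 | h3
    · exact huv h3.symm
    · exact hvy h3
  · have hz := hu.adj hpaw h1
    obtain ⟨a, hua, hza⟩ := hz.edge hpaw h1.symm
    have hyz' : ¬ G.Adj z y := fun h => hyz h.symm
    -- triangle z, u, a ; v ~ z
    have hva : G.Adj v a := by
      rcases nb hpaw h1.symm hza hua h2.symm with h3 | h3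
      · exact absurd h3.symm huv
      · exact h3
    -- triangle u, z, a ; y ~ u
    have hya : G.Adj y a := by
      rcases nb hpaw h1 hua hza hy with h3 | h3
      · exact absurd h3 hyz
      · exact h3
    -- triangle a, v, z ; y ~ a
    rcases nb hpaw hva.symm hza.symm h2 hya.symm with h3 | h3
    · exact hvy h3.symm
    · exact hyz h3

theorem SP.tri {u v : Fin n} (hu : Tri G u) (h : SP G u v) : Tri G v := by
  obtain ⟨a, b, h1, h2, h3⟩ := hu
  have hu : Tri G u := ⟨a, b, h1, h2, h3⟩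
  exact ⟨a, b, h.nbr hpaw hu h1, h.nbr hpaw hu h2, h3⟩

theorem SP.trans {u v w : Fin n} (hu : Tri G u) (h1 : SP G u v) (h2 : SP G v w) : SP G u w := by
  have hv := h1.tri hpaw hu
  by_cases huw : u = w
  · exact Or.inl huw
  right
  obtain ⟨a, b, h3, h4, h5⟩ := hu
  have hu : Tri G u := ⟨a, b, h3, h4, h5⟩
  refine ⟨fun h => ?_, a, h3, h2.nbr hpaw hv (h1.nbr hpaw hu h3)⟩
  -- u ~ w, so v ~ w, but SP v w
  have hvw := h1.nbr hpaw hu h
  rcases h2 with rfl | ⟨h6, _⟩
  · exact hvw.ne rfl
  · exact h6 hvw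

/-- Adjacent or in the same part. -/
theorem D_step {u v r : Fin n} (hu : Tri G u) (huv : G.Adj u v) (h : G.Adj u r ∨ SP G u r) :
    G.Adj v r ∨ SP G v r := by
  rcases h with h | h
  · by_cases hvr : G.Adj v r
    · exact Or.inl hvr
    · right
      by_cases hvr' : v = r
      · exact Or.inl hvr'
      · exact Or.inr ⟨hvr, u, huv.symm, h.symm⟩
  · left
    exact (h.nbr hpaw hu huv).symm

theorem Rep_adj {u v r : Fin n} (hu : Tri G u) (huv : G.Adj u v) : Rep G u r ↔ Rep G v r := by
  have hv := hu.adj hpaw huv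
  exact and_congr_left fun _ => ⟨D_step hpaw hu huv, D_step hpaw hv huv.symm⟩

theorem Rep_ne_adj {w r s : Fin n} (hw : Tri G w) (hr : Rep G w r) (hs : Rep G w s)
    (hne : r < s) : G.Adj r s := by
  by_contra hadj
  have hn : ¬ SP G r s := hs.2 r hne
  refine hn ?_
  rcases hr.1 with h1 | h1
  · rcases hs.1 with h2 | h2
    · exact Or.inr ⟨hadj, w, h1.symm, h2.symm⟩
    · exact absurd (h2.nbr hpaw hw h1).symm hadj
  · rcases hs.1 with h2 | h2
    · exact absurd (h1.nbr hpaw hw h2) hadj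
    · exact h1.symm.trans hpaw (h1.tri hpaw hw) h2

end

open Classical in
/-- The first vertex of the part of `v`. -/
noncomputable def rep {n : ℕ} (G : SimpleGraph (Fin n)) (v : Fin n) : Fin n :=
  (Finset.univ.filter fun r => SP G r v).min' ⟨v, by simp [SP.refl]⟩

theorem rep_SP {n : ℕ} (G : SimpleGraph (Fin n)) (v : Fin n) : SP G (rep G v) v := by
  classical
  have := Finset.min'_mem (Finset.univ.filter fun r => SP G r v) ⟨v, by simp [SP.refl]⟩
  exact (Finset.mem_filter.1 this).2

theorem rep_min {n : ℕ} (G : SimpleGraph (Fin n)) (v r : Fin n) (h : SP G r v) :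
    rep G v ≤ r := by
  classical
  exact Finset.min'_le _ _ (by simp [h])

/-- For a paw-free graph (hypothesis `hpaw`): `G` is `k`-colourable iff its triangle-free part is
and every component with a triangle has at most `k` parts. -/
theorem paw_iff {n k : ℕ} (G : SimpleGraph (Fin n))
    (hpaw : ∀ a b c d, G.Adj a b → G.Adj b c → G.Adj a c → G.Adj c d → d ≠ a → d ≠ b →
      G.Adj d a ∨ G.Adj d b) :
    G.Colorable k ↔ (∀ w, Tri G w → {r | Rep G w r}.ncard ≤ k) ∧
      (G.induce {v | ¬ Tri G v}).Colorable k := by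
  classical
  have hrep : ∀ v, Tri G v → Rep G v (rep G v) := by
    intro v hv
    refine ⟨Or.inr (rep_SP G v).symm, fun r' hr' h => ?_⟩
    have h1 := (rep_SP G v).symm.tri hpaw hv
    have h2 := h.symm.tri hpaw h1
    exact absurd (rep_min G v r' (h.trans hpaw h2 (rep_SP G v))) (not_le.2 hr')
  have hne : ∀ u v, Tri G u → G.Adj u v → rep G u ≠ rep G v := by
    intro u v hu huv h
    have h1 := (rep_SP G u).symm
    have h2 := rep_SP G v
    rw [← h] at h2
    have h3 := h1.trans hpaw hu h2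
    rcases h3 with rfl | ⟨h4, _⟩
    · exact huv.ne rfl
    · exact h4 huv
  constructor
  · rintro ⟨C⟩
    refine ⟨fun w hw => ?_, ⟨⟨fun v => C v, fun {a b} hab => C.valid hab⟩⟩⟩
    have hinj : Set.InjOn C {r | Rep G w r} := by
      intro r hr s hs hrs
      rcases lt_trichotomy r s with h | h | h
      · exact absurd hrs (C.valid (Rep_ne_adj hpaw hw hr hs h))
      · exact h
      · exact absurd hrs.symm (C.valid (Rep_ne_adj hpaw hw hs hr h))
    calc {r | Rep G w r}.ncard = (C '' {r | Rep G w r}).ncard := hinj.ncard_image.symm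
      _ ≤ (Set.univ : Set (Fin k)).ncard := Set.ncard_le_ncard (Set.subset_univ _) (Set.toFinite _)
      _ = k := by rw [Set.ncard_univ, Nat.card_eq_fintype_card, Fintype.card_fin]
  · rintro ⟨h1, ⟨C⟩⟩
    have hlt : ∀ v, Tri G v → {r | Rep G v r ∧ r < rep G v}.ncard < k := by
      intro v hv
      refine lt_of_lt_of_le (Set.ncard_lt_ncard ?_ (Set.toFinite _)) (h1 v hv)
      refine ⟨fun r hr => hr.1, fun h => ?_⟩
      exact lt_irrefl _ (h (hrep v hv)).2
    refine ⟨⟨fun v => if hv : Tri G v then ⟨_, hlt v hv⟩ else C ⟨v, hv⟩, fun {u v} huv heq => ?_⟩⟩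
    by_cases hu : Tri G u
    · have hv := hu.adj hpaw huv
      simp only [hu, hv, dite_true, Fin.mk.injEq] at heq
      -- WLOG compare
      have hsame : ∀ r, Rep G u r ↔ Rep G v r := fun r => Rep_adj hpaw hu huv
      have hmono : ∀ a b : Fin n, Rep G u a → a < b →
          {r | Rep G u r ∧ r < a}.ncard < {r | Rep G u r ∧ r < b}.ncard := by
        intro a b ha hab
        refine Set.ncard_lt_ncard ⟨fun r hr => ⟨hr.1, hr.2.trans hab⟩, fun h => ?_⟩
          (Set.toFinite _)
        exact lt_irrefl _ (h ⟨ha, hab⟩).2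
      have heq' : {r | Rep G u r ∧ r < rep G u}.ncard = {r | Rep G u r ∧ r < rep G v}.ncard := by
        rw [heq]; congr 1; ext r; simp only [Set.mem_ofPred_eq, hsame]
      have hru := hrep u hu
      have hrv : Rep G u (rep G v) := (hsame _).2 (hrep v hv)
      rcases lt_trichotomy (rep G u) (rep G v) with h | h | h
      · exact absurd heq' (hmono _ _ hru h).ne
      · exact hne u v hu huv h
      · exact absurd heq'.symm (hmono _ _ hrv h).ne
    · have hv : ¬ Tri G v := fun hv => hu (hv.adj hpaw huv.symm)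
      simp only [hu, hv, dite_false] at heq
      exact C.valid (v := ⟨u, hu⟩) (w := ⟨v, hv⟩) huv heq

end Pool.Agent.B7219d
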