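import Mathlib
import Pool.Agent.B7219d.PTAll
import Pool.Agent.B7219d.Enc
import Pool.Agent.B7219d.Paw
import Pool.Agent.B7219d.Four

/-!
# The decision formula
-/

set_option autoImplicit false
set_option maxRecDepth 100000

namespace Pool.Agent.B7219d

open Pool.Agent.PT
open SimpleGraph Turing Computability

/-! ### Word level -/

/-- In a triangle. -/
def wTri (x : List Al) (w : ℕ) : Prop :=
  ∃ a, a < nn x ∧ ∃ b, b < nn x ∧ (aj x w a ∧ (aj x w b ∧ aj x a b))

theorem UP_wTri : UP (fun x e => wTri x (e 0)) := by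
  refine UP.bex (P := fun x e a => ∃ b, b < nn x ∧ (aj x (e 0) a ∧ (aj x (e 0) b ∧ aj x a b)))
    UF_nn ?_
  refine UP.bex (P := fun x e b => aj x (e 1) (e 0) ∧ (aj x (e 1) b ∧ aj x (e 0) b)) UF_nn ?_
  exact (UP.comp₂ UP_aj (UF.var 2) (UF.var 1)).and ((UP.comp₂ UP_aj (UF.var 2) (UF.var 0)).and
    (UP.comp₂ UP_aj (UF.var 1) (UF.var 0)))

/-- Equal, or non-adjacent with a common neighbour. -/
def wSP (x : List Al) (u v : ℕ) : Prop :=
  u = v ∨ (¬ aj x u v ∧ ∃ z, z < nn x ∧ (aj x u z ∧ aj x v z))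

theorem UP_wSP : UP (fun x e => wSP x (e 0) (e 1)) := by
  refine (UP.eq (UF.var 0) (UF.var 1)).or (UP_aj.not.and ?_)
  refine UP.bex (P := fun x e z => aj x (e 0) z ∧ aj x (e 1) z) UF_nn ?_
  exact (UP.comp₂ UP_aj (UF.var 1) (UF.var 0)).and (UP.comp₂ UP_aj (UF.var 2) (UF.var 0))

/-- First vertex of its part. -/
def wRep (x : List Al) (w r : ℕ) : Prop :=
  (aj x w r ∨ wSP x w r) ∧ ∀ r', r' < r → ¬ wSP x r' r

theorem UP_wRep : UP (fun x e => wRep x (e 0) (e 1)) := by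
  refine (UP_aj.or UP_wSP).and (UP.ball (P := fun x e r' => ¬ wSP x r' (e 1)) (UF.var 1) ?_)
  exact (UP.comp₂ UP_wSP (UF.var 0) (UF.var 2)).not

open Classical in
/-- The number of parts. -/
noncomputable def wR (x : List Al) (w : ℕ) : ℕ :=
  ∑ r ∈ Finset.range (nn x), if wRep x w r then 1 else 0

theorem UF_wR : UF (fun x e => wR x (e 0)) := by
  classical
  refine UF.sum (f := fun x e r => if wRep x (e 0) r then 1 else 0) UF_nn ?_
  exact UF.ite (inst := fun _ _ => _) (UP.comp₂ UP_wRep (UF.var 1) (UF.var 0)) (UF.const 1)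
    (UF.const 0)

/-- Finite conjunctions. -/
theorem UP_fall {Γ : Type} {P : ℕ → List Γ → (ℕ → ℕ) → Prop} : ∀ m : ℕ, (∀ i < m, UP (P i)) →
    UP (fun x e => ∀ i < m, P i x e)
  | 0, _ => UP.true.congr fun x e => by simp
  | m + 1, h => by
    refine ((UP_fall m fun i hi => h i (by omega)).and (h m (by omega))).congr fun x e => ?_
    constructor
    · rintro ⟨h1, h2⟩ i hi
      rcases Nat.lt_succ_iff_lt_or_eq.1 hi with h3 | h3
      · exact h1 i h3
      · subst h3; exact h2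
    · exact fun h => ⟨fun i hi => h i (by omega), h m (by omega)⟩

/-- The pattern is matched by the variables. -/
def pat (p : ℕ × ℕ × ℕ) (x : List Al) (e : ℕ → ℕ) : Prop :=
  ∀ i < p.1, ∀ j < i, ¬ e i = e j ∧ ((tb p.2.1 (32 * i + j) = true → aj x (e i) (e j)) ∧
    (tb p.2.2 (32 * i + j) = true → ¬ aj x (e i) (e j)))

theorem UP_pat (p : ℕ × ℕ × ℕ) : UP (pat p) := by
  refine UP_fall (P := fun i x e => ∀ j < i, ¬ e i = e j ∧
    ((tb p.2.1 (32 * i + j) = true → aj x (e i) (e j)) ∧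
    (tb p.2.2 (32 * i + j) = true → ¬ aj x (e i) (e j)))) _ fun i _ => ?_
  refine UP_fall (P := fun j x e => ¬ e i = e j ∧
    ((tb p.2.1 (32 * i + j) = true → aj x (e i) (e j)) ∧
    (tb p.2.2 (32 * i + j) = true → ¬ aj x (e i) (e j)))) _ fun j _ => ?_
  exact (UP.eq (UF.var i) (UF.var j)).not.and
    (((UP.const _).imp (UP.comp₂ UP_aj (UF.var i) (UF.var j))).and
      ((UP.const _).imp (UP.comp₂ UP_aj (UF.var i) (UF.var j)).not))

/-- Repeated existential quantification over vertices. -/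
def exs (P : List Al → (ℕ → ℕ) → Prop) : ℕ → List Al → (ℕ → ℕ) → Prop
  | 0, x, e => P x e
  | m + 1, x, e => ∃ i, i < nn x ∧ exs P m x (cons i e)

theorem UP_exs {P : List Al → (ℕ → ℕ) → Prop} (hP : UP P) : ∀ m, UP (exs P m)
  | 0 => hP
  | m + 1 => by
    refine UP.bex (P := fun x e i => exs P m x (cons i e)) UF_nn ?_
    refine (UP_exs hP m).congr fun x e => ?_
    have : cons (e 0) (fun i => e (i + 1)) = e := by
      funext i; cases i <;> rfl
    simp only [this]

theorem exs_iff {P : List Al → (ℕ → ℕ) → Prop} : ∀ (m : ℕ) (x : List Al) (e : ℕ → ℕ),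
    exs P m x e ↔ ∃ e' : ℕ → ℕ, (∀ i < m, e' i < nn x) ∧ (∀ i, e' (i + m) = e i) ∧ P x e'
  | 0, x, e => by
    constructor
    · intro h
      exact ⟨e, fun i hi => absurd hi (by omega), fun i => rfl, h⟩
    · rintro ⟨e', _, h, hP⟩
      have : e' = e := funext h
      rw [this] at hP; exact hP
  | m + 1, x, e => by
    simp only [exs, exs_iff m]
    constructor
    · rintro ⟨i, hi, e', h1, h2, h3⟩
      refine ⟨e', fun j hj => ?_, fun j => ?_, h3⟩
      · rcases Nat.lt_succ_iff_lt_or_eq.1 hj with h | h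
        · exact h1 j h
        · subst h
          have := h2 0
          simp only [Nat.zero_add, cons_zero] at this
          rw [this]; exact hi
      · have := h2 (j + 1)
        rw [cons_succ] at this
        rw [← this]
        congr 1
        omega
    · rintro ⟨e', h1, h2, h3⟩
      refine ⟨e' m, h1 m (by omega), e', fun j hj => h1 j (by omega), fun j => ?_, h3⟩
      rcases j with _ | j
      · simp
      · rw [cons_succ, ← h2 j]
        congr 1
        omega

/-- The pattern occurs. -/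
def wOcc (p : ℕ × ℕ × ℕ) (x : List Al) : Prop := exs (pat p) p.1 x (fun _ => 0)

theorem UP_wOcc (p : ℕ × ℕ × ℕ) : UP (fun x _ => wOcc p x) :=
  UF.subst (UP_exs (UP_pat p) p.1) (fun _ _ _ => 0) (fun _ => UF.const 0)

/-- The part of the decision formula without reachability. -/
def fA (x : List Al) : Prop :=
  (kk x = 0 ∧ nn x = 0) ∨ ((kk x = 1 ∧ ∀ i, i < nn x → ∀ j, j < nn x → ¬ aj x i j) ∨
    (3 ≤ kk x ∧ ((∀ w, w < nn x → (wTri x w → wR x w ≤ kk x)) ∧
      (kk x = 3 → (¬ wOcc gGro x ∧ (¬ wOcc gX1 x ∧ (¬ wOcc gX2 x ∧ ¬ wOcc gX3 x)))))))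

theorem UP_fA : UP (fun x _ => fA x) := by
  refine ((UP.eq UF_kk (UF.const 0)).and (UP.eq UF_nn (UF.const 0))).or
    (((UP.eq UF_kk (UF.const 1)).and ?_).or ((UP.le (UF.const 3) UF_kk).and (UP.and ?_ ?_)))
  · refine UP.ball (P := fun x _ i => ∀ j, j < nn x → ¬ aj x i j) UF_nn ?_
    refine UP.ball (P := fun x e j => ¬ aj x (e 0) j) UF_nn ?_
    exact (UP.comp₂ UP_aj (UF.var 1) (UF.var 0)).not
  · refine UP.ball (P := fun x _ w => wTri x w → wR x w ≤ kk x) UF_nn ?_
    exact UP_wTri.imp (UP.le UF_wR UF_kk)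
  · exact (UP.eq UF_kk (UF.const 3)).imp ((UP_wOcc _).not.and ((UP_wOcc _).not.and
      ((UP_wOcc _).not.and (UP_wOcc _).not)))

/-- Edges of the bipartite double cover. -/
def fE (x : List Al) (a b : ℕ) : Prop := aj x (a / 2) (b / 2) ∧ ¬ a % 2 = b % 2

theorem UP_fE : UP (fun x e => fE x (e 0) (e 1)) :=
  (UP.comp₂ UP_aj (UF.div (UF.var 0) (UF.const 2)) (UF.div (UF.var 1) (UF.const 2))).and
    (UP.eq (UF.mod (UF.var 0) (UF.const 2)) (UF.mod (UF.var 1) (UF.const 2))).not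

/-- The decision formula. -/
def fD (x : List Al) : Prop := fA x ∨ (kk x = 2 ∧ ∀ v, v < nn x → ¬ Relation.ReflTransGen
  (fun i j => i < 2 * nn x ∧ j < 2 * nn x ∧ fE x i j) (2 * v) (2 * v + 1))

/-- **The decision formula is evaluated in polynomial time.** -/
theorem polyTime_fD (f : Inst → Bool) (hf : ∀ I, f I = true ↔ fD (enc I)) :
    Nonempty (TM2ComputableInPolyTime enc encodeBool f) :=
  polyTime_closure_all enc (M := fun x => 2 * nn x) (N := nn) (E := fE) (A := fA)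
    (B := fun x => kk x = 2) (s := fun v => 2 * v) (t := fun v => 2 * v + 1)
    ((UF.const 2).mul UF_nn) UF_nn UP_fE UP_fA (UP.eq UF_kk (UF.const 2))
    ((UF.const 2).mul (UF.var 0)) (((UF.const 2).mul (UF.var 0)).add (UF.const 1))
    (fun x v hv => by omega) f hf

/-! ### Translation to graphs -/

theorem wTri_enc (I : Inst) (w : Fin I.n) : wTri (enc I) w ↔ Tri I.G w := by
  unfold wTri Tri
  rw [nn_enc]
  constructor
  · rintro ⟨a, ha, b, hb, h1, h2, h3⟩
    exact ⟨⟨a, ha⟩, ⟨b, hb⟩, (aj_enc I w ⟨a, ha⟩).1 h1, (aj_enc I w ⟨b, hb⟩).1 h2,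
      (aj_enc I ⟨a, ha⟩ ⟨b, hb⟩).1 h3⟩
  · rintro ⟨a, b, h1, h2, h3⟩
    exact ⟨a, a.2, b, b.2, (aj_enc I w a).2 h1, (aj_enc I w b).2 h2, (aj_enc I a b).2 h3⟩

theorem wSP_enc (I : Inst) (u v : Fin I.n) : wSP (enc I) u v ↔ SP I.G u v := by
  unfold wSP SP
  rw [nn_enc, aj_enc]
  refine or_congr (by rw [Fin.ext_iff]) (and_congr_right fun _ => ?_)
  constructor
  · rintro ⟨z, hz, h1, h2⟩
    exact ⟨⟨z, hz⟩, (aj_enc I u ⟨z, hz⟩).1 h1, (aj_enc I v ⟨z, hz⟩).1 h2⟩
  · rintro ⟨z, h1, h2⟩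
    exact ⟨z, z.2, (aj_enc I u z).2 h1, (aj_enc I v z).2 h2⟩

theorem wRep_enc (I : Inst) (w r : Fin I.n) : wRep (enc I) w r ↔ Rep I.G w r := by
  unfold wRep Rep
  rw [aj_enc, wSP_enc]
  refine and_congr_right fun _ => ?_
  constructor
  · intro h r' hr'
    rw [← wSP_enc]
    exact h r' hr'
  · intro h r' hr'
    have := h ⟨r', hr'.trans r.2⟩ hr'
    rwa [← wSP_enc] at this

theorem wR_enc (I : Inst) (w : Fin I.n) : wR (enc I) w = {r | Rep I.G w r}.ncard := by
  classical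
  unfold wR
  rw [nn_enc, Finset.sum_range]
  simp only [wRep_enc]
  rw [← Finset.sum_filter, Finset.sum_const, smul_eq_mul, mul_one, Set.ncard_eq_toFinset_card']
  congr 1
  ext r
  simp

theorem wOcc_enc (I : Inst) (p : ℕ × ℕ × ℕ) (hp : 0 < p.1) : wOcc p (enc I) ↔ Occ I.G p := by
  unfold wOcc
  rw [exs_iff]
  rw [nn_enc]
  constructor
  · rintro ⟨e, h1, _, h3⟩
    have hn : 0 < I.n := (Nat.zero_le _).trans_lt (h1 0 hp)
    refine ⟨fun i => if h : e i < I.n then ⟨e i, h⟩ else ⟨0, hn⟩, fun i hi j hj => ?_,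
      fun i hi j hj hb => ?_, fun i hi j hj hb => ?_⟩
    · simp only [h1 i hi, h1 j (by omega), dite_true]
      intro h
      exact (h3 i hi j hj).1 (congrArg Fin.val h)
    · simp only [h1 i hi, h1 j (by omega), dite_true]
      exact (aj_enc I ⟨e i, h1 i hi⟩ ⟨e j, h1 j (by omega)⟩).1 ((h3 i hi j hj).2.1 hb)
    · simp only [h1 i hi, h1 j (by omega), dite_true]
      exact fun h => (h3 i hi j hj).2.2 hb ((aj_enc I ⟨e i, h1 i hi⟩ ⟨e j, h1 j (by omega)⟩).2 h)
  · rintro ⟨f, hf⟩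
    refine ⟨fun i => if i < p.1 then f i else 0, fun i hi => ?_, fun i => ?_,
      fun i hi j hj => ⟨?_, fun hb => ?_, fun hb => ?_⟩⟩
    · simp only [hi, if_true]; exact (f i).2
    · simp
    · simp only [hi, hj.trans hi, if_true]
      exact fun h => hf.inj i hi j hj (Fin.ext h)
    · simp only [hi, hj.trans hi, if_true]
      exact (aj_enc I _ _).2 (hf.adj i hi j hj hb)
    · simp only [hi, hj.trans hi, if_true]
      exact fun h => hf.nadj i hi j hj hb ((aj_enc I _ _).1 h)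

/-- Walks and reachability in the double cover. -/
theorem reach_of_walk (I : Inst) : ∀ {u v : Fin I.n} (w : I.G.Walk u v) (p : ℕ), p < 2 →
    Relation.ReflTransGen (fun i j => i < 2 * I.n ∧ j < 2 * I.n ∧ fE (enc I) i j) (2 * u + p)
      (2 * v + (p + w.length) % 2)
  | u, _, .nil, p, hp => by
    rw [Walk.length_nil, Nat.add_zero, Nat.mod_eq_of_lt hp]
  | u, v, .cons (v := z) h w, p, hp => by
    have h1 := reach_of_walk I w ((p + 1) % 2) (Nat.mod_lt _ (by norm_num))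
    have e1 : ((p + 1) % 2 + w.length) % 2 = (p + (Walk.cons h w).length) % 2 := by
      rw [Walk.length_cons]; omega
    rw [e1] at h1
    refine Relation.ReflTransGen.head ⟨?_, ?_, ?_, ?_⟩ h1
    · have := u.2; omega
    · have := z.2; omega
    · have e2 : (2 * (u : ℕ) + p) / 2 = u := by omega
      have e3 : (2 * (z : ℕ) + (p + 1) % 2) / 2 = z := by omega
      rw [e2, e3, aj_enc]; exact h
    · omega

theorem walk_of_reach (I : Inst) {a b : ℕ} (h : Relation.ReflTransGen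
    (fun i j => i < 2 * I.n ∧ j < 2 * I.n ∧ fE (enc I) i j) a b) (ha : a < 2 * I.n) :
    ∃ (hb : b < 2 * I.n) (w : I.G.Walk ⟨a / 2, by omega⟩ ⟨b / 2, by omega⟩),
      (a + b + w.length) % 2 = 0 := by
  induction h with
  | refl => exact ⟨ha, .nil, by rw [Walk.length_nil]; omega⟩
  | tail _ h2 ih =>
    rename_i b c _
    obtain ⟨hb, w, hw⟩ := ih
    obtain ⟨_, hc, h3, h4⟩ := h2
    have hadj : I.G.Adj ⟨b / 2, by omega⟩ ⟨c / 2, by omega⟩ :=
      (aj_enc I ⟨b / 2, by omega⟩ ⟨c / 2, by omega⟩).1 h3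
    exact ⟨hc, w.concat hadj, by rw [Walk.length_concat]; omega⟩

theorem two_iff (I : Inst) : I.G.Colorable 2 ↔ ∀ v, v < I.n → ¬ Relation.ReflTransGen
    (fun i j => i < 2 * I.n ∧ j < 2 * I.n ∧ fE (enc I) i j) (2 * v) (2 * v + 1) := by
  rw [two_colorable_iff_forall_loop_even]
  constructor
  · intro h v hv hr
    obtain ⟨hb, w, hw⟩ := walk_of_reach I hr (by omega)
    have e1 : (⟨2 * v / 2, by omega⟩ : Fin I.n) = ⟨v, hv⟩ := by ext; simp
    have e2 : (⟨(2 * v + 1) / 2, by omega⟩ : Fin I.n) = ⟨v, hv⟩ := by ext; simp; omega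
    have := h ⟨v, hv⟩ (w.copy e1 e2)
    rw [Walk.length_copy, Nat.even_iff] at this
    omega
  · intro h u w
    by_contra hodd
    rw [Nat.not_even_iff] at hodd
    have := reach_of_walk I w 0 (by norm_num)
    rw [Nat.zero_add, hodd] at this
    exact h u u.2 this

end Pool.Agent.B7219d
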