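import Mathlib
import Pool.Agent.B7219d.Dec

/-!
# Colouring is polynomial on the four classes
-/

set_option autoImplicit false
set_option maxRecDepth 100000

namespace Pool.Agent.B7219d

open SimpleGraph Turing Computability

/-- A full occurrence of a pattern gives an induced subgraph. -/
theorem indContained_of_occ {V : Type*} {G : SimpleGraph V} {m E N : ℕ}
    {H : SimpleGraph (Fin m)} (h : Occ G (m, E, N))
    (hE : ∀ i j : Fin m, j < i → H.Adj i j → tb E (32 * (i : ℕ) + j) = true)
    (hN : ∀ i j : Fin m, j < i → ¬ H.Adj i j → tb N (32 * (i : ℕ) + j) = true) :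
    H.IsIndContained G := by
  obtain ⟨f, hf⟩ := h
  have h1 : ∀ i j : Fin m, j < i → (G.Adj (f i) (f j) ↔ H.Adj i j) := by
    intro i j hij
    constructor
    · intro hg
      by_contra hh
      exact hf.nadj i i.2 j hij (hN i j hij hh) hg
    · intro hh
      exact hf.adj i i.2 j hij (hE i j hij hh)
  refine ⟨⟨⟨fun i => f i, fun i j hij => ?_⟩, fun {i j} => ?_⟩⟩
  · by_contra hne
    rcases lt_or_gt_of_ne hne with h2 | h2
    · exact hf.inj j j.2 i h2 hij.symm
    · exact hf.inj i i.2 j h2 hij
  · change G.Adj (f i) (f j) ↔ H.Adj i j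
    rcases lt_trichotomy i j with h2 | h2 | h2
    · rw [G.adj_comm, H.adj_comm]; exact h1 j i h2
    · subst h2; simp
    · exact h1 i j h2

instance decP1S113 : DecidableRel P1S113.Adj := fun a b =>
  decidable_of_iff (s(a, b) ∈ ({s(0, 1), s(0, 2), s(0, 3), s(3, 4), s(4, 5)} :
    Finset (Sym2 (Fin 7))) ∧ a ≠ b) (by simp [P1S113])

instance decS123 : DecidableRel S123.Adj := fun a b =>
  decidable_of_iff (s(a, b) ∈ ({s(0, 1), s(0, 2), s(2, 3), s(0, 4), s(4, 5), s(5, 6)} :
    Finset (Sym2 (Fin 7))) ∧ a ≠ b) (by simp [S123])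

instance decPaw : DecidableRel paw.Adj := fun a b =>
  decidable_of_iff (s(a, b) ∈ ({s(0, 1), s(0, 2), s(1, 2), s(2, 3)} :
    Finset (Sym2 (Fin 4))) ∧ a ≠ b) (by simp [paw])

instance decTriangle : DecidableRel triangle.Adj := fun a b =>
  decidable_of_iff (a ≠ b) (by simp [triangle])

theorem occ_K3 {V : Type*} {G : SimpleGraph V} (h : ¬ triangle.IsIndContained G) :
    ¬ Occ G gK3 := fun ho => h (indContained_of_occ ho (by decide +kernel) (by decide +kernel))

theorem occ_S123 {V : Type*} {G : SimpleGraph V} (h : ¬ S123.IsIndContained G) :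
    ¬ Occ G gS123 := fun ho => h (indContained_of_occ ho (by decide +kernel) (by decide +kernel))

theorem occ_P1S113 {V : Type*} {G : SimpleGraph V} (h : ¬ P1S113.IsIndContained G) :
    ¬ Occ G gPS113 := fun ho => h (indContained_of_occ ho (by decide +kernel) (by decide +kernel))

/-- No triangle. -/
theorem no_triangle {V : Type*} {G : SimpleGraph V} (h : ¬ triangle.IsIndContained G) {a b c : V}
    (hab : G.Adj a b) (hbc : G.Adj b c) (hac : G.Adj a c) : False := by
  refine h ⟨⟨⟨![a, b, c], fun i j hij => ?_⟩, fun {i j} => ?_⟩⟩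
  · fin_cases i <;> fin_cases j <;> simp_all [hab.ne, hbc.ne, hac.ne, hab.ne', hbc.ne', hac.ne']
  · change G.Adj (![a, b, c] i) (![a, b, c] j) ↔ triangle.Adj i j
    fin_cases i <;> fin_cases j <;> simp [triangle, hab, hbc, hac, hab.symm, hbc.symm, hac.symm]

/-- The paw-free property in terms of vertices. -/
def PawFree {V : Type*} (G : SimpleGraph V) : Prop :=
  ∀ a b c d, G.Adj a b → G.Adj b c → G.Adj a c → G.Adj c d → d ≠ a → d ≠ b →
      G.Adj d a ∨ G.Adj d b

theorem pawFree_of_triangle {V : Type*} {G : SimpleGraph V} (h : ¬ triangle.IsIndContained G) :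
    PawFree G := fun _ _ _ _ hab hbc hac _ _ _ => (no_triangle h hab hbc hac).elim

theorem pawFree_of_paw {V : Type*} {G : SimpleGraph V} (h : ¬ paw.IsIndContained G) :
    PawFree G := by
  intro a b c d hab hbc hac hcd hda hdb
  by_contra hcon
  push Not at hcon
  obtain ⟨h1, h2⟩ := hcon
  have h1' : ¬ G.Adj a d := fun h => h1 h.symm
  have h2' : ¬ G.Adj b d := fun h => h2 h.symm
  refine h ⟨⟨⟨![a, b, c, d], fun i j hij => ?_⟩, fun {i j} => ?_⟩⟩
  · fin_cases i <;> fin_cases j <;>
      simp_all [hab.ne, hbc.ne, hac.ne, hab.ne', hbc.ne', hac.ne', hcd.ne, hcd.ne', hda.symm,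
        hdb.symm]
  · change G.Adj (![a, b, c, d] i) (![a, b, c, d] j) ↔ paw.Adj i j
    have h3 : paw.Adj 0 1 := by decide
    have h4 : paw.Adj 0 2 := by decide
    have h5 : paw.Adj 1 2 := by decide
    have h6 : paw.Adj 2 3 := by decide
    have h7 : ¬ paw.Adj 0 3 := by decide
    have h8 : ¬ paw.Adj 1 3 := by decide
    have h9 : ¬ paw.Adj 3 0 := by decide
    have h10 : ¬ paw.Adj 3 1 := by decide
    fin_cases i <;> fin_cases j <;>
      simp [h1, h2, h1', h2', h3, h4, h5, h6, h7, h8, h3.symm, h4.symm, h5.symm, h6.symm,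
        h9, h10, hab, hbc, hac, hcd, hab.symm,
        hbc.symm, hac.symm, hcd.symm]


/-- What is used of the second forbidden subgraph. -/
structure Str {n : ℕ} (G : SimpleGraph (Fin n)) : Prop where
  /-- three colours -/
  three : (¬ Occ (G.induce {v | ¬ Tri G v}) gGro) → (¬ Occ (G.induce {v | ¬ Tri G v}) gX1) →
    (¬ Occ (G.induce {v | ¬ Tri G v}) gX2) → (¬ Occ (G.induce {v | ¬ Tri G v}) gX3) →
    (G.induce {v | ¬ Tri G v}).Colorable 3
  /-- four colours -/
  four : (G.induce {v | ¬ Tri G v}).Colorable 4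

theorem occ_part {n : ℕ} (G : SimpleGraph (Fin n)) :
    ¬ Occ (G.induce {v | ¬ Tri G v}) gK3 := by
  rintro ⟨f, hf⟩
  have h1 := hf.adj 1 (by decide) 0 (by decide) (by decide +kernel)
  have h2 := hf.adj 2 (by decide) 0 (by decide) (by decide +kernel)
  have h3 := hf.adj 2 (by decide) 1 (by decide) (by decide +kernel)
  exact (f 0).2 ⟨f 1, f 2, h1.symm, h2.symm, h3.symm⟩

theorem str_S {n : ℕ} {G : SimpleGraph (Fin n)} (h : ¬ Occ G gS123) : Str G :=
  ⟨fun h1 _ _ _ => thmS _ (occ_part G) (fun ho => h ho.of_induce) h1,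
    fourS _ (occ_part G) (fun ho => h ho.of_induce)⟩

theorem str_P {n : ℕ} {G : SimpleGraph (Fin n)} (h : ¬ Occ G gPS113) : Str G :=
  ⟨fun h1 h2 h3 h4 => thmP _ (occ_part G) (fun ho => h ho.of_induce) h1 h2 h3 h4,
    fourP _ (occ_part G) (fun ho => h ho.of_induce)⟩

/-- The colourability only depends on `min k (n + 1)`. -/
theorem colorable_min {n k : ℕ} (G : SimpleGraph (Fin n)) :
    G.Colorable k ↔ G.Colorable (min k (n + 1)) := by
  rcases Nat.le_total k (n + 1) with h | h
  · rw [min_eq_left h]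
  · rw [min_eq_right h]
    have : G.Colorable n := by
      have := G.colorable_of_fintype
      rwa [Fintype.card_fin] at this
    exact ⟨fun _ => this.mono (by omega), fun _ => this.mono (by omega)⟩

theorem fD_iff (I : Inst) (hp : PawFree I.G) (hs : Str I.G) :
    fD (enc I) ↔ I.G.Colorable I.k := by
  rw [colorable_min, ← kk_enc]
  unfold fD fA
  simp only [nn_enc]
  set k := kk (enc I) with hk
  have hkn : k ≤ I.n + 1 := by rw [hk, kk_enc]; exact min_le_right _ _
  rcases Nat.lt_or_ge k 3 with h3 | h3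
  · have hcases : k = 0 ∨ k = 1 ∨ k = 2 := by omega
    rcases hcases with h | h | h
    · rw [h]
      simp only [true_and, Nat.zero_ne_one, false_and, or_false, show ¬ (3 ≤ 0) by norm_num,
        show (0 : ℕ) ≠ 2 by norm_num]
      rw [colorable_zero_iff]
      constructor
      · intro h0
        rw [h0]
        infer_instance
      · intro he
        by_contra h0
        exact he.false (⟨0, Nat.pos_of_ne_zero h0⟩ : Fin I.n)
    · rw [h]
      simp only [one_ne_zero, false_and, true_and, false_or, Nat.not_ofNat_le_one, or_false,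
        show (1 : ℕ) ≠ 2 by norm_num]
      rw [colorable_one_iff]
      constructor
      · intro h0
        ext i j
        simp only [bot_adj, iff_false]
        intro hij
        exact h0 i i.2 j j.2 ((aj_enc I i j).2 hij)
      · intro h0 i hi j hj hij
        have := (aj_enc I ⟨i, hi⟩ ⟨j, hj⟩).1 hij
        rw [h0] at this
        exact this
    · rw [h]
      simp only [OfNat.ofNat_ne_zero, false_and, OfNat.ofNat_ne_one, false_or, true_and,
        show ¬ (3 ≤ 2) by norm_num, or_false]
      exact (two_iff I).symm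
  · have e0 : k ≠ 0 := by omega
    have e1 : k ≠ 1 := by omega
    have e2 : k ≠ 2 := by omega
    simp only [e0, e1, e2, false_and, false_or, or_false, h3, true_and]
    rw [paw_iff I.G hp]
    have hw : (∀ w, w < I.n → (wTri (enc I) w → wR (enc I) w ≤ k)) ↔
        ∀ w, Tri I.G w → {r | Rep I.G w r}.ncard ≤ k := by
      constructor
      · intro h w ht
        rw [← wR_enc]
        exact h w w.2 ((wTri_enc I w).2 ht)
      · intro h w hw ht
        have := h ⟨w, hw⟩ ((wTri_enc I ⟨w, hw⟩).1 ht)
        rwa [← wR_enc] at this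
    rw [hw]
    have o1 := wOcc_enc I gGro (by decide)
    have o2 := wOcc_enc I gX1 (by decide)
    have o3 := wOcc_enc I gX2 (by decide)
    have o4 := wOcc_enc I gX3 (by decide)
    rw [o1, o2, o3, o4]
    constructor
    · rintro ⟨h1, h2⟩
      refine ⟨h1, ?_⟩
      rcases Nat.lt_or_ge k 4 with h4 | h4
      · have hk3 : k = 3 := by omega
        obtain ⟨n1, n2, n3, n4⟩ := h2 hk3
        rw [hk3]
        exact hs.three (fun h => n1 h.of_induce) (fun h => n2 h.of_induce)
          (fun h => n3 h.of_induce) (fun h => n4 h.of_induce)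
      · exact hs.four.mono h4
    · intro hcol
      refine ⟨hcol.1, fun hk3 => ?_⟩
      have := (paw_iff I.G hp).2 hcol
      rw [hk3] at this
      exact ⟨fun h => notcol_Gro h this, fun h => notcol_X1 h this, fun h => notcol_X2 h this,
        fun h => notcol_X3 h this⟩

open Classical in
/-- The algorithm. -/
noncomputable def alg (I : Inst) : Bool := decide (fD (enc I))

theorem polyTime_alg : Nonempty (TM2ComputableInPolyTime enc encodeBool alg) :=
  polyTime_fD alg fun I => by classical simp [alg]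

theorem poly_of {a b : ℕ} (H₁ : SimpleGraph (Fin a)) (H₂ : SimpleGraph (Fin b))
    (h₁ : ∀ I : Inst, ¬ H₁.IsIndContained I.G → PawFree I.G)
    (h₂ : ∀ I : Inst, ¬ H₂.IsIndContained I.G → Str I.G) : PolyColouring H₁ H₂ := by
  refine ⟨alg, polyTime_alg, fun I hI₁ hI₂ => ?_⟩
  rw [← fD_iff I (h₁ I hI₁) (h₂ I hI₂)]
  simp [alg]

/-- **COLOURING is polynomial-time solvable on all four classes.** -/
theorem all_four : PolyColouring triangle P1S113 ∧ PolyColouring triangle S123 ∧
    PolyColouring paw P1S113 ∧ PolyColouring paw S123 :=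
  ⟨poly_of _ _ (fun _ h => pawFree_of_triangle h) (fun _ h => str_P (occ_P1S113 h)),
    poly_of _ _ (fun _ h => pawFree_of_triangle h) (fun _ h => str_S (occ_S123 h)),
    poly_of _ _ (fun _ h => pawFree_of_paw h) (fun _ h => str_P (occ_P1S113 h)),
    poly_of _ _ (fun _ h => pawFree_of_paw h) (fun _ h => str_S (occ_S123 h))⟩

end Pool.Agent.B7219d
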